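import Mathlib

set_option autoImplicit false

/-!
Algebraic computation trees over the complex numbers, and the Fourier submatrix product.
-/

namespace Pool.Agent.H683R2.FS

/-- The four arithmetic operations on complex numbers. -/
inductive Op : Type
  | add : Op
  | sub : Op
  | mul : Op
  | div : Op

/-- The value of an operation (`x / 0 = 0`). -/
noncomputable def Op.eval : Op → ℂ → ℂ → ℂ
  | .add, x, y => x + y
  | .sub, x, y => x - y
  | .mul, x, y => x * y
  | .div, x, y => x / y

/-- An operand of an operation: an arbitrary complex constant (for example a root of unity), an
entry of the input vector, or the result of the `i`-th arithmetic operation executed so far. -/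
inductive Opd (m : ℕ) : Type
  | const (c : ℂ) : Opd m
  | inp (j : Fin m) : Opd m
  | reg (i : ℕ) : Opd m

/-- The value of an operand, for the input vector `v` and the list `regs` of the results obtained
so far (oldest first; a register which is not yet written has value `0`). -/
def Opd.val {m : ℕ} (v : Fin m → ℂ) (regs : List ℂ) : Opd m → ℂ
  | .const c => c
  | .inp j => v j
  | .reg i => regs.getD i 0

/-- Programs with `m` complex inputs and `m` complex outputs.
* `halt out` stops and outputs the values of the operands `out i`;
* `arith o a b next` executes one arithmetic operation, stores the result, and goes on with `next`;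
* `test t next` computes a natural number in an arbitrary way from the input and from all the
  results obtained so far, and branches according to it. -/
inductive Prog (m : ℕ) : Type
  | halt (out : Fin m → Opd m) : Prog m
  | arith (o : Op) (a b : Opd m) (next : Prog m) : Prog m
  | test (t : (Fin m → ℂ) → List ℂ → ℕ) (next : ℕ → Prog m) : Prog m

/-- The output of a program on the input `v`, started with the stored results `regs`. -/
noncomputable def Prog.runFrom {m : ℕ} (v : Fin m → ℂ) : List ℂ → Prog m → Fin m → ℂ
  | regs, .halt out => fun i => (out i).val v regs
  | regs, .arith o a b next => next.runFrom v (regs ++ [o.eval (a.val v regs) (b.val v regs)])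
  | regs, .test t next => (next (t v regs)).runFrom v regs

/-- The number of arithmetic operations executed on the input `v`; branching and the use of
constants are free. -/
noncomputable def Prog.opsFrom {m : ℕ} (v : Fin m → ℂ) : List ℂ → Prog m → ℕ
  | _, .halt _ => 0
  | regs, .arith o a b next => next.opsFrom v (regs ++ [o.eval (a.val v regs) (b.val v regs)]) + 1
  | regs, .test t next => (next (t v regs)).opsFrom v regs

/-- The output on the input `v`. -/
noncomputable def Prog.run {m : ℕ} (P : Prog m) (v : Fin m → ℂ) : Fin m → ℂ := P.runFrom v []

/-- The number of arithmetic operations executed on the input `v`. -/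
noncomputable def Prog.ops {m : ℕ} (P : Prog m) (v : Fin m → ℂ) : ℕ := P.opsFrom v []

/-- The product of the `m × m` submatrix of the `d × d` Fourier matrix with rows `R` and columns
`C` and the vector `v`: its `i`-th entry is `(1/√d) ∑ j, v j * ω ^ (R i * C j)`,
`ω = exp(-2πi/d)`. -/
noncomputable def fourierProd {m d : ℕ} (R C : Fin m → Fin d) (v : Fin m → ℂ) (i : Fin m) : ℂ :=
  (1 / (Real.sqrt d : ℂ)) *
    ∑ j : Fin m, v j * Complex.exp (-2 * Real.pi * Complex.I / d) ^ ((R i : ℕ) * (C j : ℕ))

/-- An algorithm: for all `m`, `d` and all `m`-element subsets `R`, `C` of `ℤ_d`, given by their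
increasing enumerations, a program; it may depend on `m`, `d`, `R`, `C` in an arbitrary way (all
computations with indices are free). -/
def Alg : Type := ∀ m d : ℕ, (Fin m → Fin d) → (Fin m → Fin d) → Prog m

/-- The algorithm computes the product `F_{RC} v` for all `m`, `d`, `R`, `C`, `v`. -/
def Alg.Correct (A : Alg) : Prop :=
  ∀ (m d : ℕ) (R C : Fin m → Fin d), StrictMono R → StrictMono C →
    ∀ v : Fin m → ℂ, (A m d R C).run v = fourierProd R C v

end Pool.Agent.H683R2.FS
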