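import Mathlib
import Pool.Agent.H683R2.FourierDefs

set_option autoImplicit false

namespace Pool.Agent.H683R2.FS

abbrev Ins (m : ℕ) := Op × Opd m × Opd m

/-- the executed instructions and the chosen output operands -/
noncomputable def Prog.trace {m : ℕ} (v : Fin m → ℂ) :
    List ℂ → Prog m → List (Ins m) × (Fin m → Opd m)
  | _, .halt out => ([], out)
  | regs, .arith o a b next =>
      ((o, a, b) :: (next.trace v (regs ++ [o.eval (a.val v regs) (b.val v regs)])).1,
        (next.trace v (regs ++ [o.eval (a.val v regs) (b.val v regs)])).2)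
  | regs, .test t next => (next (t v regs)).trace v regs

/-- straight-line evaluation -/
noncomputable def slp {m : ℕ} (v : Fin m → ℂ) : List ℂ → List (Ins m) → List ℂ
  | regs, [] => regs
  | regs, (o, a, b) :: l => slp v (regs ++ [o.eval (a.val v regs) (b.val v regs)]) l

lemma slp_append {m : ℕ} (v : Fin m → ℂ) (regs : List ℂ) (l l' : List (Ins m)) :
    slp v regs (l ++ l') = slp v (slp v regs l) l' := by
  induction l generalizing regs with
  | nil => rfl
  | cons x l ih =>
    obtain ⟨o, a, b⟩ := x
    simp only [List.cons_append, slp]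
    rw [ih]

lemma slp_length {m : ℕ} (v : Fin m → ℂ) (regs : List ℂ) (l : List (Ins m)) :
    (slp v regs l).length = regs.length + l.length := by
  induction l generalizing regs with
  | nil => rfl
  | cons x l ih =>
    obtain ⟨o, a, b⟩ := x
    simp only [slp]
    rw [ih]
    simp only [List.length_append, List.length_cons, List.length_nil]
    omega

lemma runFrom_eq {m : ℕ} (v : Fin m → ℂ) (P : Prog m) (regs : List ℂ) :
    P.runFrom v regs = fun i => ((P.trace v regs).2 i).val v (slp v regs (P.trace v regs).1) := by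
  induction P generalizing regs with
  | halt out => rfl
  | arith o a b next ih =>
    simp only [Prog.runFrom, Prog.trace, slp]
    rw [ih]
  | test t next ih =>
    simp only [Prog.runFrom, Prog.trace]
    rw [ih]

lemma opsFrom_eq {m : ℕ} (v : Fin m → ℂ) (P : Prog m) (regs : List ℂ) :
    P.opsFrom v regs = (P.trace v regs).1.length := by
  induction P generalizing regs with
  | halt out => rfl
  | arith o a b next ih =>
    simp only [Prog.opsFrom, Prog.trace, List.length_cons]
    rw [ih]
  | test t next ih =>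
    simp only [Prog.opsFrom, Prog.trace]
    rw [ih]

lemma trace_countable {m : ℕ} (P : Prog m) :
    {τ | ∃ v regs, P.trace v regs = τ}.Countable := by
  induction P with
  | halt out =>
    apply (Set.countable_singleton (([] : List (Ins m)), out)).mono
    rintro τ ⟨v, regs, rfl⟩
    rfl
  | arith o a b next ih =>
    apply (ih.image (fun τ => ((o, a, b) :: τ.1, τ.2))).mono
    rintro τ ⟨v, regs, rfl⟩
    exact ⟨_, ⟨v, _, rfl⟩, rfl⟩
  | test t next ih =>
    apply (Set.countable_iUnion ih).mono
    rintro τ ⟨v, regs, rfl⟩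
    rw [Set.mem_iUnion]
    exact ⟨t v regs, v, regs, rfl⟩

/-- Generic columns following the same path. -/
lemma exists_generic {m : ℕ} (hm : 0 < m) (P : Prog m) (K : Subfield ℂ)
    (hK : Cardinal.mk K ≤ Cardinal.aleph0) :
    ∃ (V : Fin m × Fin m → ℂ) (τ : List (Ins m) × (Fin m → Opd m)), AlgebraicIndependent K V ∧
      ∀ j : Fin m, P.trace (fun l => V (l, j)) [] = τ := by
  obtain ⟨ι, x, hx⟩ := exists_isTranscendenceBasis' K ℂ
  have hC : Cardinal.aleph0 < Cardinal.mk ℂ := by
    rw [Cardinal.mk_complex]
    exact Cardinal.aleph0_lt_continuum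
  have hcard : Cardinal.mk ℂ = Cardinal.mk ι :=
    IsAlgClosed.cardinal_eq_cardinal_transcendence_basis_of_aleph0_lt' x hx hK hC
  have hunc : Cardinal.aleph0 < Cardinal.mk ι := by rw [← hcard]; exact hC
  have he : Cardinal.mk (ι × Fin m) = Cardinal.mk ι := by
    rw [Cardinal.mk_prod, Cardinal.lift_id, Cardinal.lift_id]
    apply Cardinal.mul_eq_left hunc.le
    · exact (Cardinal.lt_aleph0_of_finite (Fin m)).le.trans hunc.le
    · rw [Cardinal.mk_ne_zero_iff]
      exact ⟨⟨0, hm⟩⟩
  obtain ⟨e⟩ := Cardinal.eq.1 he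
  let f : ι → List (Ins m) × (Fin m → Opd m) := fun j => P.trace (fun l => x (e (j, l))) []
  have hS := trace_countable P
  have hfib : ∃ τ, ¬ {j | f j = τ}.Countable := by
    by_contra hcon
    push Not at hcon
    have h1 : (Set.univ : Set ι) ⊆ ⋃ τ ∈ {τ | ∃ v regs, P.trace v regs = τ}, {j | f j = τ} := by
      intro j _
      rw [Set.mem_iUnion₂]
      exact ⟨f j, ⟨_, _, rfl⟩, rfl⟩
    have h2 : (Set.univ : Set ι).Countable :=
      (hS.biUnion (fun τ _ => hcon τ)).mono h1
    rw [Set.countable_univ_iff] at h2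
    exact absurd (Cardinal.mk_le_aleph0 (α := ι)) (not_le.mpr hunc)
  obtain ⟨τ, hτ⟩ := hfib
  have hinf : {j | f j = τ}.Infinite := fun h => hτ h.countable
  have := hinf.to_subtype
  let g : ℕ ↪ {j | f j = τ} := Infinite.natEmbedding _
  refine ⟨fun p => x (e ((g p.2 : ι), p.1)), τ, ?_, ?_⟩
  · apply hx.1.comp (fun p : Fin m × Fin m => e ((g p.2 : ι), p.1))
    intro p q h
    have h1 := e.injective h
    simp only [Prod.mk.injEq] at h1
    have h2 : (p.2 : ℕ) = q.2 := g.injective (Subtype.ext h1.1)
    exact Prod.ext h1.2 (Fin.ext h2)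
  · intro j
    exact (g j).2

end Pool.Agent.H683R2.FS
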