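import Mathlib
import Pool.Agent.H683R2.FourierA

set_option autoImplicit false

namespace Pool.Agent.H683R2.FS

noncomputable section

abbrev U : Ultrafilter ℕ := Filter.hyperfilter ℕ
abbrev F : Type := Filter.Germ (U : Filter ℕ) ℂ

/-- the germ of a sequence -/
def gm (x : ℕ → ℂ) : F := (x : F)

lemma gm_add (x y : ℕ → ℂ) : gm (fun k => x k + y k) = gm x + gm y := rfl
lemma gm_sub (x y : ℕ → ℂ) : gm (fun k => x k - y k) = gm x - gm y := rfl
lemma gm_mul (x y : ℕ → ℂ) : gm (fun k => x k * y k) = gm x * gm y := rfl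
lemma gm_div (x y : ℕ → ℂ) : gm (fun k => x k / y k) = gm x / gm y := rfl
lemma gm_zero : gm (fun _ => 0) = 0 := rfl

/-- the algebraic closure of a set, as a subfield -/
def algSub (S : Set F) : Subfield F where
  carrier := {x | IsAlgebraic (Algebra.adjoin ℤ S) x}
  mul_mem' := fun ha hb => IsAlgebraic.mul ha hb
  one_mem' := isAlgebraic_one
  add_mem' := fun ha hb => IsAlgebraic.add ha hb
  zero_mem' := isAlgebraic_zero
  neg_mem' := fun ha => IsAlgebraic.neg ha
  inv_mem' := fun _ ha => IsAlgebraic.inv ha

lemma subset_algSub (S : Set F) : S ⊆ algSub S := fun x hx =>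
  isAlgebraic_algebraMap (⟨x, Algebra.subset_adjoin hx⟩ : Algebra.adjoin ℤ S)

lemma card_le_of_algIndep {σ ρ : Type} [Fintype σ] [Fintype ρ] {z : σ → F}
    (hz : AlgebraicIndependent ℤ z) (s : ρ → F) (hs : ∀ i, z i ∈ algSub (Set.range s)) :
    Fintype.card σ ≤ Fintype.card ρ := by
  have : FaithfulSMul ℤ F := (faithfulSMul_iff_algebraMap_injective ℤ F).2 hz.algebraMap_injective
  have h1 : (AlgebraicIndependent.matroid ℤ F).Indep (Set.range z) := by
    rw [AlgebraicIndependent.matroid_indep_iff]
    exact AlgebraicIndependent.to_subtype_range hz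
  have h2 : Set.range z ⊆ (AlgebraicIndependent.matroid ℤ F).closure (Set.range s) := by
    rw [AlgebraicIndependent.matroid_closure_eq]
    rintro _ ⟨i, rfl⟩
    exact hs i
  have h3 := h1.encard_le_eRk_of_subset h2
  rw [Matroid.eRk_closure_eq] at h3
  have h4 := h3.trans (Matroid.eRk_le_encard _ _)
  have h5 : (Set.range z).encard = Fintype.card σ := by
    rw [← Set.image_univ, hz.injective.encard_image]
    simp
  have h6 : (Set.range s).encard ≤ Fintype.card ρ := by
    rw [← Set.image_univ]
    refine (Set.encard_image_le _ _).trans ?_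
    simp
  rw [h5] at h4
  exact_mod_cast h4.trans h6

lemma gm_mem_of_finite {ρ : Type} [Finite ρ] {L : Subfield F} {x : ℕ → ℂ} {y : ρ → ℕ → ℂ}
    (h : ∀ k, ∃ r, x k = y r k) (hy : ∀ r, gm (y r) ∈ L) : gm x ∈ L := by
  have h1 : ∀ᶠ k in (U : Filter ℕ), ∃ r, x k = y r k := Filter.Eventually.of_forall h
  rw [Ultrafilter.eventually_exists_iff] at h1
  obtain ⟨r, hr⟩ := h1
  have h2 : gm x = gm (y r) := Filter.Germ.coe_eq.2 hr
  rw [h2]; exact hy r

lemma gm_op {L : Subfield F} (o : ℕ → Op) {x y : ℕ → ℂ} (hx : gm x ∈ L) (hy : gm y ∈ L) :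
    gm (fun k => (o k).eval (x k) (y k)) ∈ L := by
  apply gm_mem_of_finite (ρ := Fin 4) (y := fun r k =>
    if r = 0 then x k + y k else if r = 1 then x k - y k else if r = 2 then x k * y k
      else x k / y k)
  · intro k
    cases o k with
    | add => exact ⟨0, by simp [Op.eval]⟩
    | sub => exact ⟨1, by simp [Op.eval]⟩
    | mul => exact ⟨2, by simp [Op.eval]⟩
    | div => exact ⟨3, by simp [Op.eval]⟩
  · intro r
    fin_cases r
    · exact L.add_mem hx hy
    · exact L.sub_mem hx hy
    · exact L.mul_mem hx hy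
    · exact L.div_mem hx hy

/-- constant part of an operand -/
def cp {m : ℕ} : Opd m → ℂ
  | .const c => c
  | .inp _ => 0
  | .reg _ => 0

lemma gm_opd {m : ℕ} {L : Subfield F} (a : ℕ → Opd m) (v : ℕ → Fin m → ℂ) (regs : ℕ → List ℂ)
    (s : ℕ) (hlen : ∀ k, (regs k).length ≤ s) (hc : gm (fun k => cp (a k)) ∈ L)
    (hv : ∀ l, gm (fun k => v k l) ∈ L) (hr : ∀ i, gm (fun k => (regs k).getD i 0) ∈ L) :
    gm (fun k => (a k).val (v k) (regs k)) ∈ L := by
  apply gm_mem_of_finite (ρ := Bool ⊕ (Fin m ⊕ Fin s)) (y := fun r k =>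
    match r with
    | .inl true => cp (a k)
    | .inl false => 0
    | .inr (.inl l) => v k l
    | .inr (.inr i) => (regs k).getD i 0)
  · intro k
    cases h : a k with
    | const c => exact ⟨.inl true, by simp [Opd.val, cp]⟩
    | inp l => exact ⟨.inr (.inl l), by simp [Opd.val]⟩
    | reg i =>
      by_cases hi : i < s
      · exact ⟨.inr (.inr ⟨i, hi⟩), by simp [Opd.val]⟩
      · refine ⟨.inl false, ?_⟩
        simp only [Opd.val]
        have := hlen k
        exact List.getD_eq_default _ _ (by omega)
  · intro r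
    match r with
    | .inl true => exact hc
    | .inl false => exact L.zero_mem
    | .inr (.inl l) => exact hv l
    | .inr (.inr i) => exact hr i

/-- a dummy instruction -/
def dm (m : ℕ) : Ins m := (Op.add, Opd.const 0, Opd.const 0)

lemma gm_regs {m : ℕ} {L : Subfield F} (S0 : ℕ) (ins : ℕ → List (Ins m))
    (v : ℕ → Fin m → ℂ) (hv : ∀ l, gm (fun k => v k l) ∈ L)
    (ha : ∀ s < S0, gm (fun k => cp (((ins k).getD s (dm m)).2.1)) ∈ L)
    (hb : ∀ s < S0, gm (fun k => cp (((ins k).getD s (dm m)).2.2)) ∈ L) (s : ℕ) (hs : s ≤ S0) :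
    ∀ i, gm (fun k => (slp (v k) [] ((ins k).take s)).getD i 0) ∈ L := by
  induction s with
  | zero =>
    intro i
    simp only [List.take_zero, slp, List.getD_nil]
    exact L.zero_mem
  | succ s ih =>
    have ih' := ih (by omega)
    intro i
    have hlen : ∀ k, (slp (v k) [] ((ins k).take s)).length ≤ s := by
      intro k
      rw [slp_length]
      simp
    have h1 := gm_opd (fun k => ((ins k).getD s (dm m)).2.1) v
      (fun k => slp (v k) [] ((ins k).take s)) s hlen (ha s (by omega)) hv ih'
    have h2 := gm_opd (fun k => ((ins k).getD s (dm m)).2.2) v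
      (fun k => slp (v k) [] ((ins k).take s)) s hlen (hb s (by omega)) hv ih'
    have h3 := gm_op (fun k => ((ins k).getD s (dm m)).1) h1 h2
    apply gm_mem_of_finite (ρ := Fin 3) (y := fun r k =>
      if r = 0 then (slp (v k) [] ((ins k).take s)).getD i 0 else if r = 1 then
        (((ins k).getD s (dm m)).1).eval
          ((((ins k).getD s (dm m)).2.1).val (v k) (slp (v k) [] ((ins k).take s)))
          ((((ins k).getD s (dm m)).2.2).val (v k) (slp (v k) [] ((ins k).take s))) else 0)
    · intro k
      by_cases hk : s < (ins k).length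
      · have h4 : (ins k).take (s + 1) = (ins k).take s ++ [(ins k).getD s (dm m)] := by
          rw [List.take_succ_eq_append_getElem hk, List.getD_eq_getElem _ _ hk]
        have h5 : slp (v k) [] ((ins k).take (s + 1)) = slp (v k) [] ((ins k).take s) ++
            [(((ins k).getD s (dm m)).1).eval
          ((((ins k).getD s (dm m)).2.1).val (v k) (slp (v k) [] ((ins k).take s)))
          ((((ins k).getD s (dm m)).2.2).val (v k) (slp (v k) [] ((ins k).take s)))] := by
          rw [h4, slp_append]
          rfl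
        have h6 : (slp (v k) [] ((ins k).take s)).length = s := by
          rw [slp_length]
          simp
          omega
        rw [h5]
        rcases lt_trichotomy i s with h7 | h7 | h7
        · refine ⟨0, ?_⟩
          rw [if_pos rfl, List.getD_append _ _ _ _ (by omega)]
        · refine ⟨1, ?_⟩
          rw [if_neg (by decide), if_pos rfl, List.getD_append_right _ _ _ _ (by omega), h6, h7]
          simp
        · refine ⟨2, ?_⟩
          rw [if_neg (by decide), if_neg (by decide), List.getD_eq_default]
          rw [List.length_append, h6]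
          simp only [List.length_cons, List.length_nil]
          omega
      · refine ⟨0, ?_⟩
        have h4 : (ins k).take (s + 1) = (ins k).take s := by
          rw [List.take_of_length_le (by omega), List.take_of_length_le (by omega)]
        simp only [h4, if_true]
    · intro r
      fin_cases r
      · exact ih' i
      · exact h3
      · exact L.zero_mem

lemma gm_out {m : ℕ} {L : Subfield F} (S0 : ℕ) (ins : ℕ → List (Ins m))
    (hS : ∀ k, (ins k).length ≤ S0) (out : ℕ → Opd m)
    (v : ℕ → Fin m → ℂ) (hv : ∀ l, gm (fun k => v k l) ∈ L)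
    (ha : ∀ s < S0, gm (fun k => cp (((ins k).getD s (dm m)).2.1)) ∈ L)
    (hb : ∀ s < S0, gm (fun k => cp (((ins k).getD s (dm m)).2.2)) ∈ L)
    (hc : gm (fun k => cp (out k)) ∈ L) :
    gm (fun k => (out k).val (v k) (slp (v k) [] (ins k))) ∈ L := by
  have h1 := gm_regs S0 ins v hv ha hb S0 le_rfl
  have h2 : ∀ k, (ins k).take S0 = ins k := fun k => List.take_of_length_le (hS k)
  simp only [h2] at h1
  apply gm_opd out v (fun k => slp (v k) [] (ins k)) S0 _ hc hv h1
  intro k
  rw [slp_length]
  simpa using hS k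

end

end Pool.Agent.H683R2.FS
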