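import Mathlib
import Pool.Agent.H683R2.FourierB

set_option autoImplicit false

namespace Pool.Agent.H683R2.FS

noncomputable section

/-- the exponent of the `(i,j)` entry -/
def Nexp (m B : ℕ) (p : Fin m × Fin m) : ℕ := B ^ ((finProdFinEquiv p : Fin (m * m)) : ℕ)

def fexp (m B : ℕ) (e : (Fin m × Fin m) →₀ ℕ) : ℕ := ∑ p, Nexp m B p * e p

lemma fexp_eq {m B : ℕ} (e : (Fin m × Fin m) →₀ ℕ) (h : ∀ p, e p < B) :
    fexp m B e = (finFunctionFinEquiv
      (fun t : Fin (m * m) => (⟨e (finProdFinEquiv.symm t), h _⟩ : Fin B)) : ℕ) := by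
  rw [finFunctionFinEquiv_apply]
  unfold fexp Nexp
  rw [← finProdFinEquiv.sum_comp]
  apply Finset.sum_congr rfl
  intro p _
  simp only [Equiv.symm_apply_apply]
  ring

lemma fexp_lt {m B : ℕ} (e : (Fin m × Fin m) →₀ ℕ) (h : ∀ p, e p < B) :
    fexp m B e < B ^ (m * m) := by
  rw [fexp_eq e h]
  exact Fin.is_lt _

lemma fexp_inj {m B : ℕ} (e e' : (Fin m × Fin m) →₀ ℕ) (h : ∀ p, e p < B) (h' : ∀ p, e' p < B)
    (he : fexp m B e = fexp m B e') : e = e' := by
  rw [fexp_eq e h, fexp_eq e' h'] at he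
  have h1 := finFunctionFinEquiv.injective (Fin.ext he)
  ext p
  have h2 := congrFun h1 (finProdFinEquiv p)
  simp only [Equiv.symm_apply_apply, Fin.mk.injEq] at h2
  exact h2

open Polynomial in
lemma kron {m B d : ℕ} (q : MvPolynomial (Fin m × Fin m) ℤ) (hq : q ≠ 0)
    (hB : q.totalDegree < B) (hd : d.Prime) (hdB : B ^ (m * m) < d) {ω : ℂ}
    (hω : IsPrimitiveRoot ω d) :
    MvPolynomial.aeval (fun p => ω ^ Nexp m B p) q ≠ 0 := by
  classical
  intro h0
  set P : ℤ[X] := MvPolynomial.aeval (fun p => (X : ℤ[X]) ^ Nexp m B p) q with hP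
  have hlt : ∀ e ∈ q.support, ∀ p, e p < B := fun e he p =>
    lt_of_le_of_lt ((MvPolynomial.monomial_le_degreeOf p he).trans
      (MvPolynomial.degreeOf_le_totalDegree q p)) hB
  have hPsum : P = ∑ e ∈ q.support, C (q.coeff e) * X ^ fexp m B e := by
    rw [hP, MvPolynomial.aeval_def, MvPolynomial.eval₂_eq']
    apply Finset.sum_congr rfl
    intro e _
    congr 1
    unfold fexp
    rw [Finset.prod_congr rfl (fun p _ => (pow_mul (X : ℤ[X]) (Nexp m B p) (e p)).symm),
      Finset.prod_pow_eq_pow_sum]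
  have hP0 : P ≠ 0 := by
    obtain ⟨e0, he0⟩ := MvPolynomial.support_nonempty.2 hq
    intro h
    have h1 : P.coeff (fexp m B e0) = q.coeff e0 := by
      rw [hPsum, Polynomial.finsetSum_coeff]
      rw [Finset.sum_eq_single e0]
      · simp
      · intro e he hne
        rw [Polynomial.coeff_C_mul, Polynomial.coeff_X_pow, if_neg, mul_zero]
        intro h2
        exact hne (fexp_inj e e0 (hlt e he) (hlt e0 he0) h2.symm)
      · intro h2; exact absurd he0 h2
    rw [h, Polynomial.coeff_zero] at h1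
    exact (MvPolynomial.mem_support_iff.1 he0) h1.symm
  have hdeg : P.natDegree < B ^ (m * m) := by
    have hpos : 0 < B ^ (m * m) := by
      have : 0 < B := by omega
      positivity
    have : P.natDegree ≤ B ^ (m * m) - 1 := by
      rw [hPsum]
      apply Polynomial.natDegree_sum_le_of_forall_le
      intro e he
      refine (Polynomial.natDegree_C_mul_X_pow_le _ _).trans ?_
      have := fexp_lt e (hlt e he)
      omega
    omega
  have hroot : Polynomial.aeval ω P = 0 := by
    have h1 : Polynomial.aeval ω P = MvPolynomial.aeval (fun p => ω ^ Nexp m B p) q := by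
      rw [hP]
      have h2 : (Polynomial.aeval (R := ℤ) ω).comp
          (MvPolynomial.aeval (fun p => (X : ℤ[X]) ^ Nexp m B p)) =
          MvPolynomial.aeval (fun p : Fin m × Fin m => ω ^ Nexp m B p) := by
        apply MvPolynomial.algHom_ext
        intro p
        simp
      exact DFunLike.congr_fun h2 q
    rw [h1]; exact h0
  have hPQ : P.map (Int.castRingHom ℚ) ≠ 0 := by
    rw [Ne, Polynomial.map_eq_zero_iff (RingHom.injective_int _)]
    exact hP0
  have hroot' : Polynomial.aeval ω (P.map (Int.castRingHom ℚ)) = 0 := by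
    rw [← hroot]
    have : (algebraMap ℤ ℚ) = Int.castRingHom ℚ := rfl
    rw [← this, Polynomial.aeval_map_algebraMap]
  have h2 := Polynomial.natDegree_le_of_dvd (minpoly.dvd ℚ ω hroot') hPQ
  rw [← Polynomial.cyclotomic_eq_minpoly_rat hω hd.pos, Polynomial.natDegree_cyclotomic,
    Nat.totient_prime hd] at h2
  have h3 := Polynomial.natDegree_map_le (f := Int.castRingHom ℚ) (p := P)
  have := hd.pos
  omega

lemma gm_aeval {σ : Type} (y : σ → ℕ → ℂ) (q : MvPolynomial σ ℤ) :
    MvPolynomial.aeval (fun i => gm (y i)) q =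
      gm (fun k => MvPolynomial.aeval (fun i => y i k) q) := by
  have h1 : MvPolynomial.aeval (fun i => gm (y i)) q =
      (Filter.Germ.coeRingHom (U : Filter ℕ)).toIntAlgHom (MvPolynomial.aeval y q) := by
    have h2 : ((Filter.Germ.coeRingHom (R := ℂ) (U : Filter ℕ)).toIntAlgHom).comp
        (MvPolynomial.aeval y) = MvPolynomial.aeval (fun i => gm (y i)) := by
      apply MvPolynomial.algHom_ext
      intro i
      simp
      rfl
    exact (DFunLike.congr_fun h2 q).symm
  rw [h1]
  have h3 : ∀ k, (MvPolynomial.aeval y q) k = MvPolynomial.aeval (fun i => y i k) q := by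
    intro k
    have h4 : (Pi.evalAlgHom ℤ (fun _ : ℕ => ℂ) k).comp (MvPolynomial.aeval y) =
        MvPolynomial.aeval (fun i => y i k) := by
      apply MvPolynomial.algHom_ext
      intro i
      simp
    exact DFunLike.congr_fun h4 q
  change gm (MvPolynomial.aeval y q) = _
  congr 1
  funext k
  exact h3 k

theorem indep {σ : Type} (Mk Vk : ℕ → σ → ℂ) (K : ℕ → Subfield ℂ)
    (hM : ∀ k p, Mk k p ∈ K k) (hV : ∀ k, AlgebraicIndependent (K k) (Vk k))
    (hgen : ∀ q : MvPolynomial σ ℤ, q ≠ 0 →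
      ∀ᶠ k in Filter.atTop, MvPolynomial.aeval (Mk k) q ≠ 0) :
    AlgebraicIndependent ℤ (Sum.elim (fun p => gm (fun k => Vk k p))
      (fun p => gm (fun k => Mk k p)) : σ ⊕ σ → F) := by
  classical
  rw [algebraicIndependent_iff]
  intro q hq
  by_contra hq0
  have h1 : (Sum.elim (fun p => gm (fun k => Vk k p))
      (fun p => gm (fun k => Mk k p)) : σ ⊕ σ → F) =
      fun i => gm (Sum.elim (fun p k => Vk k p) (fun p k => Mk k p) i) := by
    funext i
    cases i <;> rfl
  rw [h1, gm_aeval, ← gm_zero] at hq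
  have h2 : ∀ᶠ k in (U : Filter ℕ), MvPolynomial.aeval
      (fun i => (Sum.elim (fun p k => Vk k p) (fun p k => Mk k p) i : ℕ → ℂ) k) q = 0 :=
    Filter.Germ.coe_eq.1 hq
  set qt := MvPolynomial.sumAlgEquiv ℤ σ σ q with hqt
  have hqt0 : qt ≠ 0 := by
    rw [hqt, Ne, EmbeddingLike.map_eq_zero_iff]
    exact hq0
  obtain ⟨α, hα⟩ := MvPolynomial.ne_zero_iff.1 hqt0
  have h3 : ∀ᶠ k in (U : Filter ℕ), MvPolynomial.aeval (Mk k) (qt.coeff α) ≠ 0 := by
    have h4 := hgen _ hα
    rw [← Nat.cofinite_eq_atTop] at h4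
    exact Filter.hyperfilter_le_cofinite h4
  obtain ⟨k, hk2, hk3⟩ := (h2.and h3).exists
  apply hk3
  let ψ : MvPolynomial σ ℤ →+* K k :=
    (MvPolynomial.aeval (fun p => (⟨Mk k p, hM k p⟩ : K k))).toRingHom
  have hψ : ∀ c, ((ψ c : K k) : ℂ) = MvPolynomial.aeval (Mk k) c := by
    intro c
    have h5 : ((K k).subtype.toIntAlgHom).comp
        (MvPolynomial.aeval (fun p => (⟨Mk k p, hM k p⟩ : K k))) = MvPolynomial.aeval (Mk k) := by
      apply MvPolynomial.algHom_ext
      intro i
      simp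
    exact DFunLike.congr_fun h5 c
  have h6 : MvPolynomial.aeval (Vk k) (MvPolynomial.map ψ qt) = MvPolynomial.aeval
      (fun i => (Sum.elim (fun p k => Vk k p) (fun p k => Mk k p) i : ℕ → ℂ) k) q := by
    have h7 : ((MvPolynomial.aeval (R := K k) (Vk k)).toRingHom.comp
        ((MvPolynomial.map ψ).comp
          (MvPolynomial.sumAlgEquiv ℤ σ σ : MvPolynomial (σ ⊕ σ) ℤ ≃ₐ[ℤ] _).toRingEquiv.toRingHom))
        = (MvPolynomial.aeval (R := ℤ)
          (fun i => (Sum.elim (fun p k => Vk k p) (fun p k => Mk k p) i : ℕ → ℂ) k)).toRingHom := by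
      apply MvPolynomial.ringHom_ext
      · intro r
        simp
      · intro i
        cases i with
        | inl p => simp
        | inr p =>
          simp
          exact (hψ (MvPolynomial.X p)).trans (by simp)
    exact DFunLike.congr_fun h7 q
  rw [hk2] at h6
  have h8 := (algebraicIndependent_iff.1 (hV k)) _ h6
  have h9 : MvPolynomial.coeff α (MvPolynomial.map ψ qt) = 0 := by rw [h8]; simp
  rw [MvPolynomial.coeff_map] at h9
  rw [← hψ, h9]
  simp

end

end Pool.Agent.H683R2.FS
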