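import Mathlib
import Pool.Agent.H683R2.FourierC

set_option autoImplicit false

namespace Pool.Agent.H683R2.FS

noncomputable section

/-- the root of unity -/
def om (d : ℕ) : ℂ := Complex.exp (-2 * Real.pi * Complex.I / d)

lemma om_prim {d : ℕ} (hd : d ≠ 0) : IsPrimitiveRoot (om d) d := by
  have h := (Complex.isPrimitiveRoot_exp d hd).inv
  have h2 : om d = (Complex.exp (2 * Real.pi * Complex.I / d))⁻¹ := by
    unfold om
    rw [← Complex.exp_neg]
    congr 1
    ring
  rw [h2]; exact h

theorem lower (A : Alg) (hA : A.Correct) (m : ℕ) (hm : 2 ≤ m) :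
    ∃ d : ℕ, m ≤ d ∧ ∃ R C : Fin m → Fin d, StrictMono R ∧ StrictMono C ∧
      ∃ v : Fin m → ℂ, m ^ 2 ≤ 8 * (A m d R C).ops v := by
  by_contra hcon
  push Not at hcon
  -- parameters
  have hprime : ∀ k : ℕ, ∃ d : ℕ, d.Prime ∧ (k + 2) ^ (m * m) < d ∧ m ≤ d := by
    intro k
    obtain ⟨p, hp1, hp2⟩ := Nat.exists_infinite_primes ((k + 2) ^ (m * m) + 1 + m)
    exact ⟨p, hp2, by omega, by omega⟩
  choose d hdp hdB hdm using hprime
  have hlt : ∀ (k e : ℕ), e ≤ m * m → (k + 2) ^ e < d k := by
    intro k e he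
    exact lt_of_le_of_lt (Nat.pow_le_pow_right (by omega) he) (hdB k)
  let R : ∀ k, Fin m → Fin (d k) := fun k i => ⟨(k + 2) ^ (m * (i : ℕ)), hlt k _
    (Nat.mul_le_mul_left _ i.2.le)⟩
  let C : ∀ k, Fin m → Fin (d k) := fun k j => ⟨(k + 2) ^ (j : ℕ), hlt k _
    (by nlinarith [j.2])⟩
  have hR : ∀ k, StrictMono (R k) := by
    intro k i i' h
    simp only [R, Fin.mk_lt_mk]
    exact Nat.pow_lt_pow_right (by omega) (by
      have : (i : ℕ) < i' := h
      nlinarith)
  have hC : ∀ k, StrictMono (C k) := by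
    intro k i i' h
    simp only [C, Fin.mk_lt_mk]
    exact Nat.pow_lt_pow_right (by omega) h
  let K : ℕ → Subfield ℂ := fun k => Subfield.closure {om (d k)}
  have hK : ∀ k, Cardinal.mk (K k) ≤ Cardinal.aleph0 := by
    intro k
    refine (Subfield.cardinalMk_closure_le_max _).trans ?_
    simp
  have hgenex := fun k => exists_generic (m := m) (by omega) (A m (d k) (R k) (C k)) (K k) (hK k)
  choose V τ hVind hτ using hgenex
  set S0 := (m ^ 2 - 1) / 8 with hS0
  have hlen : ∀ k, (τ k).1.length ≤ S0 := by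
    intro k
    have h1 := hcon (d k) (hdm k) (R k) (C k) (hR k) (hC k) (fun l => V k (l, ⟨0, by omega⟩))
    unfold Prog.ops at h1
    rw [opsFrom_eq, hτ k ⟨0, by omega⟩] at h1
    omega
  have hout : ∀ k i j, fourierProd (R k) (C k) (fun l => V k (l, j)) i =
      ((τ k).2 i).val (fun l => V k (l, j)) (slp (fun l => V k (l, j)) [] (τ k).1) := by
    intro k i j
    have h1 := hA m (d k) (R k) (C k) (hR k) (hC k) (fun l => V k (l, j))
    unfold Prog.run at h1
    rw [runFrom_eq, hτ k j] at h1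
    exact (congrFun h1 i).symm
  -- generators
  let gens : ((Fin S0 ⊕ Fin S0) ⊕ (Fin m ⊕ Unit)) ⊕ (Fin m × Fin m) → F := fun r =>
    match r with
    | .inl (.inl (.inl s)) => gm (fun k => cp (((τ k).1.getD s (dm m)).2.1))
    | .inl (.inl (.inr s)) => gm (fun k => cp (((τ k).1.getD s (dm m)).2.2))
    | .inl (.inr (.inl i)) => gm (fun k => cp ((τ k).2 i))
    | .inl (.inr (.inr _)) => gm (fun k => (Real.sqrt (d k) : ℂ))
    | .inr p => gm (fun k => V k p)
  set L := algSub (Set.range gens) with hL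
  have hgens : ∀ r, gens r ∈ L := fun r => subset_algSub _ ⟨r, rfl⟩
  have hVL : ∀ p, gm (fun k => V k p) ∈ L := fun p => hgens (.inr p)
  have hO : ∀ i j, gm (fun k => fourierProd (R k) (C k) (fun l => V k (l, j)) i) ∈ L := by
    intro i j
    have h1 : (fun k => fourierProd (R k) (C k) (fun l => V k (l, j)) i) = fun k =>
        ((τ k).2 i).val (fun l => V k (l, j)) (slp (fun l => V k (l, j)) [] (τ k).1) := by
      funext k
      exact hout k i j
    rw [h1]
    apply gm_out S0 (fun k => (τ k).1) hlen (fun k => (τ k).2 i) (fun k l => V k (l, j))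
    · exact fun l => hVL (l, j)
    · exact fun s hs => hgens (.inl (.inl (.inl ⟨s, hs⟩)))
    · exact fun s hs => hgens (.inl (.inl (.inr ⟨s, hs⟩)))
    · exact hgens (.inl (.inr (.inl i)))
  -- the matrix
  let Mk : ℕ → Fin m × Fin m → ℂ := fun k p => om (d k) ^ Nexp m (k + 2) p
  have hsqrt : gm (fun k => (Real.sqrt (d k) : ℂ)) ∈ L := hgens (.inl (.inr (.inr ())))
  let Vs : Matrix (Fin m) (Fin m) F := fun l j => gm (fun k => V k (l, j))
  let Ms : Matrix (Fin m) (Fin m) F := fun i l => gm (fun k => Mk k (i, l))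
  have hprod : ∀ i j, (Ms * Vs) i j = gm (fun k => (Real.sqrt (d k) : ℂ)) *
      gm (fun k => fourierProd (R k) (C k) (fun l => V k (l, j)) i) := by
    intro i j
    rw [← gm_mul, Matrix.mul_apply]
    have h1 : ∀ s : Finset (Fin m), ∑ l ∈ s, Ms i l * Vs l j =
        gm (fun k => ∑ l ∈ s, Mk k (i, l) * V k (l, j)) := by
      intro s
      classical
      induction s using Finset.induction_on with
      | empty => simp only [Finset.sum_empty]; rfl
      | insert a s ha ih =>
        rw [Finset.sum_insert ha, ih]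
        simp only [Finset.sum_insert ha]
        rfl
    rw [h1]
    congr 1
    funext k
    unfold fourierProd
    have hd0 : (0 : ℝ) < d k := by exact_mod_cast (hdp k).pos
    have h2 : ((Real.sqrt (d k) : ℝ) : ℂ) ≠ 0 := by
      rw [Ne, Complex.ofReal_eq_zero]
      exact (Real.sqrt_pos.2 hd0).ne'
    rw [← mul_assoc, mul_one_div_cancel h2, one_mul]
    apply Finset.sum_congr rfl
    intro l _
    have h3 : Nexp m (k + 2) (i, l) = ((R k i : Fin (d k)) : ℕ) * ((C k l : Fin (d k)) : ℕ) := by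
      simp only [Nexp, R, C, finProdFinEquiv_apply_val]
      rw [← pow_add]
      congr 1
      ring
    simp only [Mk, om]
    rw [h3, mul_comm]
  have hind := indep Mk V K
    (by
      intro k p
      exact pow_mem (Subfield.subset_closure (Set.mem_singleton _)) _)
    hVind
    (by
      intro q hq
      rw [Filter.eventually_atTop]
      refine ⟨q.totalDegree, fun k hk => ?_⟩
      exact kron q hq (by omega) (hdp k) (hdB k) (om_prim (hdp k).ne_zero))
  -- invertibility
  have hdet : Vs.det ≠ 0 := by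
    have h1 : AlgebraicIndependent ℤ (fun p : Fin m × Fin m => gm (fun k => V k p)) := by
      have := hind.comp (Sum.inl : Fin m × Fin m → _) Sum.inl_injective
      exact this
    intro h0
    have h2 : MvPolynomial.aeval (fun p : Fin m × Fin m => Vs p.1 p.2)
        (Matrix.det (Matrix.mvPolynomialX (Fin m) (Fin m) ℤ)) = Vs.det := by
      rw [AlgHom.map_det]
      congr 1
      exact Matrix.mvPolynomialX_mapMatrix_aeval ℤ Vs
    rw [h0] at h2
    exact Matrix.det_mvPolynomialX_ne_zero (Fin m) ℤ ((algebraicIndependent_iff.1 h1) _ h2)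
  -- entries of Ms lie in L
  let VL : Matrix (Fin m) (Fin m) L := fun l j => ⟨Vs l j, hVL (l, j)⟩
  have hWmem : ∀ i j, (Ms * Vs) i j ∈ L := by
    intro i j
    rw [hprod]
    exact L.mul_mem hsqrt (hO i j)
  let WL : Matrix (Fin m) (Fin m) L := fun i j => ⟨(Ms * Vs) i j, hWmem i j⟩
  have hVmap : VL.map L.subtype = Vs := rfl
  have hWmap : WL.map L.subtype = Ms * Vs := rfl
  have hdetL : VL.det ≠ 0 := by
    intro h0
    apply hdet
    rw [← hVmap, ← RingHom.mapMatrix_apply, ← RingHom.map_det, h0, map_zero]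
  have hX : (WL * VL⁻¹) * VL = WL := by
    rw [Matrix.mul_assoc, Matrix.nonsing_inv_mul _ (isUnit_iff_ne_zero.2 hdetL), Matrix.mul_one]
  have hMs : Ms = (WL * VL⁻¹).map L.subtype := by
    have h1 : ((WL * VL⁻¹).map L.subtype) * Vs = Ms * Vs := by
      rw [← hVmap, ← Matrix.map_mul, hX, hWmap, hVmap]
    have h2 := Matrix.mul_nonsing_inv_cancel_right (A := Vs) Ms (isUnit_iff_ne_zero.2 hdet)
    have h3 := Matrix.mul_nonsing_inv_cancel_right (A := Vs) ((WL * VL⁻¹).map L.subtype)
      (isUnit_iff_ne_zero.2 hdet)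
    rw [← h2, ← h1, h3]
  have hML : ∀ p, gm (fun k => Mk k p) ∈ L := by
    intro p
    have h1 : gm (fun k => Mk k p) = Ms p.1 p.2 := rfl
    rw [h1, hMs]
    exact ((WL * VL⁻¹) p.1 p.2).2
  have hcard := card_le_of_algIndep hind gens (by
    intro i
    cases i with
    | inl p => exact hVL p
    | inr p => exact hML p)
  simp only [Fintype.card_sum, Fintype.card_prod, Fintype.card_fin, Fintype.card_unit] at hcard
  have h8 : 8 * S0 ≤ m ^ 2 - 1 := Nat.mul_div_le _ _
  have h9 : 1 ≤ m ^ 2 := Nat.one_le_pow _ _ (by omega)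
  have h10 : 8 * S0 + 1 ≤ m ^ 2 := by omega
  nlinarith

end

end Pool.Agent.H683R2.FS
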