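import Mathlib
import Pool.Agent.H683R2.FourierDefs

set_option autoImplicit false

namespace Pool.Agent.H683R2.FS

noncomputable section

def rowP {m : ℕ} (c : Fin m → ℂ) : List (Fin m) → ℕ → Opd m → (ℕ → Opd m → Prog m) → Prog m
  | [], n, acc, k => k n acc
  | j :: js, n, acc, k => .arith .mul (.inp j) (.const (c j))
      (.arith .add acc (.reg n) (rowP c js (n + 2) (.reg (n + 1)) k))

def allP {m : ℕ} (c : Fin m → Fin m → ℂ) : List (Fin m) → ℕ → (Fin m → Opd m) → Prog m
  | [], _, out => .halt out
  | i :: is, n, out => rowP (c i) (List.finRange m) n (.const 0)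
      (fun n' acc => allP c is n' (Function.update out i acc))

def Stable {m : ℕ} (n : ℕ) : Opd m → Prop
  | .reg i => i < n
  | _ => True

lemma Stable.mono {m n n' : ℕ} {a : Opd m} (h : Stable n a) (hn : n ≤ n') : Stable n' a := by
  cases a with
  | const c => trivial
  | inp j => trivial
  | reg i => exact lt_of_lt_of_le h hn

lemma Stable.val {m n : ℕ} {a : Opd m} (h : Stable n a) (v : Fin m → ℂ) (regs ext : List ℂ)
    (hl : regs.length = n) : a.val v (regs ++ ext) = a.val v regs := by
  cases a with
  | const c => rfl
  | inp j => rfl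
  | reg i =>
    simp only [Opd.val]
    have h' : i < n := h
    rw [List.getD_append _ _ _ _ (by omega)]

lemma rowP_run {m : ℕ} (c : Fin m → ℂ) (v : Fin m → ℂ) (js : List (Fin m)) :
    ∀ (n : ℕ) (regs : List ℂ) (acc : Opd m) (k : ℕ → Opd m → Prog m), regs.length = n →
      Stable n acc → ∃ (ext : List ℂ) (acc' : Opd m), ext.length = 2 * js.length ∧
        Stable (n + 2 * js.length) acc' ∧
        acc'.val v (regs ++ ext) = acc.val v regs + (js.map (fun j => v j * c j)).sum ∧
        (rowP c js n acc k).runFrom v regs =
          (k (n + 2 * js.length) acc').runFrom v (regs ++ ext) ∧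
        (rowP c js n acc k).opsFrom v regs =
          (k (n + 2 * js.length) acc').opsFrom v (regs ++ ext) + 2 * js.length := by
  induction js with
  | nil =>
    intro n regs acc k hl hs
    exact ⟨[], acc, rfl, hs, by simp, by simp [rowP], by simp [rowP]⟩
  | cons j js ih =>
    intro n regs acc k hl hs
    have hl2 : (regs ++ [v j * c j] ++ [acc.val v regs + v j * c j]).length = n + 2 := by
      simp [hl]
    obtain ⟨ext, acc', h1, h2, h3, h4, h5⟩ := ih (n + 2)
      (regs ++ [v j * c j] ++ [acc.val v regs + v j * c j]) (.reg (n + 1)) k hl2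
      (by show n + 1 < n + 2; omega)
    have hacc : acc.val v (regs ++ [v j * c j]) = acc.val v regs := hs.val v regs _ hl
    have hreg : (Opd.reg n : Opd m).val v (regs ++ [v j * c j]) = v j * c j := by
      simp only [Opd.val]
      rw [List.getD_append_right _ _ _ _ (by omega), hl]
      simp
    have hstep : (rowP c (j :: js) n acc k).runFrom v regs =
        (rowP c js (n + 2) (.reg (n + 1)) k).runFrom v
          (regs ++ [v j * c j] ++ [acc.val v regs + v j * c j]) := by
      simp only [rowP, Prog.runFrom, Op.eval]
      have e1 : (Opd.inp j : Opd m).val v regs = v j := rfl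
      have e2 : (Opd.const (c j) : Opd m).val v regs = c j := rfl
      rw [e1, e2, hacc, hreg]
    have hstep' : (rowP c (j :: js) n acc k).opsFrom v regs =
        (rowP c js (n + 2) (.reg (n + 1)) k).opsFrom v
          (regs ++ [v j * c j] ++ [acc.val v regs + v j * c j]) + 2 := by
      simp only [rowP, Prog.opsFrom, Op.eval]
      have e1 : (Opd.inp j : Opd m).val v regs = v j := rfl
      have e2 : (Opd.const (c j) : Opd m).val v regs = c j := rfl
      rw [e1, e2, hacc, hreg]
    have hlen : n + 2 + 2 * js.length = n + 2 * (j :: js).length := by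
      simp only [List.length_cons]; ring
    rw [hlen] at h2 h4 h5
    refine ⟨[v j * c j] ++ [acc.val v regs + v j * c j] ++ ext, acc', ?_, h2, ?_, ?_, ?_⟩
    · simp [h1]; ring
    · have e3 : regs ++ ([v j * c j] ++ [acc.val v regs + v j * c j] ++ ext) =
          regs ++ [v j * c j] ++ [acc.val v regs + v j * c j] ++ ext := by simp
      rw [e3, h3]
      have e4 : (Opd.reg (n + 1) : Opd m).val v
          (regs ++ [v j * c j] ++ [acc.val v regs + v j * c j]) = acc.val v regs + v j * c j := by
        simp only [Opd.val]
        rw [List.getD_append_right _ _ _ _ (by simp [hl])]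
        simp [hl]
      rw [e4, List.map_cons, List.sum_cons]
      ring
    · rw [hstep, h4]
      simp
    · rw [hstep', h5]
      simp only [List.length_cons, List.append_assoc]
      ring

lemma allP_run {m : ℕ} (c : Fin m → Fin m → ℂ) (v : Fin m → ℂ) (is : List (Fin m)) :
    ∀ (n : ℕ) (regs : List ℂ) (out : Fin m → Opd m), regs.length = n → is.Nodup →
      (∀ i, Stable n (out i)) →
      ((allP c is n out).runFrom v regs = fun i =>
        if i ∈ is then ∑ j, v j * c i j else (out i).val v regs) ∧
      (allP c is n out).opsFrom v regs = 2 * m * is.length := by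
  induction is with
  | nil =>
    intro n regs out _ _ _
    constructor
    · funext i
      simp [allP, Prog.runFrom]
    · simp [allP, Prog.opsFrom]
  | cons i0 is ih =>
    intro n regs out hl hnd hst
    obtain ⟨ext, acc', h1, h2, h3, h4, h5⟩ := rowP_run (c i0) v (List.finRange m) n regs (.const 0)
      (fun n' acc => allP c is n' (Function.update out i0 acc)) hl trivial
    have hnd' := List.nodup_cons.1 hnd
    have hlen : (regs ++ ext).length = n + 2 * (List.finRange m).length := by
      rw [List.length_append, hl, h1]
    have hst' : ∀ i, Stable (n + 2 * (List.finRange m).length) (Function.update out i0 acc' i) := by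
      intro i
      by_cases hi : i = i0
      · rw [hi, Function.update_self]; exact h2
      · rw [Function.update_of_ne hi]; exact (hst i).mono (by omega)
    obtain ⟨h6, h7⟩ := ih _ (regs ++ ext) (Function.update out i0 acc') hlen hnd'.2 hst'
    have hsum : ((List.finRange m).map (fun j => v j * c i0 j)).sum = ∑ j, v j * c i0 j := by
      rw [← List.ofFn_eq_map, List.sum_ofFn]
    constructor
    · simp only [allP]
      rw [h4, h6]
      funext i
      by_cases hi : i = i0
      · rw [hi, if_neg hnd'.1, Function.update_self, h3, hsum, if_pos List.mem_cons_self]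
        simp [Opd.val]
      · rw [Function.update_of_ne hi]
        by_cases hi' : i ∈ is
        · rw [if_pos hi', if_pos (List.mem_cons_of_mem _ hi')]
        · rw [if_neg hi', if_neg (by
            rw [List.mem_cons]; push Not; exact ⟨hi, hi'⟩)]
          exact (hst i).val v regs ext hl
    · simp only [allP]
      rw [h5, h7, List.length_finRange, List.length_cons]
      ring

/-- the naive algorithm -/
def naive : Alg := fun m d R C =>
  allP (fun i j => (1 / (Real.sqrt d : ℂ)) *
    Complex.exp (-2 * Real.pi * Complex.I / d) ^ ((R i : ℕ) * (C j : ℕ)))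
    (List.finRange m) 0 (fun _ => .const 0)

lemma naive_spec {m d : ℕ} (R C : Fin m → Fin d) (v : Fin m → ℂ) :
    (naive m d R C).run v = fourierProd R C v ∧ (naive m d R C).ops v = 2 * m ^ 2 := by
  unfold naive Prog.run Prog.ops
  obtain ⟨h1, h2⟩ := allP_run (fun i j => (1 / (Real.sqrt d : ℂ)) *
    Complex.exp (-2 * Real.pi * Complex.I / d) ^ ((R i : ℕ) * (C j : ℕ))) v (List.finRange m) 0 []
    (fun _ => .const 0) rfl (List.nodup_finRange m) (fun _ => trivial)
  constructor
  · rw [h1]
    funext i
    rw [if_pos (List.mem_finRange i)]
    unfold fourierProd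
    rw [Finset.mul_sum]
    apply Finset.sum_congr rfl
    intro j _
    ring
  · rw [h2, List.length_finRange]
    ring

end

end Pool.Agent.H683R2.FS
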