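import Mathlib

set_option autoImplicit false

namespace Pool.Agent.H683R2.LO

open Finset

/-- search points -/
abbrev X (n : ℕ) := Fin n → Bool

/-- instances: target string and order of the positions -/
abbrev Om (n : ℕ) := (Fin n → Bool) × Equiv.Perm (Fin n)

/-- the LeadingOnes value -/
def lo {n : ℕ} (ω : Om n) (x : X n) : ℕ :=
  (Finset.univ.filter (fun i : Fin n => ∀ j : Fin n, j ≤ i → x (ω.2 j) = ω.1 (ω.2 j))).card

lemma lo_le {n : ℕ} (ω : Om n) (x : X n) : lo ω x ≤ n := by
  unfold lo
  exact (Finset.card_le_univ _).trans (by simp)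

lemma lt_lo_iff {n : ℕ} (ω : Om n) (x : X n) (i : Fin n) :
    (i : ℕ) < lo ω x ↔ ∀ j : Fin n, j ≤ i → x (ω.2 j) = ω.1 (ω.2 j) := by
  constructor
  · intro h
    by_contra hcon
    have hsub : (Finset.univ.filter
        (fun i : Fin n => ∀ j : Fin n, j ≤ i → x (ω.2 j) = ω.1 (ω.2 j))) ⊆ Finset.Iio i := by
      intro k hk
      simp only [mem_filter, mem_univ, true_and] at hk
      rw [Finset.mem_Iio]
      by_contra hki
      exact hcon (fun j hj => hk j (hj.trans (not_lt.mp hki)))
    have := Finset.card_le_card hsub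
    unfold lo at h
    rw [Fin.card_Iio] at this
    omega
  · intro h
    have hsub : Finset.Iic i ⊆ (Finset.univ.filter
        (fun i : Fin n => ∀ j : Fin n, j ≤ i → x (ω.2 j) = ω.1 (ω.2 j))) := by
      intro k hk
      rw [Finset.mem_Iic] at hk
      simp only [mem_filter, mem_univ, true_and]
      exact fun j hj => h j (hj.trans hk)
    have := Finset.card_le_card hsub
    unfold lo
    rw [Fin.card_Iic] at this
    omega

lemma le_lo_iff {n : ℕ} (ω : Om n) (x : X n) (v : ℕ) (hv : v ≤ n) :
    v ≤ lo ω x ↔ ∀ j : Fin n, (j : ℕ) < v → x (ω.2 j) = ω.1 (ω.2 j) := by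
  constructor
  · intro h j hj
    exact (lt_lo_iff ω x j).1 (lt_of_lt_of_le hj h) j le_rfl
  · intro h
    rcases Nat.eq_zero_or_pos v with h0 | h0
    · omega
    · have h1 : v - 1 < n := by omega
      have := (lt_lo_iff ω x ⟨v - 1, h1⟩).2 (fun j hj => h j (by
        have : (j : ℕ) ≤ v - 1 := hj
        omega))
      simp only at this
      omega

lemma lo_eq_iff {n : ℕ} (ω : Om n) (x : X n) (v : Fin n) :
    lo ω x = v ↔ (∀ j : Fin n, (j : ℕ) < v → x (ω.2 j) = ω.1 (ω.2 j)) ∧
      x (ω.2 v) ≠ ω.1 (ω.2 v) := by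
  have h1 := le_lo_iff ω x v (v.2.le)
  have h2 := le_lo_iff ω x (v + 1) (v.2)
  constructor
  · intro h
    refine ⟨h1.1 h.ge, fun hcon => ?_⟩
    have : (v : ℕ) + 1 ≤ lo ω x := by
      rw [h2]
      intro j hj
      rcases Nat.lt_succ_iff_lt_or_eq.1 hj with h3 | h3
      · exact h1.1 h.ge j h3
      · have : j = v := Fin.ext h3
        rw [this]; exact hcon
    omega
  · rintro ⟨h3, h4⟩
    have h5 := h1.2 h3
    have h6 : ¬ ((v : ℕ) + 1 ≤ lo ω x) := by
      rw [h2]
      intro h
      exact h4 (h v (Nat.lt_succ_self _))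
    omega

lemma lo_eq_n_iff {n : ℕ} (ω : Om n) (x : X n) : lo ω x = n ↔ x = ω.1 := by
  have h := le_lo_iff ω x n le_rfl
  have h0 := lo_le ω x
  constructor
  · intro h1
    funext i
    have := h.1 h1.ge (ω.2.symm i) (Fin.is_lt _)
    simpa using this
  · intro h1
    apply le_antisymm h0
    rw [h]
    intro j _
    rw [h1]

/-! ### counting permutations -/

lemma card_perm_fix {α : Type} [Fintype α] [DecidableEq α] (D : Finset α) :
    (Finset.univ.filter (fun τ : Equiv.Perm α => ∀ a ∈ D, τ a = a)).card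
      = (Fintype.card α - D.card).factorial := by
  classical
  have e := Equiv.Perm.subtypeEquivSubtypePerm (fun a : α => a ∉ D)
  have h1 : Fintype.card (Equiv.Perm {a : α // a ∉ D}) = (Fintype.card α - D.card).factorial := by
    rw [Fintype.card_perm, Fintype.card_subtype_compl, Fintype.card_coe]
  rw [← h1, Fintype.card_congr e, Fintype.card_subtype]
  congr 1
  ext τ
  simp

lemma card_perm_le {α : Type} [Fintype α] [DecidableEq α] (D : Finset α) (S : α → Finset α) :
    (Finset.univ.filter (fun τ : Equiv.Perm α => ∀ a ∈ D, τ a ∈ S a)).card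
      ≤ (∏ a ∈ D, (S a).card) * (Fintype.card α - D.card).factorial := by
  classical
  set A := Finset.univ.filter (fun τ : Equiv.Perm α => ∀ a ∈ D, τ a ∈ S a) with hA
  let f : Equiv.Perm α → (D → α) := fun τ a => τ a
  have h1 : A.card ≤ (Fintype.card α - D.card).factorial * (A.image f).card := by
    apply Finset.card_le_mul_card_image
    intro b hb
    rw [Finset.mem_image] at hb
    obtain ⟨τ0, hτ0, rfl⟩ := hb
    rw [← card_perm_fix D]
    apply Finset.card_le_card_of_injOn (fun τ => τ0⁻¹ * τ)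
    · intro τ hτ
      simp only [coe_filter, Set.mem_ofPred_eq, mem_univ, true_and] at hτ ⊢
      intro a ha
      have := congrFun hτ.2 ⟨a, ha⟩
      simp only [f] at this
      rw [Equiv.Perm.mul_apply, this]
      simp
    · intro τ _ τ' _ h
      simpa using h
  have h2 : A.image f ⊆ Fintype.piFinset (fun a : D => S a) := by
    intro g hg
    rw [Finset.mem_image] at hg
    obtain ⟨τ, hτ, rfl⟩ := hg
    rw [Fintype.mem_piFinset]
    intro a
    rw [hA, Finset.mem_filter] at hτ
    exact hτ.2 a a.2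
  have h3 := Finset.card_le_card h2
  rw [Fintype.card_piFinset] at h3
  have h4 : (∏ a : D, (S a).card) = ∏ a ∈ D, (S a).card := by
    rw [Finset.prod_coe_sort D (fun a => (S a).card)]
  rw [h4] at h3
  calc A.card ≤ (Fintype.card α - D.card).factorial * (A.image f).card := h1
    _ ≤ (Fintype.card α - D.card).factorial * ∏ a ∈ D, (S a).card := Nat.mul_le_mul_left _ h3
    _ = _ := Nat.mul_comm _ _

end Pool.Agent.H683R2.LO
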