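import Mathlib
import Pool.Agent.H683R2.LoA

set_option autoImplicit false

namespace Pool.Agent.H683R2.LO

open Finset

variable {n : ℕ}

/-- truncated value -/
def g (ℓ : ℕ) (ω : Om n) (y : X n) : ℕ := min (lo ω y) ℓ

/-- agreement in slot `i` -/
def ag (ω : Om n) (y : X n) (i : Fin n) : Prop := y (ω.2 i) = ω.1 (ω.2 i)

lemma g_le (ℓ : ℕ) (ω : Om n) (y : X n) : g ℓ ω y ≤ ℓ := min_le_right _ _

lemma ag_of_g {ℓ : ℕ} {ω : Om n} {y : X n} {w : ℕ} (h : g ℓ ω y = w) (i : Fin n)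
    (hi : (i : ℕ) < w) : ag ω y i := by
  have : w ≤ lo ω y := by rw [← h]; exact min_le_left _ _
  exact (lt_lo_iff ω y i).1 (lt_of_lt_of_le hi this) i le_rfl

lemma not_ag_of_g {ℓ : ℕ} {ω : Om n} {y : X n} {i : Fin n} (h : g ℓ ω y = i)
    (hi : (i : ℕ) < ℓ) : ¬ ag ω y i := by
  have : lo ω y = i := by unfold g at h; omega
  exact ((lo_eq_iff ω y i).1 this).2

lemma g_eq_of {ℓ : ℕ} (hℓ : ℓ ≤ n) {ω : Om n} {y : X n} {w : ℕ} (hw : w ≤ ℓ)
    (h1 : ∀ i : Fin n, (i : ℕ) < w → ag ω y i)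
    (h2 : ∀ i : Fin n, (i : ℕ) = w → w < ℓ → ¬ ag ω y i) : g ℓ ω y = w := by
  have h3 : w ≤ lo ω y := (le_lo_iff ω y w (hw.trans hℓ)).2 h1
  unfold g
  rcases Nat.lt_or_ge w ℓ with h4 | h4
  · have h5 : lo ω y = w := by
      have := (lo_eq_iff ω y ⟨w, by omega⟩).2 ⟨h1, h2 ⟨w, by omega⟩ rfl h4⟩
      simpa using this
    omega
  · omega

structure Hist (n : ℕ) where
  qs : List (X n × ℕ)
  R : Finset (Fin n)
  e : Fin n → Fin n

def Hist.S (ℓ : ℕ) (H : Hist n) : Finset (Om n) :=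
  Finset.univ.filter (fun ω : Om n => (∀ p ∈ H.qs, g ℓ ω p.1 = p.2) ∧ ∀ i ∈ H.R, ω.2 i = H.e i)

structure Hist.Inv (ℓ : ℕ) (H : Hist n) : Prop where
  vR : ∀ p ∈ H.qs, ∀ i : Fin n, p.2 = i → p.2 < ℓ → i ∈ H.R
  Rv : ∀ i ∈ H.R, (i : ℕ) < ℓ ∧ ∃ y, (y, (i : ℕ)) ∈ H.qs

/-- number of consistent instances with value at least `v` on `y` -/
def Hist.h (ℓ : ℕ) (H : Hist n) (y : X n) (v : ℕ) : ℕ :=
  ((H.S ℓ).filter (fun ω => v ≤ lo ω y)).card

def Hist.N (ℓ : ℕ) (H : Hist n) (y : X n) (v : ℕ) : ℕ :=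
  ((H.S ℓ).filter (fun ω => lo ω y = v)).card

def Hist.Ne (ℓ : ℕ) (H : Hist n) (y : X n) (v : Fin n) (e0 : Fin n) : ℕ :=
  ((H.S ℓ).filter (fun ω => lo ω y = v ∧ ω.2 v = e0)).card

lemma Hist.h_zero (ℓ : ℕ) (H : Hist n) (y : X n) : H.h ℓ y 0 = (H.S ℓ).card := by
  unfold Hist.h
  simp

lemma Hist.h_eq (ℓ : ℕ) (H : Hist n) (y : X n) (v : ℕ) :
    H.h ℓ y v = H.N ℓ y v + H.h ℓ y (v + 1) := by
  unfold Hist.h Hist.N
  rw [← Finset.card_union_of_disjoint]
  · congr 1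
    ext ω
    simp only [mem_filter, mem_union]
    constructor
    · rintro ⟨h1, h2⟩
      rcases Nat.eq_or_lt_of_le h2 with h3 | h3
      · exact Or.inl ⟨h1, h3.symm⟩
      · exact Or.inr ⟨h1, h3⟩
    · rintro (⟨h1, h2⟩ | ⟨h1, h2⟩)
      · exact ⟨h1, h2.ge⟩
      · exact ⟨h1, by omega⟩
  · rw [Finset.disjoint_filter]
    intro ω _ h1 h2
    omega

lemma Hist.N_eq_sum (ℓ : ℕ) (H : Hist n) (y : X n) (v : Fin n) :
    H.N ℓ y v = ∑ e0 : Fin n, H.Ne ℓ y v e0 := by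
  unfold Hist.N Hist.Ne
  rw [Finset.card_eq_sum_card_fiberwise (f := fun ω => ω.2 v) (t := Finset.univ)
    (fun _ _ => Finset.mem_coe.2 (Finset.mem_univ _))]
  apply Finset.sum_congr rfl
  intro e0 _
  rw [Finset.filter_filter]

lemma Hist.A1 {ℓ : ℕ} {H : Hist n} (hI : H.Inv ℓ) (y : X n) (v : Fin n) (hv : v ∈ H.R)
    (hN : 0 < H.N ℓ y v) : H.h ℓ y v = H.N ℓ y v := by
  obtain ⟨hvℓ, y', hy'⟩ := hI.Rv v hv
  unfold Hist.N at hN
  obtain ⟨ω0, hω0⟩ := Finset.card_pos.1 hN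
  rw [mem_filter] at hω0
  have hS0 : ω0 ∈ H.S ℓ := hω0.1
  rw [Hist.S, mem_filter] at hS0
  have h1 := not_ag_of_g (hS0.2.1 _ hy') hvℓ
  have h2 := ((lo_eq_iff ω0 y v).1 hω0.2).2
  unfold ag at h1
  rw [hS0.2.2 v hv] at h1 h2
  unfold Hist.h Hist.N
  congr 1
  ext ω
  simp only [mem_filter]
  constructor
  · rintro ⟨h3, h4⟩
    refine ⟨h3, ?_⟩
    rw [lo_eq_iff]
    refine ⟨(le_lo_iff ω y v v.2.le).1 h4, ?_⟩
    rw [Hist.S, mem_filter] at h3
    have h5 := not_ag_of_g (h3.2.1 _ hy') hvℓ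
    unfold ag at h5
    rw [h3.2.2 v hv] at h5 ⊢
    cases hy : y (H.e v) <;> cases hz : ω.1 (H.e v) <;> cases hy2 : y' (H.e v) <;>
      cases hz0 : ω0.1 (H.e v) <;> simp_all
  · rintro ⟨h3, h4⟩
    exact ⟨h3, h4.ge⟩

lemma Hist.card_unrev {ℓ : ℕ} {H : Hist n} {ω : Om n} (hω : ω ∈ H.S ℓ) :
    (Finset.univ \ H.R.image H.e).card = n - H.R.card := by
  rw [Hist.S, mem_filter] at hω
  rw [Finset.card_sdiff_of_subset (Finset.subset_univ _), Finset.card_univ, Fintype.card_fin]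
  congr 1
  apply Finset.card_image_of_injOn
  intro i hi j hj hij
  have h1 := hω.2.2 i hi
  have h2 := hω.2.2 j hj
  rw [← h1, ← h2] at hij
  exact ω.2.injective hij

lemma Hist.mem_unrev {ℓ : ℕ} {H : Hist n} {ω : Om n} (hω : ω ∈ H.S ℓ) (v : Fin n)
    (hv : v ∉ H.R) : ω.2 v ∈ Finset.univ \ H.R.image H.e := by
  rw [Hist.S, mem_filter] at hω
  rw [mem_sdiff]
  refine ⟨mem_univ _, ?_⟩
  rw [mem_image]
  rintro ⟨i, hi, hie⟩
  rw [← hω.2.2 i hi] at hie
  exact hv (ω.2.injective hie ▸ hi)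

lemma Hist.A2 {ℓ : ℕ} (hℓ : ℓ ≤ n) {H : Hist n} (hI : H.Inv ℓ) (y : X n) (v : Fin n)
    (hv : v ∉ H.R) (_hvℓ : (v : ℕ) < ℓ) (q : X n × ℕ) (hq : q ∈ H.qs) (hqv : (v : ℕ) < q.2)
    (e0 : Fin n) (hN : 0 < H.Ne ℓ y v e0) :
    H.h ℓ y v ≤ H.Ne ℓ y v e0 * (2 * (n - H.R.card)) := by
  classical
  unfold Hist.Ne at hN
  obtain ⟨ω0, hω0⟩ := Finset.card_pos.1 hN
  rw [mem_filter] at hω0
  obtain ⟨hω0S, hω0y, hω0v⟩ := hω0
  have hS0 := hω0S
  rw [Hist.S, mem_filter] at hS0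
  have hu : (Finset.univ \ H.R.image H.e).card = n - H.R.card := H.card_unrev hω0S
  have hqe : q.1 e0 = ω0.1 e0 := by
    have := ag_of_g (hS0.2.1 q hq) v hqv
    unfold ag at this
    rwa [hω0v] at this
  have hye : y e0 ≠ ω0.1 e0 := by
    have := ((lo_eq_iff ω0 y v).1 hω0y).2
    rwa [hω0v] at this
  have hye' : q.1 e0 ≠ y e0 := by rw [hqe]; exact hye.symm
  let F : Om n → (Om n) × (Fin n × Bool) := fun ω =>
    ((Function.update ω.1 e0 (q.1 e0), Equiv.swap e0 (ω.2 v) * ω.2), (ω.2 v, ω.1 e0))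
  have hcard : ((((H.S ℓ).filter (fun ω => lo ω y = v ∧ ω.2 v = e0)) ×ˢ
      ((Finset.univ \ H.R.image H.e) ×ˢ (Finset.univ : Finset Bool)))).card
      = H.Ne ℓ y v e0 * (2 * (n - H.R.card)) := by
    rw [Finset.card_product, Finset.card_product, hu]
    simp only [Finset.card_univ, Fintype.card_bool]
    unfold Hist.Ne
    ring
  rw [← hcard]
  unfold Hist.h
  apply Finset.card_le_card_of_injOn F
  · intro ω hω
    rw [Finset.mem_coe, mem_filter] at hω
    obtain ⟨hωS, hωy⟩ := hω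
    have hS := hωS
    rw [Hist.S, mem_filter] at hS
    have hwag : ∀ i : Fin n, (i : ℕ) < v → ag ω y i := (le_lo_iff ω y v v.2.le).1 hωy
    -- the slot of e0 in ω
    obtain ⟨j, hj⟩ := ω.2.surjective e0
    have hjv : (v : ℕ) ≤ j := by
      by_contra hcon
      push Not at hcon
      have h1 := hwag j hcon
      have h2 := ag_of_g (hS.2.1 q hq) j (hcon.trans hqv)
      unfold ag at h1 h2
      rw [hj] at h1 h2
      exact hye' (h2.trans h1.symm)
    have hjR : j ∉ H.R := by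
      intro hjR
      have h1 := hS.2.2 j hjR
      have h2 := hS0.2.2 j hjR
      rw [hj] at h1
      rw [← h1, ← hω0v] at h2
      exact hv (ω0.2.injective h2 ▸ hjR)
    -- values of the new permutation
    have hσv : (F ω).1.2 v = e0 := by
      simp only [F, Equiv.Perm.mul_apply, Equiv.swap_apply_right]
    have hσj : (F ω).1.2 j = ω.2 v := by
      simp only [F, Equiv.Perm.mul_apply, hj, Equiv.swap_apply_left]
    have hσo : ∀ i : Fin n, i ≠ v → i ≠ j → (F ω).1.2 i = ω.2 i := by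
      intro i h1 h2
      simp only [F, Equiv.Perm.mul_apply]
      apply Equiv.swap_apply_of_ne_of_ne
      · rw [← hj]; exact fun h => h2 (ω.2.injective h)
      · exact fun h => h1 (ω.2.injective h)
    have hze : (F ω).1.1 e0 = q.1 e0 := by simp [F]
    have hzo : ∀ a : Fin n, a ≠ e0 → (F ω).1.1 a = ω.1 a := by
      intro a ha
      simp only [F]
      rw [Function.update_of_ne ha]
    -- agreement in other slots is unchanged
    have hago : ∀ (x : X n) (i : Fin n), i ≠ v → i ≠ j → (ag (F ω).1 x i ↔ ag ω x i) := by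
      intro x i h1 h2
      unfold ag
      rw [hσo i h1 h2, hzo]
      rw [← hj]; exact fun h => h2 (ω.2.injective h)
    have hagj : ∀ (x : X n), j ≠ v → (ag (F ω).1 x j ↔ ag ω x v) := by
      intro x h1
      unfold ag
      rw [hσj, hzo]
      rw [← hj]; exact fun h => h1 (ω.2.injective h.symm)
    have hS' : (F ω).1 ∈ H.S ℓ := by
      rw [Hist.S, mem_filter]
      refine ⟨mem_univ _, ?_, ?_⟩
      · intro p hp
        have hp0 := hS0.2.1 p hp
        have hp1 := hS.2.1 p hp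
        have hple : p.2 ≤ ℓ := by rw [← hp1]; exact g_le _ _ _
        apply g_eq_of hℓ hple
        · intro i hi
          by_cases h1 : i = v
          · rw [h1]
            unfold ag
            rw [hσv, hze, hqe]
            have := ag_of_g hp0 v (by rw [← h1]; exact hi)
            unfold ag at this
            rwa [hω0v] at this
          · by_cases h2 : i = j
            · rw [h2] at h1 hi ⊢
              rw [hagj p.1 h1]
              exact ag_of_g hp1 v (lt_of_le_of_lt hjv hi)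
            · rw [hago p.1 i h1 h2]
              exact ag_of_g hp1 i hi
        · intro i hi hlt
          have hiR : i ∈ H.R := hI.vR p hp i hi.symm hlt
          have h1 : i ≠ v := fun h => hv (h ▸ hiR)
          have h2 : i ≠ j := fun h => hjR (h ▸ hiR)
          rw [hago p.1 i h1 h2]
          exact not_ag_of_g (hp1.trans hi.symm) (by omega)
      · intro i hiR
        have h1 : i ≠ v := fun h => hv (h ▸ hiR)
        have h2 : i ≠ j := fun h => hjR (h ▸ hiR)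
        rw [hσo i h1 h2]
        exact hS.2.2 i hiR
    rw [Finset.mem_coe, mem_product, mem_product, mem_filter]
    refine ⟨⟨hS', ?_, hσv⟩, ?_, mem_univ _⟩
    · rw [lo_eq_iff]
      constructor
      · intro i hi
        have h1 : i ≠ v := fun h => by rw [h] at hi; exact lt_irrefl _ hi
        have h2 : i ≠ j := fun h => by rw [h] at hi; omega
        exact (hago y i h1 h2).2 (hwag i hi)
      · rw [hσv, hze]
        exact hye'.symm
    · exact H.mem_unrev hωS v hv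
  · intro ω _ ω' _ h
    simp only [F, Prod.mk.injEq] at h
    obtain ⟨⟨h1, h2⟩, h3, h4⟩ := h
    rw [h3] at h2
    have h5 : ω.2 = ω'.2 := mul_left_cancel h2
    have h6 : ω.1 = ω'.1 := by
      funext a
      by_cases ha : a = e0
      · rw [ha]; exact h4
      · have := congrFun h1 a
        rwa [Function.update_of_ne ha, Function.update_of_ne ha] at this
    exact Prod.ext h6 h5

/-- flip the target bit in slot `v` -/
def flipAt (v : Fin n) (ω : Om n) : Om n :=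
  (Function.update ω.1 (ω.2 v) (!(ω.1 (ω.2 v))), ω.2)

lemma flipAt_flipAt (v : Fin n) (ω : Om n) : flipAt v (flipAt v ω) = ω := by
  unfold flipAt
  apply Prod.ext
  · simp
  · rfl

lemma ag_flipAt_ne (v : Fin n) (ω : Om n) (y : X n) (i : Fin n) (h : i ≠ v) :
    ag (flipAt v ω) y i ↔ ag ω y i := by
  unfold ag flipAt
  simp only
  rw [Function.update_of_ne]
  exact fun h' => h (ω.2.injective h')

lemma ag_flipAt_self (v : Fin n) (ω : Om n) (y : X n) :
    ag (flipAt v ω) y v ↔ ¬ ag ω y v := by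
  unfold ag flipAt
  simp only [Function.update_self]
  cases y (ω.2 v) <;> cases ω.1 (ω.2 v) <;> simp

lemma Hist.A3 {ℓ : ℕ} (hℓ : ℓ ≤ n) {H : Hist n} (hI : H.Inv ℓ) (y : X n) (v : Fin n)
    (hv : v ∉ H.R) (hvℓ : (v : ℕ) < ℓ) (hq : ∀ p ∈ H.qs, p.2 ≤ (v : ℕ)) :
    H.h ℓ y (v + 1) = H.N ℓ y v := by
  have hlt : ∀ p ∈ H.qs, p.2 < (v : ℕ) := by
    intro p hp
    rcases Nat.lt_or_ge p.2 v with h | h
    · exact h
    · exact absurd (hI.vR p hp v (le_antisymm (hq p hp) h)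
        (lt_of_le_of_lt (hq p hp) hvℓ)) hv
  have hS : ∀ ω ∈ H.S ℓ, flipAt v ω ∈ H.S ℓ := by
    intro ω hω
    rw [Hist.S, mem_filter] at hω ⊢
    refine ⟨mem_univ _, ?_, hω.2.2⟩
    intro p hp
    have hp1 := hω.2.1 p hp
    have hple : p.2 ≤ ℓ := by rw [← hp1]; exact g_le _ _ _
    have hpv := hlt p hp
    apply g_eq_of hℓ hple
    · intro i hi
      rw [ag_flipAt_ne]
      · exact ag_of_g hp1 i hi
      · intro h; rw [h] at hi; omega
    · intro i hi hlt'
      rw [ag_flipAt_ne]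
      · exact not_ag_of_g (hp1.trans hi.symm) (by omega)
      · intro h; rw [h] at hi; omega
  have key1 : ∀ ω, (v : ℕ) + 1 ≤ lo ω y → lo (flipAt v ω) y = v := by
    intro ω h
    rw [le_lo_iff ω y _ v.2] at h
    rw [lo_eq_iff]
    constructor
    · intro j hj
      exact (ag_flipAt_ne v ω y j (fun h' => by rw [h'] at hj; omega)).2 (h j (by omega))
    · exact fun h' => (ag_flipAt_self v ω y).1 h' (h v (Nat.lt_succ_self _))
  have key2 : ∀ ω, lo ω y = v → (v : ℕ) + 1 ≤ lo (flipAt v ω) y := by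
    intro ω h
    rw [lo_eq_iff] at h
    rw [le_lo_iff _ y _ v.2]
    intro j hj
    by_cases h' : j = v
    · rw [h']
      exact (ag_flipAt_self v ω y).2 h.2
    · exact (ag_flipAt_ne v ω y j h').2 (h.1 j (by
        have : (j : ℕ) ≠ v := fun h'' => h' (Fin.ext h'')
        omega))
  unfold Hist.h Hist.N
  apply Finset.card_nbij' (flipAt v) (flipAt v)
  · intro ω hω
    rw [Finset.mem_coe, mem_filter] at hω ⊢
    exact ⟨hS ω hω.1, key1 ω hω.2⟩
  · intro ω hω
    rw [Finset.mem_coe, mem_filter] at hω ⊢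
    exact ⟨hS ω hω.1, key2 ω hω.2⟩
  · intro ω _
    exact flipAt_flipAt v ω
  · intro ω _
    exact flipAt_flipAt v ω

lemma Hist.A4 {ℓ : ℕ} {H : Hist n} (y : X n) (v : Fin n) (hv : v ∉ H.R) :
    (Finset.univ.filter (fun e0 : Fin n => 0 < H.Ne ℓ y v e0)).card ≤ n - H.R.card := by
  rcases Finset.eq_empty_or_nonempty (Finset.univ.filter (fun e0 : Fin n => 0 < H.Ne ℓ y v e0))
    with h | ⟨e1, he1⟩
  · rw [h]; simp
  · rw [mem_filter] at he1
    unfold Hist.Ne at he1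
    obtain ⟨ω, hω⟩ := Finset.card_pos.1 he1.2
    rw [mem_filter] at hω
    rw [← H.card_unrev hω.1]
    apply Finset.card_le_card
    intro e0 he0
    rw [mem_filter] at he0
    unfold Hist.Ne at he0
    obtain ⟨ω', hω'⟩ := Finset.card_pos.1 he0.2
    rw [mem_filter] at hω'
    have := H.mem_unrev hω'.1 v hv
    rwa [hω'.2.2] at this

end Pool.Agent.H683R2.LO
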