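import Mathlib
import Pool.Agent.H683R2.LoB

set_option autoImplicit false

namespace Pool.Agent.H683R2.LO

open Finset

variable {n : ℕ}

/-! ### real inequalities -/

lemma tangent {p a b : ℝ} (hp0 : 0 < p) (hp1 : p ≤ 1) (hb : 0 ≤ b) (hab : b ≤ a) :
    (a - b) * a ^ (p - 1) ≤ (a ^ p - b ^ p) / p := by
  rcases eq_or_lt_of_le (hb.trans hab) with h0 | h0
  · have hb0 : b = 0 := le_antisymm (h0 ▸ hab) hb
    rw [← h0, hb0]
    simp
  · have h1 := rpow_one_add_le_one_add_mul_self (s := b / a - 1) (p := p)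
      (by have : 0 ≤ b / a := by positivity
          linarith) hp0.le hp1
    have h2 : 1 + (b / a - 1) = b / a := by ring
    rw [h2, Real.div_rpow hb h0.le] at h1
    have h3 : 0 < a ^ p := Real.rpow_pos_of_pos h0 p
    rw [div_le_iff₀ h3] at h1
    have h4 : a ^ (p - 1) = a ^ p / a := Real.rpow_sub_one h0.ne' p
    rw [le_div_iff₀ hp0, h4]
    have h5 : (a - b) * (a ^ p / a) * p = a ^ p - (1 + p * (b / a - 1)) * a ^ p := by
      field_simp
      ring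
    rw [h5]
    linarith

lemma jensen {ι : Type} (s : Finset ι) (x : ι → ℝ) (hx : ∀ i ∈ s, 0 ≤ x i) {p : ℝ}
    (hp0 : 0 < p) (hp1 : p ≤ 1) :
    ∑ i ∈ s, (x i) ^ p ≤ (s.card : ℝ) ^ (1 - p) * (∑ i ∈ s, x i) ^ p := by
  have h1 := Real.rpow_sum_le_const_mul_sum_rpow s (fun i => (x i) ^ p) (p := 1 / p)
    (by rw [le_div_iff₀ hp0]; linarith)
  have h2 : ∑ i ∈ s, |(x i) ^ p| ^ (1 / p) = ∑ i ∈ s, x i := by
    apply Finset.sum_congr rfl
    intro i hi
    rw [abs_of_nonneg (Real.rpow_nonneg (hx i hi) p), ← Real.rpow_mul (hx i hi)]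
    rw [mul_one_div, div_self hp0.ne', Real.rpow_one]
  have h3 : ∑ i ∈ s, |(x i) ^ p| = ∑ i ∈ s, (x i) ^ p := by
    apply Finset.sum_congr rfl
    intro i hi
    rw [abs_of_nonneg (Real.rpow_nonneg (hx i hi) p)]
  rw [h2, h3] at h1
  have h4 : 0 ≤ ∑ i ∈ s, (x i) ^ p := Finset.sum_nonneg (fun i hi => Real.rpow_nonneg (hx i hi) p)
  have h5 : 0 ≤ ∑ i ∈ s, x i := Finset.sum_nonneg hx
  have h6 := Real.rpow_le_rpow (Real.rpow_nonneg h4 _) h1 hp0.le
  rw [← Real.rpow_mul h4, one_div_mul_cancel hp0.ne', Real.rpow_one,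
    Real.mul_rpow (Real.rpow_nonneg (Nat.cast_nonneg _) _) h5,
    ← Real.rpow_mul (Nat.cast_nonneg _)] at h6
  have h7 : (1 / p - 1) * p = 1 - p := by field_simp
  rw [h7] at h6
  exact h6

/-! ### potential -/

noncomputable def M (n r : ℕ) : ℝ := 2 ^ (n - r) * ((n - r).factorial : ℝ)

lemma M_pos (n r : ℕ) : 0 < M n r := by unfold M; positivity

lemma M_succ (n r : ℕ) (h : r < n) : M n r = 2 * ((n - r : ℕ) : ℝ) * M n (r + 1) := by
  unfold M
  obtain ⟨m, hm⟩ : ∃ m, n - r = m + 1 := ⟨n - r - 1, by omega⟩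
  have h2 : n - (r + 1) = m := by omega
  rw [h2, hm, Nat.factorial_succ, pow_succ]
  push_cast
  ring

noncomputable def Hist.pot (ℓ : ℕ) (p : ℝ) (H : Hist n) : ℝ :=
  ((H.S ℓ).card : ℝ) ^ p * (M n H.R.card) ^ (1 - p)

lemma Hist.pot_nonneg (ℓ : ℕ) (p : ℝ) (H : Hist n) : 0 ≤ H.pot ℓ p := by
  unfold Hist.pot
  exact mul_nonneg (Real.rpow_nonneg (Nat.cast_nonneg _) _) (Real.rpow_nonneg (M_pos _ _).le _)

/-- the new history when the slot is already revealed or the value is `ℓ` -/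
def Hist.ext0 (H : Hist n) (y : X n) (v : ℕ) : Hist n := ⟨(y, v) :: H.qs, H.R, H.e⟩

/-- the new history with a new revealed slot -/
def Hist.ext1 (H : Hist n) (y : X n) (v : Fin n) (e0 : Fin n) : Hist n :=
  ⟨(y, (v : ℕ)) :: H.qs, insert v H.R, Function.update H.e v e0⟩

lemma g_eq_iff_of_lt {ℓ : ℕ} (ω : Om n) (y : X n) (v : ℕ) (h : v < ℓ) :
    g ℓ ω y = v ↔ lo ω y = v := by
  unfold g; omega

lemma g_eq_top_iff {ℓ : ℕ} (ω : Om n) (y : X n) : g ℓ ω y = ℓ ↔ ℓ ≤ lo ω y := by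
  unfold g; omega

lemma Hist.S_ext0_lt {ℓ : ℕ} (H : Hist n) (y : X n) (v : ℕ) (h : v < ℓ) :
    (H.ext0 y v).S ℓ = (H.S ℓ).filter (fun ω => lo ω y = v) := by
  unfold Hist.S Hist.ext0
  ext ω
  simp only [mem_filter, mem_univ, true_and, List.mem_cons, forall_eq_or_imp,
    g_eq_iff_of_lt ω y v h]
  tauto

lemma Hist.S_ext0_top {ℓ : ℕ} (H : Hist n) (y : X n) :
    (H.ext0 y ℓ).S ℓ = (H.S ℓ).filter (fun ω => ℓ ≤ lo ω y) := by
  unfold Hist.S Hist.ext0
  ext ω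
  simp only [mem_filter, mem_univ, true_and, List.mem_cons, forall_eq_or_imp,
    g_eq_top_iff ω y]
  tauto

lemma Hist.S_ext1 {ℓ : ℕ} (H : Hist n) (y : X n) (v : Fin n) (h : (v : ℕ) < ℓ) (hv : v ∉ H.R)
    (e0 : Fin n) :
    (H.ext1 y v e0).S ℓ = (H.S ℓ).filter (fun ω => lo ω y = v ∧ ω.2 v = e0) := by
  unfold Hist.S Hist.ext1
  ext ω
  simp only [mem_filter, mem_univ, true_and, List.mem_cons, forall_eq_or_imp,
    g_eq_iff_of_lt ω y v h, Finset.mem_insert, Function.update_self]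
  have h1 : (∀ i ∈ H.R, ω.2 i = Function.update H.e v e0 i) ↔ ∀ i ∈ H.R, ω.2 i = H.e i := by
    apply forall₂_congr
    intro i hi
    rw [Function.update_of_ne]
    exact fun h => hv (h ▸ hi)
  rw [h1]
  tauto

lemma Hist.inv_ext0 {ℓ : ℕ} {H : Hist n} (hI : H.Inv ℓ) (y : X n) (v : Fin n) (hv : v ∈ H.R) :
    (H.ext0 y v).Inv ℓ := by
  constructor
  · intro p hp i h1 h2
    simp only [Hist.ext0, List.mem_cons] at hp ⊢
    rcases hp with rfl | hp
    · have : v = i := Fin.ext h1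
      rw [← this]; exact hv
    · exact hI.vR p hp i h1 h2
  · intro i hi
    simp only [Hist.ext0] at hi
    obtain ⟨h1, y', h2⟩ := hI.Rv i hi
    exact ⟨h1, y', by simp only [Hist.ext0, List.mem_cons]; exact Or.inr h2⟩

lemma Hist.inv_ext0_top {ℓ : ℕ} {H : Hist n} (hI : H.Inv ℓ) (y : X n) :
    (H.ext0 y ℓ).Inv ℓ := by
  constructor
  · intro p hp i h1 h2
    simp only [Hist.ext0, List.mem_cons] at hp ⊢
    rcases hp with rfl | hp
    · simp at h2
    · exact hI.vR p hp i h1 h2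
  · intro i hi
    simp only [Hist.ext0] at hi
    obtain ⟨h1, y', h2⟩ := hI.Rv i hi
    exact ⟨h1, y', by simp only [Hist.ext0, List.mem_cons]; exact Or.inr h2⟩

lemma Hist.inv_ext1 {ℓ : ℕ} {H : Hist n} (hI : H.Inv ℓ) (y : X n) (v : Fin n) (h : (v : ℕ) < ℓ)
    (e0 : Fin n) : (H.ext1 y v e0).Inv ℓ := by
  constructor
  · intro p hp i h1 h2
    simp only [Hist.ext1, List.mem_cons, Finset.mem_insert] at hp ⊢
    rcases hp with rfl | hp
    · exact Or.inl (Fin.ext h1).symm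
    · exact Or.inr (hI.vR p hp i h1 h2)
  · intro i hi
    simp only [Hist.ext1, Finset.mem_insert] at hi
    rcases hi with rfl | hi
    · exact ⟨h, y, by simp [Hist.ext1]⟩
    · obtain ⟨h1, y', h2⟩ := hI.Rv i hi
      exact ⟨h1, y', by simp only [Hist.ext1, List.mem_cons]; exact Or.inr h2⟩

lemma rpow_eq_mul {x p : ℝ} (hx : 0 ≤ x) (hp : 0 < p) : x ^ p = x * x ^ (p - 1) := by
  rcases eq_or_lt_of_le hx with h | h
  · rw [← h, Real.zero_rpow hp.ne']; simp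
  · rw [Real.rpow_sub_one h.ne']
    field_simp

lemma Hist.step_rev {ℓ : ℕ} {H : Hist n} (hI : H.Inv ℓ) {p : ℝ} (hp : 0 < p) (y : X n)
    (v : Fin n) (hv : v ∈ H.R) :
    ((H.N ℓ y v : ℕ) : ℝ) ^ p ≤ (H.N ℓ y v : ℝ) * (H.h ℓ y v : ℝ) ^ (p - 1) := by
  rcases Nat.eq_zero_or_pos (H.N ℓ y v) with h | h
  · rw [h]; simp [Real.zero_rpow hp.ne']
  · rw [H.A1 hI y v hv h]
    exact (rpow_eq_mul (Nat.cast_nonneg _) hp).le

lemma Hist.step_unrev {ℓ : ℕ} (hℓ : ℓ ≤ n) {H : Hist n} (hI : H.Inv ℓ) {p : ℝ} (hp : 0 < p)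
    (hp1 : p ≤ 1) (y : X n) (v : Fin n) (hv : v ∉ H.R) (hvℓ : (v : ℕ) < ℓ) :
    ∑ e0 : Fin n, (H.Ne ℓ y v e0 : ℝ) ^ p * (M n (H.R.card + 1)) ^ (1 - p)
      ≤ (H.N ℓ y v : ℝ) * (H.h ℓ y v : ℝ) ^ (p - 1) * (M n H.R.card) ^ (1 - p) := by
  have hr : H.R.card < n := by
    have : H.R ⊂ Finset.univ := by
      rw [Finset.ssubset_univ_iff]
      intro h
      rw [h] at hv
      exact hv (mem_univ _)
    simpa using Finset.card_lt_card this
  set r := H.R.card with hrdef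
  have hM := M_succ n r hr
  have hMpos := M_pos n (r + 1)
  have hMpos' := M_pos n r
  have hnr : (0 : ℝ) < ((n - r : ℕ) : ℝ) := by
    have : 0 < n - r := by omega
    exact_mod_cast this
  by_cases hc : ∃ q ∈ H.qs, (v : ℕ) < q.2
  · obtain ⟨q, hq, hqv⟩ := hc
    rw [H.N_eq_sum ℓ y v]
    push_cast
    rw [Finset.sum_mul, Finset.sum_mul]
    apply Finset.sum_le_sum
    intro e0 _
    rcases Nat.eq_zero_or_pos (H.Ne ℓ y v e0) with h | h
    · rw [h]; simp [Real.zero_rpow hp.ne']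
    · have h1 := H.A2 hℓ hI y v hv hvℓ q hq hqv e0 h
      have h2 : (H.h ℓ y v : ℝ) ≤ (H.Ne ℓ y v e0 : ℝ) * (2 * ((n - r : ℕ) : ℝ)) := by
        exact_mod_cast h1
      have hNe : (0 : ℝ) < (H.Ne ℓ y v e0 : ℝ) := by exact_mod_cast h
      have hh : (0 : ℝ) < (H.h ℓ y v : ℝ) := by
        have : H.Ne ℓ y v e0 ≤ H.h ℓ y v := by
          unfold Hist.Ne Hist.h
          apply Finset.card_le_card
          intro ω hω
          rw [mem_filter] at hω ⊢
          exact ⟨hω.1, hω.2.1.ge⟩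
        have h3 : 0 < H.h ℓ y v := lt_of_lt_of_le h this
        exact_mod_cast h3
      rw [rpow_eq_mul hNe.le hp, mul_assoc, mul_assoc]
      apply mul_le_mul_of_nonneg_left _ hNe.le
      have e1 : ∀ x : ℝ, 0 < x → x ^ (p - 1) = (x⁻¹) ^ (1 - p) := by
        intro x hx
        rw [Real.inv_rpow hx.le, ← Real.rpow_neg hx.le]
        congr 1; ring
      rw [e1 _ hNe, e1 _ hh, ← Real.mul_rpow (by positivity) hMpos.le,
        ← Real.mul_rpow (by positivity) hMpos'.le]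
      apply Real.rpow_le_rpow (by positivity) _ (by linarith)
      rw [inv_mul_eq_div, inv_mul_eq_div, div_le_div_iff₀ hNe hh, hM]
      nlinarith
  · push Not at hc
    have h3 := H.A3 hℓ hI y v hv hvℓ hc
    have h4 := H.h_eq ℓ y v
    rw [h3] at h4
    have h5 : (H.h ℓ y v : ℝ) = 2 * (H.N ℓ y v : ℝ) := by rw [h4]; push_cast; ring
    have h6 : ∑ e0 : Fin n, (H.Ne ℓ y v e0 : ℝ) ^ p ≤ ((n - r : ℕ) : ℝ) ^ (1 - p) *
        (H.N ℓ y v : ℝ) ^ p := by
      set s := Finset.univ.filter (fun e0 : Fin n => 0 < H.Ne ℓ y v e0) with hs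
      have h7 : ∑ e0 : Fin n, (H.Ne ℓ y v e0 : ℝ) ^ p = ∑ e0 ∈ s, (H.Ne ℓ y v e0 : ℝ) ^ p := by
        symm
        apply Finset.sum_subset (Finset.subset_univ _)
        intro e0 _ he0
        rw [hs, mem_filter] at he0
        have : H.Ne ℓ y v e0 = 0 := by
          by_contra hcon
          exact he0 ⟨mem_univ _, Nat.pos_of_ne_zero hcon⟩
        rw [this]
        simp [Real.zero_rpow hp.ne']
      rw [h7]
      refine (jensen s _ (fun i _ => Nat.cast_nonneg _) hp hp1).trans ?_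
      have h8 : ∑ e0 ∈ s, (H.Ne ℓ y v e0 : ℝ) ≤ (H.N ℓ y v : ℝ) := by
        rw [H.N_eq_sum ℓ y v]
        push_cast
        exact Finset.sum_le_sum_of_subset_of_nonneg (Finset.subset_univ _)
          (fun _ _ _ => Nat.cast_nonneg _)
      have h9 : (s.card : ℝ) ≤ ((n - r : ℕ) : ℝ) := by
        exact_mod_cast H.A4 y v hv
      apply mul_le_mul
      · exact Real.rpow_le_rpow (Nat.cast_nonneg _) h9 (by linarith)
      · exact Real.rpow_le_rpow (Finset.sum_nonneg (fun _ _ => Nat.cast_nonneg _)) h8 hp.le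
      · exact Real.rpow_nonneg (Finset.sum_nonneg (fun _ _ => Nat.cast_nonneg _)) _
      · exact Real.rpow_nonneg hnr.le _
    rw [← Finset.sum_mul]
    refine (mul_le_mul_of_nonneg_right h6 (Real.rpow_nonneg hMpos.le _)).trans ?_
    rw [h5]
    have hN0 : (0 : ℝ) ≤ (H.N ℓ y v : ℝ) := Nat.cast_nonneg _
    rcases eq_or_lt_of_le hN0 with h0 | h0
    · rw [← h0]; simp [Real.zero_rpow hp.ne']
    · have e1 : ∀ x : ℝ, 0 < x → x ^ (p - 1) = (x⁻¹) ^ (1 - p) := by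
        intro x hx
        rw [Real.inv_rpow hx.le, ← Real.rpow_neg hx.le]
        congr 1; ring
      rw [rpow_eq_mul h0.le hp]
      have h10 : (H.N ℓ y v : ℝ) * (H.N ℓ y v : ℝ) ^ (p - 1) = (H.N ℓ y v : ℝ) *
        ((H.N ℓ y v : ℝ)⁻¹) ^ (1 - p) := by rw [e1 _ h0]
      rw [h10, e1 _ (by positivity), hM]
      have h11 : ((n - r : ℕ) : ℝ) ^ (1 - p) * ((H.N ℓ y v : ℝ) * ((H.N ℓ y v : ℝ)⁻¹) ^ (1 - p)) *
          M n (r + 1) ^ (1 - p) = (H.N ℓ y v : ℝ) * (((n - r : ℕ) : ℝ) * (H.N ℓ y v : ℝ)⁻¹ *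
            M n (r + 1)) ^ (1 - p) := by
        rw [Real.mul_rpow (by positivity) hMpos.le, Real.mul_rpow hnr.le (by positivity)]
        ring
      have h12 : (H.N ℓ y v : ℝ) * ((2 * (H.N ℓ y v : ℝ))⁻¹) ^ (1 - p) *
          (2 * ((n - r : ℕ) : ℝ) * M n (r + 1)) ^ (1 - p) = (H.N ℓ y v : ℝ) *
            ((2 * (H.N ℓ y v : ℝ))⁻¹ * (2 * ((n - r : ℕ) : ℝ) * M n (r + 1))) ^ (1 - p) := by
        rw [Real.mul_rpow (x := (2 * (H.N ℓ y v : ℝ))⁻¹) (by positivity) (by positivity)]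
        ring
      rw [h11, h12]
      apply le_of_eq
      congr 2
      field_simp

end Pool.Agent.H683R2.LO
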