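import Mathlib
import Pool.Agent.H683R2.LoC

set_option autoImplicit false

namespace Pool.Agent.H683R2.LO

open Finset

variable {n : ℕ}

/-- decision trees -/
inductive DT (n : ℕ) : Type
  | leaf : DT n
  | node (y : X n) (f : ℕ → DT n) : DT n

def DT.dep : DT n → ℕ → Prop
  | .leaf, _ => True
  | .node _ _, 0 => False
  | .node _ f, D + 1 => ∀ v, (f v).dep D

/-- positions where two of the strings differ -/
def Us (Y : List (X n)) : Finset (Fin n) :=
  Finset.univ.filter (fun i => ∃ y ∈ Y, ∃ y' ∈ Y, y i ≠ y' i)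

def Ev (ℓ u : ℕ) : DT n → List (X n) → Om n → Prop
  | .leaf, Y, _ => u ≤ (Us Y).card
  | .node y f, Y, ω => Ev ℓ u (f (g ℓ ω y)) (if g ℓ ω y = ℓ then y :: Y else Y) ω

def Hist.Y (ℓ : ℕ) (H : Hist n) : List (X n) :=
  (H.qs.filter (fun p => decide (p.2 = ℓ))).map Prod.fst

lemma Hist.mem_Y {ℓ : ℕ} {H : Hist n} {y : X n} : y ∈ H.Y ℓ ↔ (y, ℓ) ∈ H.qs := by
  unfold Hist.Y
  rw [List.mem_map]
  constructor
  · rintro ⟨⟨a, b⟩, h1, h2⟩
    rw [List.mem_filter] at h1
    simp only [decide_eq_true_eq] at h1 h2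
    rw [← h2, ← h1.2]
    exact h1.1
  · intro h
    exact ⟨(y, ℓ), by rw [List.mem_filter]; simp [h], rfl⟩

lemma leaf_count {ℓ u : ℕ} (hℓ : ℓ ≤ n) (hu : 1 ≤ u) {H : Hist n} (hI : H.Inv ℓ)
    (hU : u ≤ (Us (H.Y ℓ)).card) :
    (H.S ℓ).card ≤ 2 ^ (n - ℓ) * ((n - ℓ) ^ u * (n - H.R.card - u).factorial) := by
  classical
  rcases Finset.eq_empty_or_nonempty (H.S ℓ) with h0 | ⟨ω0, hω0⟩
  · rw [h0]; simp
  obtain ⟨U', hU's, hU'c⟩ := Finset.exists_subset_card_eq hU
  have hUne : (Us (H.Y ℓ)).Nonempty := Finset.card_pos.1 (by omega)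
  obtain ⟨i0, hi0⟩ := hUne
  rw [Us, mem_filter] at hi0
  obtain ⟨_, ys, hys, _⟩ := hi0
  rw [Hist.mem_Y] at hys
  have hS0 := hω0
  rw [Hist.S, mem_filter] at hS0
  -- facts for each ω in S
  have fact1 : ∀ ω ∈ H.S ℓ, ∀ a ∈ U', ℓ ≤ (ω.2⁻¹ a : ℕ) := by
    intro ω hω a ha
    rw [Hist.S, mem_filter] at hω
    have := hU's ha
    rw [Us, mem_filter] at this
    obtain ⟨_, y, hy, y', hy', hne⟩ := this
    rw [Hist.mem_Y] at hy hy'
    by_contra hcon
    push Not at hcon
    have h1 := ag_of_g (hω.2.1 _ hy) _ hcon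
    have h2 := ag_of_g (hω.2.1 _ hy') _ hcon
    unfold ag at h1 h2
    have hai : ω.2 (ω.2⁻¹ a) = a := ω.2.apply_symm_apply a
    rw [hai] at h1 h2
    exact hne (h1.trans h2.symm)
  have fact2 : ∀ ω ∈ H.S ℓ, ∀ i ∈ H.R, ω.2⁻¹ (H.e i) = i := by
    intro ω hω i hi
    rw [Hist.S, mem_filter] at hω
    rw [← hω.2.2 i hi]
    simp
  have hinj : Set.InjOn H.e H.R := by
    intro i hi j hj hij
    have h1 := fact2 ω0 hω0 i hi
    have h2 := fact2 ω0 hω0 j hj
    rw [hij] at h1
    exact h1.symm.trans h2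
  have hdisj : Disjoint (H.R.image H.e) U' := by
    rw [Finset.disjoint_left]
    intro a ha ha'
    rw [mem_image] at ha
    obtain ⟨i, hi, rfl⟩ := ha
    have h1 := fact1 ω0 hω0 _ ha'
    rw [fact2 ω0 hω0 i hi] at h1
    have := (hI.Rv i hi).1
    omega
  set D := (H.R.image H.e) ∪ U' with hD
  have hDc : D.card = H.R.card + u := by
    rw [hD, Finset.card_union_of_disjoint hdisj, hU'c, Finset.card_image_of_injOn hinj]
  let Sa : Fin n → Finset (Fin n) := fun a =>
    if a ∈ U' then Finset.univ.filter (fun j : Fin n => ℓ ≤ (j : ℕ)) else {ω0.2⁻¹ a}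
  have htop : (Finset.univ.filter (fun j : Fin n => ℓ ≤ (j : ℕ))).card = n - ℓ := by
    have h1 : (Finset.univ.filter (fun j : Fin n => (j : ℕ) < ℓ)).card = ℓ := by
      rw [Fin.card_filter_val_lt]; omega
    have h2 := Finset.card_filter_add_card_filter_not (s := (Finset.univ : Finset (Fin n)))
      (fun j : Fin n => (j : ℕ) < ℓ)
    rw [h1, Finset.card_univ, Fintype.card_fin] at h2
    have h3 : (Finset.univ.filter (fun j : Fin n => ¬ (j : ℕ) < ℓ)).card
      = (Finset.univ.filter (fun j : Fin n => ℓ ≤ (j : ℕ))).card := by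
      congr 1; ext j; simp
    omega
  have hperm := card_perm_le D Sa
  rw [Fintype.card_fin, hDc] at hperm
  have hprod : ∏ a ∈ D, (Sa a).card = (n - ℓ) ^ u := by
    rw [hD, Finset.prod_union hdisj]
    have h1 : ∏ a ∈ H.R.image H.e, (Sa a).card = 1 := by
      apply Finset.prod_eq_one
      intro a ha
      have : a ∉ U' := fun h => (Finset.disjoint_left.1 hdisj) ha h
      simp only [Sa, this, if_false, Finset.card_singleton]
    have h2 : ∏ a ∈ U', (Sa a).card = (n - ℓ) ^ u := by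
      rw [← hU'c, ← Finset.prod_const]
      apply Finset.prod_congr rfl
      intro a ha
      simp only [Sa, ha, if_true]
      exact htop
    rw [h1, h2, one_mul]
  rw [hprod] at hperm
  -- injection
  let F : Om n → (Equiv.Perm (Fin n)) × ({j : Fin n // ℓ ≤ (j : ℕ)} → Bool) := fun ω =>
    (ω.2⁻¹, fun j => ω.1 (ω.2 j.1))
  have hcard : ((Finset.univ.filter (fun τ : Equiv.Perm (Fin n) => ∀ a ∈ D, τ a ∈ Sa a)) ×ˢ
      (Finset.univ : Finset ({j : Fin n // ℓ ≤ (j : ℕ)} → Bool))).card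
      ≤ ((n - ℓ) ^ u * (n - (H.R.card + u)).factorial) * 2 ^ (n - ℓ) := by
    rw [Finset.card_product]
    refine Nat.mul_le_mul (le_of_eq_of_le ?_ hperm) ?_
    · congr 1
      ext τ
      simp only [mem_filter]
    rw [Finset.card_univ, Fintype.card_fun, Fintype.card_bool, Fintype.card_subtype, htop]
  have hmain : (H.S ℓ).card ≤ ((Finset.univ.filter
      (fun τ : Equiv.Perm (Fin n) => ∀ a ∈ D, τ a ∈ Sa a)) ×ˢ
      (Finset.univ : Finset ({j : Fin n // ℓ ≤ (j : ℕ)} → Bool))).card := by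
    apply Finset.card_le_card_of_injOn F
    · intro ω hω
      rw [Finset.mem_coe] at hω
      rw [Finset.mem_coe, mem_product, mem_filter]
      refine ⟨⟨mem_univ _, ?_⟩, mem_univ _⟩
      intro a ha
      by_cases hau : a ∈ U'
      · simp only [Sa, hau, if_true, mem_filter, mem_univ, true_and, F]
        exact fact1 ω hω a hau
      · simp only [Sa, hau, if_false, Finset.mem_singleton, F]
        have : a ∈ H.R.image H.e := by
          rw [hD, mem_union] at ha
          exact ha.resolve_right hau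
        rw [mem_image] at this
        obtain ⟨i, hi, rfl⟩ := this
        rw [fact2 ω hω i hi, fact2 ω0 hω0 i hi]
    · intro ω hω ω' hω' h
      rw [Finset.mem_coe] at hω hω'
      simp only [F, Prod.mk.injEq, inv_inj] at h
      obtain ⟨h1, h2⟩ := h
      rw [Hist.S, mem_filter] at hω hω'
      refine Prod.ext ?_ h1
      funext a
      obtain ⟨j, rfl⟩ := ω.2.surjective a
      by_cases hj : ℓ ≤ (j : ℕ)
      · have := congrFun h2 ⟨j, hj⟩
        simp only at this
        rw [this, h1]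
      · push Not at hj
        have h3 := ag_of_g (hω.2.1 _ hys) j hj
        have h4 := ag_of_g (hω'.2.1 _ hys) j hj
        unfold ag at h3 h4
        rw [← h1] at h4
        exact h3.symm.trans h4
  refine hmain.trans (hcard.trans (le_of_eq ?_))
  rw [Nat.sub_sub]
  ring

lemma Ev_node_iff (ℓ u : ℕ) (y : X n) (f : ℕ → DT n) (Y : List (X n)) (ω : Om n) :
    Ev ℓ u (.node y f) Y ω ↔ Ev ℓ u (f (g ℓ ω y)) (if g ℓ ω y = ℓ then y :: Y else Y) ω :=
  Iff.rfl

lemma Hist.Y_ext0_lt {ℓ : ℕ} (H : Hist n) (y : X n) (v : ℕ) (h : v < ℓ) :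
    (H.ext0 y v).Y ℓ = H.Y ℓ := by
  unfold Hist.Y Hist.ext0
  have : ¬ (v = ℓ) := by omega
  simp [this]

lemma Hist.Y_ext0_top {ℓ : ℕ} (H : Hist n) (y : X n) :
    (H.ext0 y ℓ).Y ℓ = y :: H.Y ℓ := by
  unfold Hist.Y Hist.ext0
  simp

lemma Hist.Y_ext1 {ℓ : ℕ} (H : Hist n) (y : X n) (v : Fin n) (h : (v : ℕ) < ℓ) (e0 : Fin n) :
    (H.ext1 y v e0).Y ℓ = H.Y ℓ := by
  unfold Hist.Y Hist.ext1
  have : ¬ ((v : ℕ) = ℓ) := by omega
  simp [this]

open Classical in
theorem main_pot {ℓ u T' : ℕ} (hℓ : ℓ ≤ n) {p : ℝ} (hp : 0 < p) (hp1 : p ≤ 1)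
    {θ : ℝ} (hθ0 : 0 ≤ θ)
    (hleaf : ∀ H : Hist n, H.Inv ℓ → H.R.card ≤ T' → u ≤ (Us (H.Y ℓ)).card →
      ((H.S ℓ).card : ℝ) ≤ H.pot ℓ p * θ) (d : DT n) :
    ∀ (D : ℕ) (H : Hist n), H.Inv ℓ → d.dep D → H.R.card + D ≤ T' →
      (((H.S ℓ).filter (fun ω => Ev ℓ u d (H.Y ℓ) ω)).card : ℝ) ≤ (1 / p) ^ D * H.pot ℓ p * θ := by
  have hp1' : 1 ≤ 1 / p := by rw [le_div_iff₀ hp]; linarith
  induction d with
  | leaf =>
    intro D H hI _ hR
    have h1 : (1 : ℝ) ≤ (1 / p) ^ D := one_le_pow₀ hp1'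
    have h2 : 0 ≤ H.pot ℓ p * θ := mul_nonneg (H.pot_nonneg ℓ p) hθ0
    by_cases hU : u ≤ (Us (H.Y ℓ)).card
    · have h3 := hleaf H hI (by omega) hU
      have h4 : (((H.S ℓ).filter (fun ω => Ev ℓ u .leaf (H.Y ℓ) ω)).card : ℝ) ≤
          ((H.S ℓ).card : ℝ) := by
        exact_mod_cast Finset.card_filter_le _ _
      rw [mul_assoc]
      nlinarith
    · have h4 : ((H.S ℓ).filter (fun ω => Ev ℓ u .leaf (H.Y ℓ) ω)).card = 0 := by
        rw [Finset.card_eq_zero, Finset.filter_eq_empty_iff]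
        intro ω _
        exact hU
      rw [h4, mul_assoc]
      simp only [Nat.cast_zero]
      positivity
  | node y f ih =>
    intro D H hI hdep hR
    cases D with
    | zero => exact absurd hdep id
    | succ D =>
      have hdep' : ∀ v, (f v).dep D := hdep
      set A := (H.S ℓ).filter (fun ω => Ev ℓ u (.node y f) (H.Y ℓ) ω) with hA
      -- the contribution of each value
      have hsplit : (A.card : ℝ) = ∑ v ∈ Finset.range (ℓ + 1),
          ((A.filter (fun ω => g ℓ ω y = v)).card : ℝ) := by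
        have : A.card = ∑ v ∈ Finset.range (ℓ + 1), (A.filter (fun ω => g ℓ ω y = v)).card :=
          Finset.card_eq_sum_card_fiberwise (fun ω _ => by
            rw [Finset.mem_coe, Finset.mem_range]
            exact Nat.lt_succ_of_le (g_le _ _ _))
        exact_mod_cast this
      have hK : 0 ≤ (1 / p) ^ D := by positivity
      -- bound for v < ℓ
      have hlt : ∀ v ∈ Finset.range ℓ, ((A.filter (fun ω => g ℓ ω y = v)).card : ℝ) ≤
          (1 / p) ^ D * θ * ((H.N ℓ y v : ℝ) * (H.h ℓ y v : ℝ) ^ (p - 1) *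
            (M n H.R.card) ^ (1 - p)) := by
        intro v hv
        rw [Finset.mem_range] at hv
        obtain ⟨vf, hvf⟩ : ∃ vf : Fin n, (vf : ℕ) = v := ⟨⟨v, by omega⟩, rfl⟩
        by_cases hvR : vf ∈ H.R
        · have h1 := ih v D (H.ext0 y v) (by rw [← hvf]; exact H.inv_ext0 hI y vf hvR) (hdep' v)
            (by simp only [Hist.ext0]; omega)
          have h2 : (A.filter (fun ω => g ℓ ω y = v)) =
              ((H.ext0 y v).S ℓ).filter (fun ω => Ev ℓ u (f v) ((H.ext0 y v).Y ℓ) ω) := by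
            rw [H.S_ext0_lt y v hv, H.Y_ext0_lt y v hv, hA]
            ext ω
            simp only [mem_filter, Ev_node_iff, g_eq_iff_of_lt ω y v hv]
            constructor
            · rintro ⟨⟨a, b⟩, c⟩
              have c' : g ℓ ω y = v := (g_eq_iff_of_lt ω y v hv).2 c
              rw [c', if_neg (by omega)] at b
              exact ⟨⟨a, c⟩, b⟩
            · rintro ⟨⟨a, c⟩, b⟩
              have c' : g ℓ ω y = v := (g_eq_iff_of_lt ω y v hv).2 c
              refine ⟨⟨a, ?_⟩, c⟩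
              rw [c', if_neg (by omega)]
              exact b
          rw [h2]
          refine h1.trans ?_
          have h3 : (H.ext0 y v).pot ℓ p ≤ ((H.N ℓ y v : ℝ) * (H.h ℓ y v : ℝ) ^ (p - 1) *
            (M n H.R.card) ^ (1 - p)) := by
            unfold Hist.pot
            rw [H.S_ext0_lt y v hv]
            apply mul_le_mul_of_nonneg_right _ (Real.rpow_nonneg (M_pos _ _).le _)
            have := H.step_rev hI hp y vf hvR
            rw [hvf] at this
            exact this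
          calc (1 / p) ^ D * (H.ext0 y v).pot ℓ p * θ
              = (1 / p) ^ D * θ * (H.ext0 y v).pot ℓ p := by ring
            _ ≤ _ := mul_le_mul_of_nonneg_left h3 (by positivity)
        · have h2 : ((A.filter (fun ω => g ℓ ω y = v)).card : ℝ) = ∑ e0 : Fin n,
              ((((H.ext1 y vf e0).S ℓ).filter
                (fun ω => Ev ℓ u (f v) ((H.ext1 y vf e0).Y ℓ) ω)).card : ℝ) := by
            have h3 : (A.filter (fun ω => g ℓ ω y = v)).card = ∑ e0 : Fin n,
                ((A.filter (fun ω => g ℓ ω y = v)).filter (fun ω => ω.2 vf = e0)).card :=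
              Finset.card_eq_sum_card_fiberwise (fun _ _ => Finset.mem_coe.2 (mem_univ _))
            rw [h3]
            push_cast
            apply Finset.sum_congr rfl
            intro e0 _
            congr 2
            rw [H.S_ext1 y vf (by omega) hvR e0, H.Y_ext1 y vf (by omega) e0, hA]
            ext ω
            simp only [mem_filter, Ev_node_iff, g_eq_iff_of_lt ω y v hv, hvf]
            constructor
            · rintro ⟨⟨⟨a, b⟩, c⟩, e⟩
              have c' : g ℓ ω y = v := (g_eq_iff_of_lt ω y v hv).2 c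
              rw [c', if_neg (by omega)] at b
              exact ⟨⟨a, c, e⟩, b⟩
            · rintro ⟨⟨a, c, e⟩, b⟩
              have c' : g ℓ ω y = v := (g_eq_iff_of_lt ω y v hv).2 c
              refine ⟨⟨⟨a, ?_⟩, c⟩, e⟩
              rw [c', if_neg (by omega)]
              exact b
          have h4 : ∀ e0 : Fin n, ((((H.ext1 y vf e0).S ℓ).filter
                (fun ω => Ev ℓ u (f v) ((H.ext1 y vf e0).Y ℓ) ω)).card : ℝ) ≤
              (1 / p) ^ D * θ * ((H.Ne ℓ y vf e0 : ℝ) ^ p * (M n (H.R.card + 1)) ^ (1 - p)) := by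
            intro e0
            have h5 := ih v D (H.ext1 y vf e0) (H.inv_ext1 hI y vf (by omega) e0) (hdep' v)
              (by simp only [Hist.ext1]; rw [Finset.card_insert_of_notMem hvR]; omega)
            refine h5.trans (le_of_eq ?_)
            unfold Hist.pot
            rw [H.S_ext1 y vf (by omega) hvR e0]
            simp only [Hist.ext1]
            rw [Finset.card_insert_of_notMem hvR]
            unfold Hist.Ne
            ring
          rw [h2]
          refine (Finset.sum_le_sum (fun e0 _ => h4 e0)).trans ?_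
          rw [← Finset.mul_sum]
          apply mul_le_mul_of_nonneg_left _ (by positivity)
          have := H.step_unrev hℓ hI hp hp1 y vf hvR (by omega)
          rw [hvf] at this
          exact this
      have htop : ((A.filter (fun ω => g ℓ ω y = ℓ)).card : ℝ) ≤
          (1 / p) ^ D * θ * ((H.h ℓ y ℓ : ℝ) ^ p * (M n H.R.card) ^ (1 - p)) := by
        have h1 := ih ℓ D (H.ext0 y ℓ) (H.inv_ext0_top hI y) (hdep' ℓ)
            (by simp only [Hist.ext0]; omega)
        have h2 : (A.filter (fun ω => g ℓ ω y = ℓ)) =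
            ((H.ext0 y ℓ).S ℓ).filter (fun ω => Ev ℓ u (f ℓ) ((H.ext0 y ℓ).Y ℓ) ω) := by
          rw [H.S_ext0_top y, H.Y_ext0_top y, hA]
          ext ω
          simp only [mem_filter, Ev_node_iff, g_eq_top_iff ω y]
          constructor
          · rintro ⟨⟨a, b⟩, c⟩
            have c' : g ℓ ω y = ℓ := (g_eq_top_iff ω y).2 c
            rw [c', if_pos c] at b
            exact ⟨⟨a, c⟩, b⟩
          · rintro ⟨⟨a, c⟩, b⟩
            have c' : g ℓ ω y = ℓ := (g_eq_top_iff ω y).2 c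
            refine ⟨⟨a, ?_⟩, c⟩
            rw [c', if_pos c]
            exact b
        rw [h2]
        refine h1.trans (le_of_eq ?_)
        unfold Hist.pot
        rw [H.S_ext0_top y]
        simp only [Hist.ext0]
        unfold Hist.h
        ring
      -- sum up
      rw [hsplit, Finset.sum_range_succ]
      have hsum := (Finset.sum_le_sum hlt)
      rw [← Finset.mul_sum, ← Finset.sum_mul] at hsum
      have htel : ∑ v ∈ Finset.range ℓ, (H.N ℓ y v : ℝ) * (H.h ℓ y v : ℝ) ^ (p - 1) ≤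
          ((H.h ℓ y 0 : ℝ) ^ p - (H.h ℓ y ℓ : ℝ) ^ p) / p := by
        have h1 : ∀ v ∈ Finset.range ℓ, (H.N ℓ y v : ℝ) * (H.h ℓ y v : ℝ) ^ (p - 1) ≤
            (H.h ℓ y v : ℝ) ^ p / p - (H.h ℓ y (v + 1) : ℝ) ^ p / p := by
          intro v _
          have h2 := H.h_eq ℓ y v
          have h3 : (H.N ℓ y v : ℝ) = (H.h ℓ y v : ℝ) - (H.h ℓ y (v + 1) : ℝ) := by
            rw [h2]; push_cast; ring
          rw [h3, ← sub_div]
          exact tangent hp hp1 (Nat.cast_nonneg _) (by rw [h2]; push_cast; linarith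
            [(Nat.cast_nonneg (H.N ℓ y v) : (0 : ℝ) ≤ _)])
        refine (Finset.sum_le_sum h1).trans (le_of_eq ?_)
        rw [Finset.sum_range_sub', sub_div]
      have hMp : 0 ≤ (M n H.R.card) ^ (1 - p) := Real.rpow_nonneg (M_pos _ _).le _
      have hfin : (∑ v ∈ Finset.range ℓ, (H.N ℓ y v : ℝ) * (H.h ℓ y v : ℝ) ^ (p - 1)) *
          (M n H.R.card) ^ (1 - p) + (H.h ℓ y ℓ : ℝ) ^ p * (M n H.R.card) ^ (1 - p) ≤
          (1 / p) * H.pot ℓ p := by
        have h1 : (∑ v ∈ Finset.range ℓ, (H.N ℓ y v : ℝ) * (H.h ℓ y v : ℝ) ^ (p - 1)) +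
            (H.h ℓ y ℓ : ℝ) ^ p ≤ (1 / p) * (H.h ℓ y 0 : ℝ) ^ p := by
          have h2 : 0 ≤ (H.h ℓ y ℓ : ℝ) ^ p := Real.rpow_nonneg (Nat.cast_nonneg _) _
          have h3 : (H.h ℓ y ℓ : ℝ) ^ p ≤ (H.h ℓ y ℓ : ℝ) ^ p / p := by
            rw [le_div_iff₀ hp]; nlinarith
          rw [sub_div] at htel
          have h4 : (1 / p) * (H.h ℓ y 0 : ℝ) ^ p = (H.h ℓ y 0 : ℝ) ^ p / p := by ring
          linarith
        rw [← add_mul]
        unfold Hist.pot
        rw [H.h_zero ℓ y] at h1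
        calc _ ≤ (1 / p) * ((H.S ℓ).card : ℝ) ^ p * (M n H.R.card) ^ (1 - p) :=
              mul_le_mul_of_nonneg_right h1 hMp
          _ = _ := by ring
      calc _ ≤ (1 / p) ^ D * θ * ((∑ v ∈ Finset.range ℓ, (H.N ℓ y v : ℝ) *
              (H.h ℓ y v : ℝ) ^ (p - 1)) * (M n H.R.card) ^ (1 - p)) +
              (1 / p) ^ D * θ * ((H.h ℓ y ℓ : ℝ) ^ p * (M n H.R.card) ^ (1 - p)) :=
            add_le_add hsum htop
        _ = (1 / p) ^ D * θ * ((∑ v ∈ Finset.range ℓ, (H.N ℓ y v : ℝ) *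
              (H.h ℓ y v : ℝ) ^ (p - 1)) * (M n H.R.card) ^ (1 - p) +
                (H.h ℓ y ℓ : ℝ) ^ p * (M n H.R.card) ^ (1 - p)) := by ring
        _ ≤ (1 / p) ^ D * θ * ((1 / p) * H.pot ℓ p) :=
            mul_le_mul_of_nonneg_left hfin (by positivity)
        _ = _ := by rw [pow_succ]; ring

end Pool.Agent.H683R2.LO
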