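import Mathlib
import Pool.Agent.H683R2.LoD

set_option autoImplicit false

namespace Pool.Agent.H683R2.LO

open Finset

variable {n : ℕ}

/-- deterministic, time dependent (1+1) memory-restricted algorithms -/
structure DAlg (n : ℕ) where
  x0 : X n
  G : ℕ → X n → ℕ → X n
  K : ℕ → X n → ℕ → X n → ℕ → Bool

def st (A : DAlg n) (φ : X n → ℕ) : ℕ → X n
  | 0 => A.x0
  | t + 1 => if A.K t (st A φ t) (φ (st A φ t)) (A.G t (st A φ t) (φ (st A φ t)))
      (φ (A.G t (st A φ t) (φ (st A φ t)))) = true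
      then A.G t (st A φ t) (φ (st A φ t)) else st A φ t

def qr (A : DAlg n) (φ : X n → ℕ) : ℕ → X n
  | 0 => A.x0
  | t + 1 => A.G t (st A φ t) (φ (st A φ t))

lemma st_succ (A : DAlg n) (φ : X n → ℕ) (t : ℕ) :
    st A φ (t + 1) = if A.K t (st A φ t) (φ (st A φ t)) (qr A φ (t + 1))
      (φ (qr A φ (t + 1))) = true then qr A φ (t + 1) else st A φ t := rfl

lemma st_mem (A : DAlg n) (φ : X n → ℕ) (t : ℕ) : ∃ i ≤ t, st A φ t = qr A φ i := by
  induction t with
  | zero => exact ⟨0, le_rfl, rfl⟩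
  | succ t ih =>
    rw [st_succ]
    split_ifs
    · exact ⟨t + 1, le_rfl, rfl⟩
    · obtain ⟨i, hi, h⟩ := ih
      exact ⟨i, by omega, h⟩

lemma coincide (A : DAlg n) (φ φ' : X n → ℕ) (t : ℕ)
    (h : ∀ i ≤ t, φ (qr A φ i) = φ' (qr A φ i)) :
    st A φ t = st A φ' t ∧ qr A φ t = qr A φ' t ∧ qr A φ (t + 1) = qr A φ' (t + 1) := by
  induction t with
  | zero =>
    refine ⟨rfl, rfl, ?_⟩
    have := h 0 le_rfl
    change A.G 0 A.x0 (φ A.x0) = A.G 0 A.x0 (φ' A.x0)
    have h' : φ A.x0 = φ' A.x0 := this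
    rw [h']
  | succ t ih =>
    obtain ⟨h1, _, h3⟩ := ih (fun i hi => h i (by omega))
    obtain ⟨i, hi, hst⟩ := st_mem A φ t
    have h4 : φ (st A φ t) = φ' (st A φ' t) := by
      rw [← h1, hst]; exact h i (by omega)
    have h5 : φ (qr A φ (t + 1)) = φ' (qr A φ' (t + 1)) := by
      rw [← h3]; exact h (t + 1) le_rfl
    have h6 : st A φ (t + 1) = st A φ' (t + 1) := by
      rw [st_succ, st_succ, h5, h4, h3, h1]
    refine ⟨h6, h3, ?_⟩
    obtain ⟨i', hi', hst'⟩ := st_mem A φ (t + 1)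
    have h7 : φ (st A φ (t + 1)) = φ' (st A φ' (t + 1)) := by
      rw [← h6, hst']; exact h i' hi'
    change A.G (t + 1) (st A φ (t + 1)) (φ (st A φ (t + 1)))
      = A.G (t + 1) (st A φ' (t + 1)) (φ' (st A φ' (t + 1)))
    rw [h7, h6]

def algDT (A : DAlg n) : ℕ → ℕ → X n → ℕ → DT n
  | 0, _, _, _ => .leaf
  | m + 1, s, x, v => .node (A.G s x v) (fun v' =>
      if A.K s x v (A.G s x v) v' = true then algDT A m (s + 1) (A.G s x v) v'
      else algDT A m (s + 1) x v)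

lemma algDT_dep (A : DAlg n) (m : ℕ) : ∀ (s : ℕ) (x : X n) (v : ℕ), (algDT A m s x v).dep m := by
  induction m with
  | zero => intro s x v; trivial
  | succ m ih =>
    intro s x v v'
    change (if A.K s x v (A.G s x v) v' = true then algDT A m (s + 1) (A.G s x v) v'
      else algDT A m (s + 1) x v).dep m
    split_ifs
    · exact ih _ _ _
    · exact ih _ _ _

def startDT (A : DAlg n) (m s : ℕ) (x : X n) : DT n := .node x (fun v => algDT A m s x v)

lemma startDT_dep (A : DAlg n) (m s : ℕ) (x : X n) : (startDT A m s x).dep (m + 1) :=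
  fun v => algDT_dep A m s x v

open Classical in
/-- positions where two strings of a set differ -/
noncomputable def UsS (W : Set (X n)) : Finset (Fin n) :=
  Finset.univ.filter (fun i => ∃ y ∈ W, ∃ y' ∈ W, y i ≠ y' i)

lemma mem_UsS {W : Set (X n)} {i : Fin n} : i ∈ UsS W ↔ ∃ y ∈ W, ∃ y' ∈ W, y i ≠ y' i := by
  unfold UsS
  simp

lemma UsS_mono {W W' : Set (X n)} (h : W ⊆ W') : UsS W ⊆ UsS W' := by
  intro i hi
  rw [mem_UsS] at hi ⊢
  obtain ⟨y, hy, y', hy', hne⟩ := hi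
  exact ⟨y, h hy, y', h hy', hne⟩

lemma UsS_list (Y : List (X n)) : UsS {y | y ∈ Y} = Us Y := by
  unfold UsS Us
  ext i
  simp

def Lv (A : DAlg n) (φ : X n → ℕ) (ℓ s m : ℕ) : Set (X n) :=
  {y | ∃ j, s < j ∧ j ≤ s + m ∧ y = qr A φ j ∧ φ y = ℓ}

lemma Ev_algDT (A : DAlg n) (ℓ u : ℕ) (ω : Om n) (m : ℕ) : ∀ (s : ℕ) (Y : List (X n)),
    u ≤ (UsS ({y | y ∈ Y} ∪ Lv A (g ℓ ω) ℓ s m)).card →
    Ev ℓ u (algDT A m s (st A (g ℓ ω) s) (g ℓ ω (st A (g ℓ ω) s))) Y ω := by
  induction m with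
  | zero =>
    intro s Y h
    have h1 : ({y | y ∈ Y} ∪ Lv A (g ℓ ω) ℓ s 0) = {y | y ∈ Y} := by
      ext y
      simp only [Lv, Set.mem_union, Set.mem_ofPred_eq]
      constructor
      · rintro (h | ⟨j, h1, h2, _⟩)
        · exact h
        · omega
      · exact Or.inl
    rw [h1, UsS_list] at h
    exact h
  | succ m ih =>
    intro s Y h
    set φ := g ℓ ω with hφ
    have hnode : algDT A (m + 1) s (st A φ s) (φ (st A φ s)) = .node (qr A φ (s + 1)) (fun v' =>
      if A.K s (st A φ s) (φ (st A φ s)) (qr A φ (s + 1)) v' = true then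
        algDT A m (s + 1) (qr A φ (s + 1)) v'
      else algDT A m (s + 1) (st A φ s) (φ (st A φ s))) := rfl
    rw [hnode, Ev_node_iff]
    have hnext : (if A.K s (st A φ s) (φ (st A φ s)) (qr A φ (s + 1)) (φ (qr A φ (s + 1))) = true
        then algDT A m (s + 1) (qr A φ (s + 1)) (φ (qr A φ (s + 1)))
        else algDT A m (s + 1) (st A φ s) (φ (st A φ s))) =
        algDT A m (s + 1) (st A φ (s + 1)) (φ (st A φ (s + 1))) := by
      rw [st_succ]
      split_ifs <;> rfl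
    change Ev ℓ u (if A.K s (st A φ s) (φ (st A φ s)) (qr A φ (s + 1)) (φ (qr A φ (s + 1))) = true
        then algDT A m (s + 1) (qr A φ (s + 1)) (φ (qr A φ (s + 1)))
        else algDT A m (s + 1) (st A φ s) (φ (st A φ s)))
        (if φ (qr A φ (s + 1)) = ℓ then qr A φ (s + 1) :: Y else Y) ω
    rw [hnext]
    apply ih
    refine h.trans (Finset.card_le_card (UsS_mono ?_))
    intro y hy
    rcases hy with hy | hy
    · left
      rw [Set.mem_ofPred_eq] at hy ⊢
      split_ifs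
      · exact List.mem_cons_of_mem _ hy
      · exact hy
    · obtain ⟨j, h1, h2, h3, h4⟩ := hy
      by_cases hj : j = s + 1
      · left
        rw [Set.mem_ofPred_eq]
        rw [hj] at h3
        rw [h3] at h4 ⊢
        rw [if_pos h4]
        exact List.mem_cons_self
      · right
        exact ⟨j, by omega, by omega, h3, h4⟩

lemma Ev_startDT (A : DAlg n) (ℓ u : ℕ) (ω : Om n) (m s : ℕ)
    (h : u ≤ (UsS ({y | y = st A (g ℓ ω) s ∧ g ℓ ω y = ℓ} ∪ Lv A (g ℓ ω) ℓ s m)).card) :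
    Ev ℓ u (startDT A m s (st A (g ℓ ω) s)) [] ω := by
  unfold startDT
  rw [Ev_node_iff]
  apply Ev_algDT
  refine h.trans (Finset.card_le_card (UsS_mono ?_))
  intro y hy
  rcases hy with hy | hy
  · left
    rw [Set.mem_ofPred_eq] at hy ⊢
    obtain ⟨h1, h2⟩ := hy
    rw [h1] at h2 ⊢
    rw [if_pos h2]
    exact List.mem_cons_self
  · right; exact hy

/-! ### the truncated run -/

/-- the truncated run reaches level `ℓ` by time `B` -/
def Reach (A : DAlg n) (ℓ B : ℕ) (ω : Om n) : Prop :=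
  ∃ t ≤ B, g ℓ ω (qr A (g ℓ ω) t) = ℓ

/-- `t` is the first time at which the truncated run has level `ℓ` -/
def First (A : DAlg n) (ℓ : ℕ) (ω : Om n) (t : ℕ) : Prop :=
  g ℓ ω (qr A (g ℓ ω) t) = ℓ ∧ ∀ i < t, g ℓ ω (qr A (g ℓ ω) i) < ℓ

lemma Reach.first {A : DAlg n} {ℓ B : ℕ} {ω : Om n} (h : Reach A ℓ B ω) :
    ∃ t ≤ B, First A ℓ ω t := by
  classical
  obtain ⟨t, ht, h⟩ := h
  have hex : ∃ t, g ℓ ω (qr A (g ℓ ω) t) = ℓ := ⟨t, h⟩
  refine ⟨Nat.find hex, (Nat.find_min' hex h).trans ht, Nat.find_spec hex, ?_⟩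
  intro i hi
  exact lt_of_le_of_ne (g_le _ _ _) (Nat.find_min hex hi)

/-- the level-`ℓ` queries in the window starting at `t0` -/
def Win (A : DAlg n) (ℓ T : ℕ) (ω : Om n) (t0 : ℕ) : Set (X n) :=
  {y | ∃ j, t0 ≤ j ∧ j < t0 + T ∧ y = qr A (g ℓ ω) j ∧ g ℓ ω y = ℓ}

/-- bad instances -/
def Bad (A : DAlg n) (ℓ B T u : ℕ) (ω : Om n) : Prop :=
  ∃ t0 ≤ B, u ≤ (UsS (Win A ℓ T ω t0)).card

lemma Bad.ev {A : DAlg n} {ℓ B T u : ℕ} {ω : Om n} (h : Bad A ℓ B T u ω) :
    ∃ s ≤ B, ∃ x : X n, Ev ℓ u (startDT A T s x) [] ω := by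
  obtain ⟨t0, ht0, h⟩ := h
  rcases Nat.eq_zero_or_pos t0 with h0 | h0
  · refine ⟨0, Nat.zero_le _, st A (g ℓ ω) 0, Ev_startDT A ℓ u ω T 0 ?_⟩
    refine h.trans (Finset.card_le_card (UsS_mono ?_))
    rintro y ⟨j, h1, h2, h3, h4⟩
    rcases Nat.eq_zero_or_pos j with hj | hj
    · left
      rw [hj] at h3
      exact ⟨h3, h4⟩
    · right
      exact ⟨j, hj, by omega, h3, h4⟩
  · refine ⟨t0 - 1, by omega, st A (g ℓ ω) (t0 - 1), Ev_startDT A ℓ u ω T (t0 - 1) ?_⟩
    refine h.trans (Finset.card_le_card (UsS_mono ?_))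
    rintro y ⟨j, h1, h2, h3, h4⟩
    right
    exact ⟨j, by omega, by omega, h3, h4⟩

/-- the real run stays at level exactly `ℓ` for `T` steps after first reaching it -/
def Good (A : DAlg n) (ℓ B T : ℕ) (ω : Om n) : Prop :=
  ∃ t0 ≤ B, (∀ i < t0, lo ω (qr A (lo ω) i) < ℓ) ∧ lo ω (qr A (lo ω) t0) = ℓ ∧
    ∀ i, t0 ≤ i → i < t0 + T → lo ω (qr A (lo ω) i) ≤ ℓ

/-- truncated values depend on the first `ℓ` slots only -/
lemma g_congr {ℓ : ℕ} (hℓ : ℓ ≤ n) {ω ω' : Om n}
    (h : ∀ i : Fin n, (i : ℕ) < ℓ → ∀ y : X n, ag ω y i ↔ ag ω' y i) : g ℓ ω = g ℓ ω' := by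
  funext y
  have h1 := g_le ℓ ω' y
  apply g_eq_of hℓ h1
  · intro i hi
    exact (h i (lt_of_lt_of_le hi h1) y).2 (ag_of_g rfl i hi)
  · intro i hi hlt h2
    rw [h i (by omega) y] at h2
    exact not_ag_of_g (ℓ := ℓ) (y := y) (ω := ω') hi.symm (by omega) h2

/-- the resampling map -/
def resamp (lf j : Fin n) (b : Bool) (ω : Om n) : Om n :=
  (Function.update ω.1 (ω.2 j) b, ω.2 * Equiv.swap lf j)

lemma resamp_slot_l (lf j : Fin n) (b : Bool) (ω : Om n) : (resamp lf j b ω).2 lf = ω.2 j := by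
  simp [resamp, Equiv.Perm.mul_apply]

lemma resamp_ag (lf j : Fin n) (hj : lf ≤ j) (b : Bool) (ω : Om n) (i : Fin n) (hi : i < lf)
    (y : X n) : ag ω y i ↔ ag (resamp lf j b ω) y i := by
  unfold ag resamp
  simp only [Equiv.Perm.mul_apply]
  have h1 : i ≠ lf := ne_of_lt hi
  have h2 : i ≠ j := ne_of_lt (lt_of_lt_of_le hi hj)
  rw [Equiv.swap_apply_of_ne_of_ne h1 h2, Function.update_of_ne]
  exact fun h => h2 (ω.2.injective h)

lemma resamp_good (A : DAlg n) (B T : ℕ) (hT : 0 < T) (lf j : Fin n) (hj : lf ≤ j) (ω : Om n)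
    (t0 : ℕ) (ht0 : t0 ≤ B) (hF : First A lf ω t0)
    (hjU : ω.2 j ∉ UsS (Win A lf T ω t0)) :
    Good A lf B T (resamp lf j (!(qr A (g lf ω) t0 (ω.2 j))) ω) := by
  set b := !(qr A (g lf ω) t0 (ω.2 j)) with hb
  set ω' := resamp lf j b ω with hω'
  have hg : g (lf : ℕ) ω = g (lf : ℕ) ω' :=
    g_congr lf.2.le (fun i hi y => resamp_ag lf j hj b ω i hi y)
  -- the key: real values equal truncated values up to t0 + T - 1
  have key : ∀ i < t0 + T, g (lf : ℕ) ω (qr A (g lf ω) i) = lo ω' (qr A (g lf ω) i) := by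
    intro i hi
    rcases lt_or_eq_of_le (g_le lf ω (qr A (g lf ω) i)) with h1 | h1
    · rw [hg] at h1 ⊢
      unfold g at h1 ⊢
      omega
    · have hti : t0 ≤ i := by
        by_contra hcon
        have := hF.2 i (by omega)
        omega
      have hmem : qr A (g lf ω) i ∈ Win A lf T ω t0 := ⟨i, hti, hi, rfl, h1⟩
      have hmem0 : qr A (g lf ω) t0 ∈ Win A lf T ω t0 := ⟨t0, le_rfl, by omega, rfl, hF.1⟩
      have heq : qr A (g lf ω) i (ω.2 j) = qr A (g lf ω) t0 (ω.2 j) := by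
        by_contra hne
        apply hjU
        rw [mem_UsS]
        exact ⟨_, hmem, _, hmem0, hne⟩
      have h2 : ¬ ag ω' (qr A (g lf ω) i) lf := by
        unfold ag
        rw [hω', resamp_slot_l, heq]
        simp [resamp, hb]
      have h3 : ¬ ((lf : ℕ) < lo ω' (qr A (g lf ω) i)) := by
        rw [lt_lo_iff]
        intro h
        exact h2 (h lf le_rfl)
      rw [h1]
      have h4 : g (lf : ℕ) ω' (qr A (g lf ω) i) = lf := by rw [← hg]; exact h1
      rw [g_eq_top_iff] at h4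
      omega
  have hrun : ∀ i < t0 + T, qr A (g lf ω) i = qr A (lo ω') i := by
    intro i hi
    exact (coincide A (g lf ω) (lo ω') i (fun k hk => key k (by omega))).2.1
  refine ⟨t0, ht0, ?_, ?_, ?_⟩
  · intro i hi
    rw [← hrun i (by omega), ← key i (by omega)]
    exact hF.2 i hi
  · rw [← hrun t0 (by omega), ← key t0 (by omega)]
    exact hF.1
  · intro i _ hi
    rw [← hrun i hi, ← key i hi]
    exact g_le _ _ _

open Classical in
lemma good_count (A : DAlg n) (B T u : ℕ) (hT : 0 < T) (lf : Fin n) :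
    (n - lf - u) * (Finset.univ.filter (fun ω : Om n => Reach A lf B ω ∧ ¬ Bad A lf B T u ω)).card
      ≤ 2 * (n - lf) * (Finset.univ.filter (fun ω : Om n => Good A lf B T ω)).card := by
  set RB := Finset.univ.filter (fun ω : Om n => Reach A lf B ω ∧ ¬ Bad A lf B T u ω) with hRB
  set GD := Finset.univ.filter (fun ω : Om n => Good A lf B T ω) with hGD
  -- choose the first time
  have hchoice : ∀ ω : Om n, ∃ t0 : ℕ, Reach A lf B ω → t0 ≤ B ∧ First A lf ω t0 := by
    intro ω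
    by_cases h : Reach A lf B ω
    · obtain ⟨t, h1, h2⟩ := h.first
      exact ⟨t, fun _ => ⟨h1, h2⟩⟩
    · exact ⟨0, fun h' => absurd h' h⟩
  choose t0 ht0 using hchoice
  let Sj : Fin n → Finset (Om n) := fun j => RB.filter (fun ω => ω.2 j ∉ UsS (Win A lf T ω (t0 ω)))
  have h1 : ∀ j : Fin n, lf ≤ j → (Sj j).card ≤ 2 * GD.card := by
    intro j hj
    have : (GD ×ˢ (Finset.univ : Finset Bool)).card = 2 * GD.card := by
      rw [Finset.card_product]; simp [mul_comm]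
    rw [← this]
    apply Finset.card_le_card_of_injOn
      (fun ω => (resamp lf j (!(qr A (g lf ω) (t0 ω) (ω.2 j))) ω, ω.1 (ω.2 j)))
    · intro ω hω
      rw [Finset.mem_coe, mem_filter, hRB, mem_filter] at hω
      obtain ⟨⟨_, hR, _⟩, hU⟩ := hω
      rw [Finset.mem_coe, mem_product, hGD, mem_filter]
      obtain ⟨h2, h3⟩ := ht0 ω hR
      exact ⟨⟨mem_univ _, resamp_good A B T hT lf j hj ω (t0 ω) h2 h3 hU⟩, mem_univ _⟩
    · intro ω _ ω' _ h
      simp only [resamp, Prod.mk.injEq] at h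
      obtain ⟨⟨h2, h3⟩, h4⟩ := h
      have h5 : ω.2 = ω'.2 := mul_right_cancel h3
      refine Prod.ext ?_ h5
      funext a
      by_cases ha : a = ω.2 j
      · rw [ha, h4, h5]
      · have := congrFun h2 a
        rw [Function.update_of_ne ha, Function.update_of_ne (by rw [← h5]; exact ha)] at this
        exact this
  have htop : (Finset.univ.filter (fun j : Fin n => lf ≤ j)).card = n - lf := by
    have : (Finset.univ.filter (fun j : Fin n => lf ≤ j)) = Finset.Ici lf := by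
      ext j; simp
    rw [this, Fin.card_Ici]
  have h2 : ∑ j ∈ Finset.univ.filter (fun j : Fin n => lf ≤ j), (Sj j).card
      ≤ 2 * (n - lf) * GD.card := by
    calc _ ≤ ∑ j ∈ Finset.univ.filter (fun j : Fin n => lf ≤ j), 2 * GD.card := by
          apply Finset.sum_le_sum
          intro j hj
          rw [mem_filter] at hj
          exact h1 j hj.2
      _ = _ := by rw [Finset.sum_const, htop, smul_eq_mul]; ring
  refine le_trans ?_ h2
  have h3 : ∑ j ∈ Finset.univ.filter (fun j : Fin n => lf ≤ j), (Sj j).card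
      = ∑ ω ∈ RB, ((Finset.univ.filter (fun j : Fin n => lf ≤ j)).filter
          (fun j => ω.2 j ∉ UsS (Win A lf T ω (t0 ω)))).card := by
    simp only [Sj, Finset.card_filter]
    rw [Finset.sum_comm]
  rw [h3, mul_comm, ← smul_eq_mul, ← Finset.sum_const]
  apply Finset.sum_le_sum
  intro ω hω
  rw [hRB, mem_filter] at hω
  obtain ⟨_, hR, hB⟩ := hω
  obtain ⟨h4, h5⟩ := ht0 ω hR
  have h6 : (UsS (Win A lf T ω (t0 ω))).card < u := by
    by_contra hcon
    push Not at hcon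
    exact hB ⟨t0 ω, h4, hcon⟩
  have h7 := Finset.card_filter_add_card_filter_not
    (s := Finset.univ.filter (fun j : Fin n => lf ≤ j))
    (fun j => ω.2 j ∈ UsS (Win A lf T ω (t0 ω)))
  rw [htop] at h7
  have h8 : ((Finset.univ.filter (fun j : Fin n => lf ≤ j)).filter
      (fun j => ω.2 j ∈ UsS (Win A lf T ω (t0 ω)))).card ≤ (UsS (Win A lf T ω (t0 ω))).card := by
    apply Finset.card_le_card_of_injOn (fun j => ω.2 j)
    · intro j hj
      rw [Finset.mem_coe, mem_filter] at hj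
      exact hj.2
    · intro j _ j' _ h
      exact ω.2.injective h
  omega

end Pool.Agent.H683R2.LO
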