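import Mathlib
import Pool.Agent.H683R2.LoE

set_option autoImplicit false

namespace Pool.Agent.H683R2.LO

open Finset

variable {n : ℕ}

lemma card_Om (n : ℕ) : (Fintype.card (Om n) : ℝ) = M n 0 := by
  unfold M
  rw [Fintype.card_prod, Fintype.card_fun, Fintype.card_bool, Fintype.card_perm, Fintype.card_fin]
  push_cast
  simp

def H0 (n : ℕ) : Hist n := ⟨[], ∅, id⟩

lemma H0_inv (n ℓ : ℕ) : (H0 n).Inv ℓ := by
  constructor
  · intro p hp; simp [H0] at hp
  · intro i hi; simp [H0] at hi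

lemma H0_S (n ℓ : ℕ) : (H0 n).S ℓ = Finset.univ := by
  unfold Hist.S H0
  simp

lemma H0_pot (n ℓ : ℕ) {p : ℝ} : (H0 n).pot ℓ p = M n 0 := by
  unfold Hist.pot
  rw [H0_S, Finset.card_univ, card_Om]
  have : (H0 n).R.card = 0 := by simp [H0]
  rw [this, ← Real.rpow_add (M_pos n 0)]
  simp

open Classical in
lemma bad_count (A : DAlg n) {ℓ B T u : ℕ} (hℓ : ℓ ≤ n) {p : ℝ} (hp : 0 < p) (hp1 : p ≤ 1)
    {θ : ℝ} (hθ0 : 0 ≤ θ)
    (hleaf : ∀ H : Hist n, H.Inv ℓ → H.R.card ≤ T + 1 → u ≤ (Us (H.Y ℓ)).card →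
      ((H.S ℓ).card : ℝ) ≤ H.pot ℓ p * θ) :
    ((Finset.univ.filter (fun ω : Om n => Bad A ℓ B T u ω)).card : ℝ) ≤
      (B + 1) * 2 ^ n * ((1 / p) ^ (T + 1) * M n 0 * θ) := by
  have hsub : (Finset.univ.filter (fun ω : Om n => Bad A ℓ B T u ω)) ⊆
      (Finset.range (B + 1)).biUnion (fun s => (Finset.univ : Finset (X n)).biUnion (fun x =>
        Finset.univ.filter (fun ω : Om n => Ev ℓ u (startDT A T s x) [] ω))) := by
    intro ω hω
    rw [mem_filter] at hω
    obtain ⟨s, hs, x, h⟩ := hω.2.ev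
    rw [mem_biUnion]
    refine ⟨s, by rw [mem_range]; omega, ?_⟩
    rw [mem_biUnion]
    exact ⟨x, mem_univ _, by rw [mem_filter]; exact ⟨mem_univ _, h⟩⟩
  have h1 : ∀ s : ℕ, ∀ x : X n,
      ((Finset.univ.filter (fun ω : Om n => Ev ℓ u (startDT A T s x) [] ω)).card : ℝ) ≤
        (1 / p) ^ (T + 1) * M n 0 * θ := by
    intro s x
    have := main_pot (n := n) (u := u) (T' := T + 1) hℓ hp hp1 hθ0 hleaf (startDT A T s x) (T + 1)
      (H0 n) (H0_inv n ℓ) (startDT_dep A T s x) (by simp [H0])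
    rw [H0_S, H0_pot] at this
    exact this
  have h2 := Finset.card_le_card hsub
  have h3 : ((Finset.univ.filter (fun ω : Om n => Bad A ℓ B T u ω)).card : ℝ) ≤
      ∑ s ∈ Finset.range (B + 1), ∑ x : X n,
        ((Finset.univ.filter (fun ω : Om n => Ev ℓ u (startDT A T s x) [] ω)).card : ℝ) := by
    have h4 := h2.trans Finset.card_biUnion_le
    have h5 : ∑ s ∈ Finset.range (B + 1), ((Finset.univ : Finset (X n)).biUnion (fun x =>
        Finset.univ.filter (fun ω : Om n => Ev ℓ u (startDT A T s x) [] ω))).card ≤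
        ∑ s ∈ Finset.range (B + 1), ∑ x : X n,
        (Finset.univ.filter (fun ω : Om n => Ev ℓ u (startDT A T s x) [] ω)).card := by
      apply Finset.sum_le_sum
      intro s _
      exact Finset.card_biUnion_le
    exact_mod_cast h4.trans h5
  refine h3.trans ?_
  calc _ ≤ ∑ s ∈ Finset.range (B + 1), ∑ x : X n, (1 / p) ^ (T + 1) * M n 0 * θ :=
        Finset.sum_le_sum (fun s _ => Finset.sum_le_sum (fun x _ => h1 s x))
    _ = _ := by
      rw [Finset.sum_const, Finset.sum_const, Finset.card_univ, Finset.card_range,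
        Fintype.card_fun, Fintype.card_bool, Fintype.card_fin]
      simp only [nsmul_eq_mul]
      push_cast
      ring

/-- the numeric leaf inequality -/
lemma leaf_num {n w k r : ℕ} (hk : k ≤ 64 * w) (_hw : 1 ≤ w) (hn : 2 ^ 14 * w ≤ n) (hr : r ≤ w) :
    2 ^ (n + 47 * w) * (2 ^ k * (k ^ (16 * w) * (n - r - 16 * w).factorial))
      ≤ 2 ^ (n - r) * (n - r).factorial := by
  obtain ⟨m, hm⟩ : ∃ m, n - r - 16 * w = m := ⟨_, rfl⟩
  have hnr : n - r = m + 16 * w := by omega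
  rw [hm, hnr]
  have h1 := Nat.factorial_mul_pow_le_factorial (m := m) (n := 16 * w)
  have h2 : 2 ^ 7 * k ≤ m + 1 := by omega
  have h3 : (2 ^ 7 * k) ^ (16 * w) ≤ (m + 1) ^ (16 * w) := Nat.pow_le_pow_left h2 _
  have h4 : (2 ^ 7 * k) ^ (16 * w) = 2 ^ (112 * w) * k ^ (16 * w) := by
    rw [mul_pow, ← pow_mul]
    congr 2
    ring
  calc 2 ^ (n + 47 * w) * (2 ^ k * (k ^ (16 * w) * m.factorial))
      = 2 ^ (n + 47 * w + k) * (k ^ (16 * w) * m.factorial) := by
        rw [← mul_assoc, ← pow_add]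
    _ ≤ 2 ^ (m + 16 * w + 112 * w) * (k ^ (16 * w) * m.factorial) := by
        apply Nat.mul_le_mul_right
        apply Nat.pow_le_pow_right (by norm_num)
        omega
    _ = 2 ^ (m + 16 * w) * (m.factorial * (2 ^ (112 * w) * k ^ (16 * w))) := by
        rw [pow_add 2 (m + 16 * w)]; ring
    _ ≤ 2 ^ (m + 16 * w) * (m.factorial * (m + 1) ^ (16 * w)) := by
        apply Nat.mul_le_mul_left
        apply Nat.mul_le_mul_left
        rw [← h4]; exact h3
    _ ≤ 2 ^ (m + 16 * w) * (m + 16 * w).factorial := Nat.mul_le_mul_left _ h1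

noncomputable def pp : ℝ := 1 / 2 ^ 11

noncomputable def th (n w : ℕ) : ℝ := (1 / 2 ^ (n + 47 * w) : ℝ) ^ (1 - pp)

lemma leaf_ok {n w ℓ : ℕ} (hℓ : ℓ ≤ n) (hk : n - ℓ ≤ 64 * w) (hw : 1 ≤ w) (hn : 2 ^ 14 * w ≤ n)
    (H : Hist n) (hI : H.Inv ℓ) (hR : H.R.card ≤ w) (hU : 16 * w ≤ (Us (H.Y ℓ)).card) :
    ((H.S ℓ).card : ℝ) ≤ H.pot ℓ pp * th n w := by
  have h1 := leaf_count hℓ (by omega) hI hU
  have h2 := leaf_num (k := n - ℓ) hk hw hn hR
  have hM := M_pos n H.R.card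
  have h3 : ((H.S ℓ).card : ℝ) ≤ M n H.R.card * (1 / 2 ^ (n + 47 * w)) := by
    rw [mul_one_div, le_div_iff₀ (by positivity), mul_comm]
    unfold M
    calc (2 : ℝ) ^ (n + 47 * w) * ((H.S ℓ).card : ℝ) ≤ 2 ^ (n + 47 * w) *
          ((2 ^ (n - ℓ) * ((n - ℓ) ^ (16 * w) * (n - H.R.card - 16 * w).factorial) : ℕ) : ℝ) := by
          apply mul_le_mul_of_nonneg_left _ (by positivity)
          exact_mod_cast h1
      _ ≤ _ := by exact_mod_cast h2
  have hpp : (0 : ℝ) < 1 - pp := by unfold pp; norm_num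
  have hpp0 : (0 : ℝ) < pp := by unfold pp; norm_num
  have hS0 : (0 : ℝ) ≤ ((H.S ℓ).card : ℝ) := Nat.cast_nonneg _
  unfold Hist.pot th
  rw [mul_assoc, ← Real.mul_rpow hM.le (by positivity)]
  rcases eq_or_lt_of_le hS0 with h | h
  · rw [← h, Real.zero_rpow hpp0.ne']; simp
  · calc ((H.S ℓ).card : ℝ) = ((H.S ℓ).card : ℝ) ^ pp * ((H.S ℓ).card : ℝ) ^ (1 - pp) := by
          rw [← Real.rpow_add h]; simp
      _ ≤ _ := by
          apply mul_le_mul_of_nonneg_left _ (Real.rpow_nonneg hS0 _)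
          exact Real.rpow_le_rpow hS0 h3 hpp.le

lemma th_nonneg (n w : ℕ) : 0 ≤ th n w := by unfold th; positivity

lemma th_bound {n w : ℕ} (hw : 2 ≤ w) (hn' : n < 2 ^ 14 * (w + 1)) :
    ((n ^ 2 : ℕ) + 1 : ℝ) * 2 ^ n * ((1 / pp) ^ w * th n w) ≤ 1 / 4 := by
  have h1 : th n w = 2 ^ (-((n + 47 * w : ℕ) : ℝ) * (1 - pp)) := by
    unfold th
    rw [Real.rpow_mul (by norm_num), Real.rpow_neg (by norm_num), Real.rpow_natCast, one_div]
  have h2 : -((n + 47 * w : ℕ) : ℝ) * (1 - pp) ≤ -((n + 38 * w : ℕ) : ℝ) + 8 := by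
    have hn2 : (n : ℝ) < 2 ^ 14 * (w + 1) := by exact_mod_cast hn'
    unfold pp
    push_cast
    have hw0 : (0 : ℝ) ≤ w := Nat.cast_nonneg _
    norm_num at hn2 ⊢
    nlinarith
  have h3 : th n w ≤ 2 ^ 8 / 2 ^ (n + 38 * w) := by
    rw [h1]
    calc (2 : ℝ) ^ (-((n + 47 * w : ℕ) : ℝ) * (1 - pp)) ≤
          2 ^ (-((n + 38 * w : ℕ) : ℝ) + 8) := by
          apply Real.rpow_le_rpow_of_exponent_le (by norm_num) h2
      _ = 2 ^ 8 / 2 ^ (n + 38 * w) := by
          rw [Real.rpow_add (by norm_num), Real.rpow_neg (by norm_num), Real.rpow_natCast]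
          norm_num
          ring
  have h4 : (1 / pp) ^ w = 2 ^ (11 * w) := by
    unfold pp
    rw [one_div_one_div, ← pow_mul]
  have h5 : (n ^ 2 + 1 : ℕ) * 2 ^ 10 ≤ 2 ^ (27 * w) := by
    have h6 : w + 1 ≤ 2 ^ w := Nat.lt_two_pow_self
    have h7 : n ^ 2 + 1 ≤ (2 ^ 14 * (w + 1)) ^ 2 := by
      have h8 : n + 1 ≤ 2 ^ 14 * (w + 1) := hn'
      calc n ^ 2 + 1 ≤ (n + 1) ^ 2 := by nlinarith
        _ ≤ _ := Nat.pow_le_pow_left h8 2
    calc (n ^ 2 + 1) * 2 ^ 10 ≤ (2 ^ 14 * (w + 1)) ^ 2 * 2 ^ 10 := Nat.mul_le_mul_right _ h7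
      _ ≤ (2 ^ 14 * 2 ^ w) ^ 2 * 2 ^ 10 := by
          apply Nat.mul_le_mul_right
          apply Nat.pow_le_pow_left
          exact Nat.mul_le_mul_left _ h6
      _ = 2 ^ (38 + 2 * w) := by
          rw [mul_pow, ← pow_mul, ← pow_mul, mul_right_comm, ← pow_add, ← pow_add]
          congr 1; ring
      _ ≤ 2 ^ (27 * w) := Nat.pow_le_pow_right (by norm_num) (by omega)
  have h6 : ((n ^ 2 : ℕ) + 1 : ℝ) * 2 ^ 10 ≤ 2 ^ (27 * w) := by exact_mod_cast h5
  have h8 : (0 : ℝ) < 2 ^ (27 * w) := by positivity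
  calc ((n ^ 2 : ℕ) + 1 : ℝ) * 2 ^ n * ((1 / pp) ^ w * th n w)
      ≤ ((n ^ 2 : ℕ) + 1 : ℝ) * 2 ^ n * (2 ^ (11 * w) * (2 ^ 8 / 2 ^ (n + 38 * w))) := by
        rw [h4]
        gcongr
    _ = (((n ^ 2 : ℕ) + 1 : ℝ) * 2 ^ 10) / 2 ^ (27 * w) / 4 := by
        have : n + 38 * w = n + 11 * w + 27 * w := by ring
        rw [this, pow_add, pow_add]
        field_simp
        ring
    _ ≤ 1 / 4 := by
        have : (((n ^ 2 : ℕ) + 1 : ℝ) * 2 ^ 10) / 2 ^ (27 * w) ≤ 1 := by
          rw [div_le_one h8]; exact h6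
        linarith

open Classical in
lemma bad_quarter (A : DAlg n) {w ℓ : ℕ} (hℓ : ℓ ≤ n) (hk : n - ℓ ≤ 64 * w) (hw : 2 ≤ w)
    (hn : 2 ^ 14 * w ≤ n) (hn' : n < 2 ^ 14 * (w + 1)) :
    ((Finset.univ.filter (fun ω : Om n => Bad A ℓ (n ^ 2) (w - 1) (16 * w) ω)).card : ℝ) ≤
      M n 0 / 4 := by
  have hww : w - 1 + 1 = w := by omega
  have h1 := bad_count A (ℓ := ℓ) (B := n ^ 2) (T := w - 1) (u := 16 * w) hℓ
    (p := pp) (by unfold pp; norm_num) (by unfold pp; norm_num) (th_nonneg n w)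
    (by
      intro H hI hR hU
      rw [hww] at hR
      exact leaf_ok hℓ hk (by omega) hn H hI hR hU)
  rw [hww] at h1
  refine h1.trans ?_
  have h2 := th_bound (n := n) hw hn'
  have hM := M_pos n 0
  push_cast at h2 ⊢
  calc ((n : ℝ) ^ 2 + 1) * 2 ^ n * ((1 / pp) ^ w * M n 0 * th n w)
      = (((n : ℝ) ^ 2 + 1) * 2 ^ n * ((1 / pp) ^ w * th n w)) * M n 0 := by ring
    _ ≤ (1 / 4) * M n 0 := mul_le_mul_of_nonneg_right h2 hM.le
    _ = _ := by ring

/-! ### counting the time -/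

open Classical in
/-- number of times `t < Hz` at which the target has not been queried -/
noncomputable def cnt (A : DAlg n) (Hz : ℕ) (ω : Om n) : ℕ :=
  ((Finset.range Hz).filter (fun t => ∀ i ≤ t, qr A (lo ω) i ≠ ω.1)).card

open Classical in
lemma cnt_ge (A : DAlg n) (B T : ℕ) (ω : Om n) (Rg : Finset (Fin n)) :
    T * (Rg.filter (fun lf : Fin n => Good A lf B T ω)).card ≤ cnt A (B + T) ω := by
  set q := qr A (lo ω) with hq
  let c : Fin n → ℕ → Prop := fun lf t => (∀ i ≤ t, lo ω (q i) ≤ lf) ∧ ∃ i ≤ t, lo ω (q i) = lf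
  have h1 : ∀ lf : Fin n, Good A lf B T ω → T ≤ ((Finset.range (B + T)).filter (c lf)).card := by
    rintro lf ⟨t0, ht0, h2, h3, h4⟩
    have : (Finset.Ico t0 (t0 + T)) ⊆ ((Finset.range (B + T)).filter (c lf)) := by
      intro t ht
      rw [Finset.mem_Ico] at ht
      rw [mem_filter, mem_range]
      refine ⟨by omega, ?_, t0, ht.1, h3⟩
      intro i hi
      rcases Nat.lt_or_ge i t0 with h5 | h5
      · exact (h2 i h5).le
      · exact h4 i h5 (by omega)
    have h6 := Finset.card_le_card this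
    rw [Nat.card_Ico] at h6
    omega
  have h2 : T * (Rg.filter (fun lf : Fin n => Good A lf B T ω)).card ≤
      ∑ lf ∈ Rg, ((Finset.range (B + T)).filter (c lf)).card := by
    rw [mul_comm, ← smul_eq_mul, ← Finset.sum_const]
    calc _ ≤ ∑ lf ∈ Rg.filter (fun lf : Fin n => Good A lf B T ω),
          ((Finset.range (B + T)).filter (c lf)).card := by
          apply Finset.sum_le_sum
          intro lf hlf
          rw [mem_filter] at hlf
          exact h1 lf hlf.2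
      _ ≤ _ := Finset.sum_le_sum_of_subset (Finset.filter_subset _ _)
  refine h2.trans ?_
  unfold cnt
  simp only [Finset.card_filter]
  rw [Finset.sum_comm]
  apply Finset.sum_le_sum
  intro t _
  rw [← Finset.card_filter]
  by_cases hne : (Rg.filter (fun lf => c lf t)).Nonempty
  · obtain ⟨lf, hlf⟩ := hne
    rw [mem_filter] at hlf
    have h3 : ∀ i ≤ t, q i ≠ ω.1 := by
      intro i hi h
      have h4 := hlf.2.1 i hi
      rw [(lo_eq_n_iff ω (q i)).2 h] at h4
      have := lf.2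
      omega
    rw [if_pos h3, Finset.card_le_one]
    intro a ha b hb
    rw [mem_filter] at ha hb
    obtain ⟨_, ha1, i, hi, hai⟩ := ha
    obtain ⟨_, hb1, j, hj, hbj⟩ := hb
    have h5 := ha1 j hj
    have h6 := hb1 i hi
    apply Fin.ext
    omega
  · rw [Finset.not_nonempty_iff_eq_empty] at hne
    rw [hne]
    simp

open Classical in
lemma notReach_cnt (A : DAlg n) (ℓ B T : ℕ) (hℓ : ℓ ≤ n) (ω : Om n) (h : ¬ Reach A ℓ B ω) :
    B ≤ cnt A (B + T) ω := by
  have hlt : ∀ t ≤ B, g ℓ ω (qr A (g ℓ ω) t) < ℓ := by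
    intro t ht
    refine lt_of_le_of_ne (g_le _ _ _) ?_
    intro h'
    exact h ⟨t, ht, h'⟩
  have heq : ∀ t ≤ B, g ℓ ω (qr A (g ℓ ω) t) = lo ω (qr A (g ℓ ω) t) := by
    intro t ht
    have := hlt t ht
    unfold g at this ⊢
    omega
  have hrun : ∀ t ≤ B, qr A (g ℓ ω) t = qr A (lo ω) t := by
    intro t ht
    exact (coincide A (g ℓ ω) (lo ω) t (fun k hk => heq k (by omega))).2.1
  unfold cnt
  have : Finset.range B ⊆ (Finset.range (B + T)).filter
      (fun t => ∀ i ≤ t, qr A (lo ω) i ≠ ω.1) := by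
    intro t ht
    rw [mem_range] at ht
    rw [mem_filter, mem_range]
    refine ⟨by omega, ?_⟩
    intro i hi hcon
    have h1 := hlt i (by omega)
    rw [heq i (by omega), hrun i (by omega), hcon, (lo_eq_n_iff ω ω.1).2 rfl] at h1
    omega
  have h2 := Finset.card_le_card this
  rwa [Finset.card_range] at h2

open Classical in
theorem det_main (A : DAlg n) {w : ℕ} (hw : 2 ≤ w) (hn : 2 ^ 14 * w ≤ n)
    (hn' : n < 2 ^ 14 * (w + 1)) :
    (1 / 2 ^ 29 : ℝ) * n ^ 2 * (Fintype.card (Om n)) ≤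
      ((∑ ω : Om n, cnt A (n ^ 2 + (w - 1)) ω : ℕ) : ℝ) := by
  set S := ∑ ω : Om n, cnt A (n ^ 2 + (w - 1)) ω with hS
  set O := (Fintype.card (Om n) : ℝ) with hO
  have hOM : O = M n 0 := card_Om n
  have hOpos : 0 < O := by rw [hOM]; exact M_pos n 0
  let Rg : Finset (Fin n) := Finset.univ.filter (fun lf : Fin n => n - 64 * w ≤ (lf : ℕ) ∧
    (lf : ℕ) < n - 32 * w)
  have hRg : Rg.card = 32 * w := by
    have h1 : Rg = Finset.univ.filter (fun lf : Fin n => (lf : ℕ) ∈ Finset.Ico (n - 64 * w) (n - 32 * w)) := by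
      ext lf; simp [Rg]
    rw [h1]
    have h2 : (Finset.univ.filter (fun lf : Fin n => (lf : ℕ) ∈ Finset.Ico (n - 64 * w) (n - 32 * w))).card
        = (Finset.Ico (n - 64 * w) (n - 32 * w)).card := by
      apply Finset.card_nbij (fun lf : Fin n => (lf : ℕ))
      · intro lf hlf
        rw [Finset.mem_coe, mem_filter] at hlf
        exact hlf.2
      · intro a _ b _ h
        exact Fin.ext h
      · intro m hm
        rw [Finset.mem_coe, Finset.mem_Ico] at hm
        exact ⟨⟨m, by omega⟩, by rw [Finset.mem_coe, mem_filter]; exact ⟨mem_univ _, by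
          rw [Finset.mem_Ico]; exact hm⟩, rfl⟩
    rw [h2, Nat.card_Ico]
    omega
  -- sum of good counts
  have hgood : (w - 1) * ∑ lf ∈ Rg,
      (Finset.univ.filter (fun ω : Om n => Good A lf (n ^ 2) (w - 1) ω)).card ≤ S := by
    have h1 : ∑ lf ∈ Rg, (Finset.univ.filter (fun ω : Om n => Good A lf (n ^ 2) (w - 1) ω)).card
        = ∑ ω : Om n, (Rg.filter (fun lf : Fin n => Good A lf (n ^ 2) (w - 1) ω)).card := by
      simp only [Finset.card_filter]
      rw [Finset.sum_comm]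
    rw [h1, Finset.mul_sum, hS]
    exact Finset.sum_le_sum (fun ω _ => cnt_ge A (n ^ 2) (w - 1) ω Rg)
  -- per level bound
  have hlevel : ∀ lf ∈ Rg, (3 / 4 * O - (S : ℝ) / n ^ 2) / 4 ≤
      ((Finset.univ.filter (fun ω : Om n => Good A lf (n ^ 2) (w - 1) ω)).card : ℝ) := by
    intro lf hlf
    rw [mem_filter] at hlf
    obtain ⟨_, hl1, hl2⟩ := hlf
    have hbad := bad_quarter A (w := w) (ℓ := lf) lf.2.le (by omega) hw hn hn'
    have hgc := good_count A (n ^ 2) (w - 1) (16 * w) (by omega) lf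
    set RB := Finset.univ.filter
      (fun ω : Om n => Reach A lf (n ^ 2) ω ∧ ¬ Bad A lf (n ^ 2) (w - 1) (16 * w) ω) with hRB
    set GD := Finset.univ.filter (fun ω : Om n => Good A lf (n ^ 2) (w - 1) ω) with hGD
    set NR := Finset.univ.filter (fun ω : Om n => ¬ Reach A lf (n ^ 2) ω) with hNR
    set BD := Finset.univ.filter (fun ω : Om n => Bad A lf (n ^ 2) (w - 1) (16 * w) ω) with hBD
    have h1 : (RB.card : ℝ) ≤ 4 * GD.card := by
      have h2 : (n - lf) * RB.card ≤ (n - lf) * (4 * GD.card) := by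
        have h3 : n - lf ≤ 2 * (n - lf - 16 * w) := by omega
        calc (n - lf) * RB.card ≤ (2 * (n - lf - 16 * w)) * RB.card := Nat.mul_le_mul_right _ h3
          _ = 2 * ((n - lf - 16 * w) * RB.card) := by ring
          _ ≤ 2 * (2 * (n - lf) * GD.card) := Nat.mul_le_mul_left _ hgc
          _ = _ := by ring
      have h3 : RB.card ≤ 4 * GD.card := Nat.le_of_mul_le_mul_left h2 (by omega)
      exact_mod_cast h3
    have h2 : O ≤ NR.card + BD.card + RB.card := by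
      have h3 : (Finset.univ : Finset (Om n)) ⊆ NR ∪ BD ∪ RB := by
        intro ω _
        by_cases hr : Reach A lf (n ^ 2) ω
        · by_cases hb : Bad A lf (n ^ 2) (w - 1) (16 * w) ω
          · simp only [mem_union]; left; right; rw [hBD, mem_filter]; exact ⟨mem_univ _, hb⟩
          · simp only [mem_union]; right; rw [hRB, mem_filter]; exact ⟨mem_univ _, hr, hb⟩
        · simp only [mem_union]; left; left; rw [hNR, mem_filter]; exact ⟨mem_univ _, hr⟩
      have h4 := (Finset.card_le_card h3).trans ((Finset.card_union_le _ _).trans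
        (Nat.add_le_add_right (Finset.card_union_le _ _) _))
      rw [hO, ← Finset.card_univ]
      exact_mod_cast h4
    have h3 : (NR.card : ℝ) ≤ S / n ^ 2 := by
      rw [le_div_iff₀ (by
        have : 0 < n := by omega
        positivity)]
      have h4 : NR.card * n ^ 2 ≤ S := by
        rw [hS, ← smul_eq_mul, ← Finset.sum_const]
        calc _ ≤ ∑ ω ∈ NR, cnt A (n ^ 2 + (w - 1)) ω := by
              apply Finset.sum_le_sum
              intro ω hω
              rw [hNR, mem_filter] at hω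
              exact notReach_cnt A lf (n ^ 2) (w - 1) lf.2.le ω hω.2
          _ ≤ _ := Finset.sum_le_sum_of_subset (Finset.subset_univ _)
      exact_mod_cast h4
    rw [← hOM] at hbad
    linarith
  have hsum : (32 * w : ℝ) * ((3 / 4 * O - (S : ℝ) / n ^ 2) / 4) ≤ ∑ lf ∈ Rg,
      ((Finset.univ.filter (fun ω : Om n => Good A lf (n ^ 2) (w - 1) ω)).card : ℝ) := by
    have h1 := Finset.sum_le_sum hlevel
    rw [Finset.sum_const, hRg, nsmul_eq_mul] at h1
    push_cast at h1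
    exact h1
  have hfin : ((w - 1 : ℕ) : ℝ) * ((32 * w : ℝ) * ((3 / 4 * O - (S : ℝ) / n ^ 2) / 4)) ≤ S := by
    refine (mul_le_mul_of_nonneg_left hsum (Nat.cast_nonneg _)).trans ?_
    exact_mod_cast hgood
  have hn0 : (0 : ℝ) < n := by
    have : 0 < n := by omega
    exact_mod_cast this
  have hw1 : ((w - 1 : ℕ) : ℝ) = (w : ℝ) - 1 := by
    rw [Nat.cast_sub (by omega)]; simp
  rw [hw1] at hfin
  have hw2 : (2 : ℝ) ≤ w := by exact_mod_cast hw
  have hwn : (n : ℝ) ≤ 2 ^ 15 * w := by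
    have : n ≤ 2 ^ 15 * w := by omega
    exact_mod_cast this
  rcases le_or_gt (O / 4) ((S : ℝ) / n ^ 2) with hc | hc
  · rw [le_div_iff₀ (by positivity)] at hc
    have : (1 / 2 ^ 29 : ℝ) * n ^ 2 * O ≤ O / 4 * n ^ 2 := by
      have : 0 ≤ (n : ℝ) ^ 2 * O := by positivity
      nlinarith
    linarith
  · have h1 : O / 8 ≤ (3 / 4 * O - (S : ℝ) / n ^ 2) / 4 := by linarith
    have h2 : ((w : ℝ) - 1) * ((32 * w : ℝ) * (O / 8)) ≤ S := by
      refine le_trans ?_ hfin
      apply mul_le_mul_of_nonneg_left _ (by linarith)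
      apply mul_le_mul_of_nonneg_left h1 (by linarith)
    have h3 : (w : ℝ) / 2 ≤ w - 1 := by linarith
    have h4 : (2 : ℝ) * w ^ 2 * O ≤ ((w : ℝ) - 1) * ((32 * w : ℝ) * (O / 8)) := by
      have : (2 : ℝ) * w ^ 2 * O = ((w : ℝ) / 2) * ((32 * w : ℝ) * (O / 8)) := by ring
      rw [this]
      apply mul_le_mul_of_nonneg_right h3 (by positivity)
    have h5 : (1 / 2 ^ 29 : ℝ) * n ^ 2 * O ≤ (2 : ℝ) * w ^ 2 * O := by
      apply mul_le_mul_of_nonneg_right _ hOpos.le
      have : (n : ℝ) ^ 2 ≤ (2 ^ 15 * w) ^ 2 := by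
        apply pow_le_pow_left₀ hn0.le hwn
      nlinarith
    linarith

end Pool.Agent.H683R2.LO
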