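import Mathlib
import Pool.Agent.H683R2.LoF

set_option autoImplicit false

namespace Pool.Agent.H683R2.LO

open Finset ENNReal

/-! ### product of PMFs -/

section prod
variable {α β : Type} [Fintype α] [DecidableEq α] [Fintype β]

noncomputable def prodPMF (κ : α → PMF β) : PMF (α → β) :=
  PMF.ofFintype (fun g => ∏ a, κ a (g a)) (by
    have h := Finset.prod_univ_sum (fun _ : α => (Finset.univ : Finset β)) (fun a b => κ a b)
    rw [Fintype.piFinset_univ] at h
    rw [← h]
    apply Finset.prod_eq_one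
    intro a _
    have h2 := (κ a).tsum_coe
    rwa [tsum_fintype] at h2)

lemma prodPMF_map (κ : α → PMF β) (a : α) : (prodPMF κ).map (fun g => g a) = κ a := by
  classical
  apply PMF.ext
  intro b
  rw [PMF.map_apply, tsum_fintype]
  have h1 : ∀ g : α → β, (if b = g a then prodPMF κ g else 0) =
      ∏ a', (if a' = a then (if g a' = b then κ a' (g a') else 0) else κ a' (g a')) := by
    intro g
    have h2 : prodPMF κ g = ∏ a', κ a' (g a') := by
      simp [prodPMF]
    rw [h2]
    split_ifs with h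
    · apply Finset.prod_congr rfl
      intro a' _
      split_ifs with h3 h4
      · rfl
      · exact absurd (by rw [h3]; exact h.symm) h4
      · rfl
    · symm
      apply Finset.prod_eq_zero (Finset.mem_univ a)
      rw [if_pos rfl, if_neg]
      exact fun h' => h h'.symm
  rw [Finset.sum_congr rfl (fun g _ => h1 g)]
  have h := Finset.prod_univ_sum (fun _ : α => (Finset.univ : Finset β))
    (fun a' b' => if a' = a then (if b' = b then κ a' b' else 0) else κ a' b')
  rw [Fintype.piFinset_univ] at h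
  rw [← h]
  rw [Finset.prod_eq_single a]
  · simp
  · intro a' _ ha'
    simp only [ha', if_false]
    have h2 := (κ a').tsum_coe
    rwa [tsum_fintype] at h2
  · intro h'; exact absurd (Finset.mem_univ a) h'

lemma prodPMF_bind {γ : Type} (κ : α → PMF β) (a : α) (h : β → PMF γ) :
    (prodPMF κ).bind (fun g => h (g a)) = (κ a).bind h := by
  rw [← prodPMF_map κ a, PMF.bind_map]
  rfl

end prod

variable {n : ℕ}

abbrev Gt (n : ℕ) := (X n × Fin (n + 1)) → X n
abbrev Kt (n : ℕ) := (X n × Fin (n + 1) × X n × Fin (n + 1)) → Bool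

def cl (n v : ℕ) : Fin (n + 1) := ⟨min v n, by omega⟩

lemma cl_val {v : ℕ} (h : v ≤ n) : ((cl n v : Fin (n + 1)) : ℕ) = v := by
  simp [cl, h]

def detStep (ω : Om n) (s : Gt n × Kt n) (a : X n × Bool) : X n × Bool :=
  if a.2 = true then a else
    (if s.2 (a.1, cl n (lo ω a.1), s.1 (a.1, cl n (lo ω a.1)),
        cl n (lo ω (s.1 (a.1, cl n (lo ω a.1))))) = true
      then s.1 (a.1, cl n (lo ω a.1)) else a.1,
      decide (s.1 (a.1, cl n (lo ω a.1)) = ω.1))

noncomputable def stepPMF (vary : (Fin n → Bool) → ℕ → PMF (Fin n → Bool))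
    (sel : (Fin n → Bool) → ℕ → (Fin n → Bool) → ℕ → PMF Bool) : PMF (Gt n × Kt n) :=
  (prodPMF (fun a : X n × Fin (n + 1) => vary a.1 a.2)).bind (fun G =>
    (prodPMF (fun a : X n × Fin (n + 1) × X n × Fin (n + 1) =>
      sel a.1 a.2.1 a.2.2.1 a.2.2.2)).map (fun K => (G, K)))

noncomputable def stepK (vary : (Fin n → Bool) → ℕ → PMF (Fin n → Bool))
    (sel : (Fin n → Bool) → ℕ → (Fin n → Bool) → ℕ → PMF Bool) (ω : Om n)
    (s : X n × Bool) : PMF (X n × Bool) :=
  if s.2 = true then PMF.pure s else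
    (vary s.1 (lo ω s.1)).bind (fun y =>
      (sel s.1 (lo ω s.1) y (lo ω y)).bind (fun b =>
        PMF.pure (if b = true then y else s.1, decide (y = ω.1))))

lemma stepPMF_map (vary : (Fin n → Bool) → ℕ → PMF (Fin n → Bool))
    (sel : (Fin n → Bool) → ℕ → (Fin n → Bool) → ℕ → PMF Bool) (ω : Om n) (a : X n × Bool) :
    (stepPMF vary sel).map (fun s => detStep ω s a) = stepK vary sel ω a := by
  unfold stepK
  split_ifs with h
  · have : (fun s : Gt n × Kt n => detStep ω s a) = Function.const _ a := by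
      funext s
      simp [detStep, h]
    rw [this, PMF.map_const]
  · unfold stepPMF
    rw [PMF.map_bind]
    have h1 : ∀ G : Gt n, ((prodPMF (fun a : X n × Fin (n + 1) × X n × Fin (n + 1) =>
        sel a.1 a.2.1 a.2.2.1 a.2.2.2)).map (fun K => (G, K))).map (fun s => detStep ω s a)
        = (fun y : X n => (sel a.1 (lo ω a.1) y (lo ω y)).bind (fun b =>
        PMF.pure (if b = true then y else a.1, decide (y = ω.1)))) (G (a.1, cl n (lo ω a.1))) := by
      intro G
      rw [PMF.map_comp]
      have h2 : ((fun s => detStep ω s a) ∘ fun K => (G, K)) =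
          (fun b : Bool => ((if b = true then G (a.1, cl n (lo ω a.1)) else a.1,
            decide (G (a.1, cl n (lo ω a.1)) = ω.1)) : X n × Bool)) ∘ (fun K : Kt n =>
              K (a.1, cl n (lo ω a.1), G (a.1, cl n (lo ω a.1)),
                cl n (lo ω (G (a.1, cl n (lo ω a.1)))))) := by
        funext K
        simp [detStep, h]
      rw [h2, ← PMF.map_comp, prodPMF_map]
      simp only [cl_val (lo_le ω _)]
      rfl
    rw [funext h1]
    refine (prodPMF_bind (fun a : X n × Fin (n + 1) => vary a.1 a.2) (a.1, cl n (lo ω a.1))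
      (fun y : X n => (sel a.1 (lo ω a.1) y (lo ω y)).bind (fun b =>
        PMF.pure (if b = true then y else a.1, decide (y = ω.1))))).trans ?_
    simp only [cl_val (lo_le ω _)]

noncomputable def Dseq (μ : PMF (Gt n × Kt n)) : ℕ → PMF (ℕ → Gt n × Kt n)
  | 0 => PMF.pure (fun _ => (fun a => a.1, fun _ => true))
  | t + 1 => (Dseq μ t).bind (fun s => μ.map (fun a => Function.update s t a))

def Rf (ω : Om n) (x0 : X n) (s : ℕ → Gt n × Kt n) : ℕ → X n × Bool
  | 0 => (x0, decide (x0 = ω.1))
  | t + 1 => detStep ω (s t) (Rf ω x0 s t)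

lemma Rf_update (ω : Om n) (x0 : X n) (s : ℕ → Gt n × Kt n) (t : ℕ) (a : Gt n × Kt n) :
    ∀ t' ≤ t, Rf ω x0 (Function.update s t a) t' = Rf ω x0 s t' := by
  intro t'
  induction t' with
  | zero => intro _; rfl
  | succ t' ih =>
    intro h
    simp only [Rf]
    rw [ih (by omega), Function.update_of_ne (by omega)]

noncomputable def Eseq (init : PMF (X n)) (μ : PMF (Gt n × Kt n)) (t : ℕ) :
    PMF (X n × (ℕ → Gt n × Kt n)) :=
  init.bind (fun x0 => (Dseq μ t).map (fun s => (x0, s)))

lemma Eseq_succ (init : PMF (X n)) (μ : PMF (Gt n × Kt n)) (t : ℕ) :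
    Eseq init μ (t + 1) = (Eseq init μ t).bind (fun c =>
      μ.map (fun a => (c.1, Function.update c.2 t a))) := by
  unfold Eseq
  rw [PMF.bind_bind]
  congr 1
  funext x0
  simp only [Dseq]
  rw [PMF.map_bind, PMF.bind_map]
  congr 1
  funext s
  rw [PMF.map_comp]
  rfl

lemma Eseq_stable (init : PMF (X n)) (μ : PMF (Gt n × Kt n)) (ω : Om n) (t j : ℕ) :
    (Eseq init μ (t + j)).map (fun c => Rf ω c.1 c.2 t) =
      (Eseq init μ t).map (fun c => Rf ω c.1 c.2 t) := by
  induction j with
  | zero => rfl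
  | succ j ih =>
    rw [← ih, ← add_assoc, Eseq_succ, PMF.map_bind]
    rw [← PMF.bind_pure_comp (fun c : X n × (ℕ → Gt n × Kt n) => Rf ω c.1 c.2 t)
      (Eseq init μ (t + j))]
    congr 1
    funext c
    rw [PMF.map_comp]
    have : ((fun c : X n × (ℕ → Gt n × Kt n) => Rf ω c.1 c.2 t) ∘
        fun a => (c.1, Function.update c.2 (t + j) a)) = Function.const _ (Rf ω c.1 c.2 t) := by
      funext a
      simp only [Function.comp, Function.const]
      exact Rf_update ω c.1 c.2 (t + j) a t (by omega)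
    rw [this, PMF.map_const]
    rfl

lemma Eseq_law (init : PMF (X n)) (vary : (Fin n → Bool) → ℕ → PMF (Fin n → Bool))
    (sel : (Fin n → Bool) → ℕ → (Fin n → Bool) → ℕ → PMF Bool) (ω : Om n) (t : ℕ) :
    (Eseq init (stepPMF vary sel) t).map (fun c => Rf ω c.1 c.2 t) =
      (fun p : PMF (X n × Bool) => p.bind (stepK vary sel ω))^[t]
        (init.bind (fun x => PMF.pure (x, decide (x = ω.1)))) := by
  induction t with
  | zero =>
    simp only [Function.iterate_zero, id_eq]
    unfold Eseq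
    rw [PMF.map_bind]
    congr 1
    funext x0
    simp only [Dseq]
    rw [PMF.map_comp, PMF.pure_map]
    rfl
  | succ t ih =>
    rw [Function.iterate_succ_apply', ← ih, Eseq_succ, PMF.map_bind, PMF.bind_map]
    congr 1
    funext c
    rw [PMF.map_comp, Function.comp, ← stepPMF_map vary sel ω]
    congr 1
    funext a
    simp only [Function.comp, Rf]
    rw [Rf_update ω c.1 c.2 t a t le_rfl, Function.update_self]

/-- the deterministic algorithm of a seed -/
def toDAlg (c : X n × (ℕ → Gt n × Kt n)) : DAlg n where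
  x0 := c.1
  G := fun t x v => (c.2 t).1 (x, cl n v)
  K := fun t x v y v' => (c.2 t).2 (x, cl n v, y, cl n v')

lemma Rf_flag (ω : Om n) (c : X n × (ℕ → Gt n × Kt n)) (t : ℕ) :
    ((Rf ω c.1 c.2 t).2 = false ↔ ∀ i ≤ t, qr (toDAlg c) (lo ω) i ≠ ω.1) ∧
      ((Rf ω c.1 c.2 t).2 = false → (Rf ω c.1 c.2 t).1 = st (toDAlg c) (lo ω) t) := by
  induction t with
  | zero =>
    constructor
    · simp only [Rf, decide_eq_false_iff_not]
      constructor
      · intro h i hi
        have : i = 0 := by omega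
        rw [this]; exact h
      · intro h; exact h 0 le_rfl
    · intro _; rfl
  | succ t ih =>
    obtain ⟨ih1, ih2⟩ := ih
    by_cases hf : (Rf ω c.1 c.2 t).2 = false
    · have hst := ih2 hf
      have h1 : Rf ω c.1 c.2 (t + 1) = (st (toDAlg c) (lo ω) (t + 1),
          decide (qr (toDAlg c) (lo ω) (t + 1) = ω.1)) := by
        change detStep ω (c.2 t) (Rf ω c.1 c.2 t) = _
        unfold detStep
        rw [if_neg (by rw [hf]; simp), hst]
        rfl
      rw [h1]
      constructor
      · simp only [decide_eq_false_iff_not]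
        constructor
        · intro h i hi
          rcases Nat.lt_succ_iff_lt_or_eq.1 (Nat.lt_succ_of_le hi) with h2 | h2
          · exact ih1.1 hf i (by omega)
          · rw [h2]; exact h
        · intro h; exact h (t + 1) le_rfl
      · intro _; rfl
    · have hf' : (Rf ω c.1 c.2 t).2 = true := by
        cases h : (Rf ω c.1 c.2 t).2
        · exact absurd h hf
        · rfl
      have h1 : Rf ω c.1 c.2 (t + 1) = Rf ω c.1 c.2 t := by
        change detStep ω (c.2 t) (Rf ω c.1 c.2 t) = _
        unfold detStep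
        rw [if_pos hf']
      rw [h1]
      constructor
      · constructor
        · intro h; exact absurd h hf
        · intro h
          exact absurd (ih1.2 (fun i hi => h i (by omega))) hf
      · intro h; exact absurd h hf

lemma sum_map_false {γ : Type} (p : PMF γ) (R : γ → X n × Bool) :
    ∑ w : X n, (p.map R) (w, false) = ∑' c, p c * (if (R c).2 = false then 1 else 0) := by
  classical
  have h1 : ∀ w : X n, (p.map R) (w, false) = ∑' c, if (w, false) = R c then p c else 0 := by
    intro w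
    rw [PMF.map_apply]
    apply tsum_congr
    intro c
    congr
  rw [Finset.sum_congr rfl (fun w _ => h1 w),
    ← Summable.tsum_finsetSum (fun _ _ => ENNReal.summable)]
  apply tsum_congr
  intro c
  by_cases h : (R c).2 = false
  · rw [if_pos h, mul_one, Finset.sum_eq_single (R c).1]
    · rw [if_pos]
      rw [← h]
    · intro b _ hb
      rw [if_neg]
      intro h2
      apply hb
      rw [← h2]
    · intro h2; exact absurd (Finset.mem_univ _) h2
  · rw [if_neg h, mul_zero]
    apply Finset.sum_eq_zero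
    intro w _
    rw [if_neg]
    intro h2
    apply h
    rw [← h2]

open Classical in
lemma time_eq (init : PMF (X n)) (vary : (Fin n → Bool) → ℕ → PMF (Fin n → Bool))
    (sel : (Fin n → Bool) → ℕ → (Fin n → Bool) → ℕ → PMF Bool) (ω : Om n) (Hz : ℕ) :
    ∑ t ∈ Finset.range Hz, ∑ w : X n, ((fun p : PMF (X n × Bool) =>
        p.bind (stepK vary sel ω))^[t]
        (init.bind (fun x => PMF.pure (x, decide (x = ω.1))))) (w, false)
      = ∑' c, (Eseq init (stepPMF vary sel) Hz) c * ((cnt (toDAlg c) Hz ω : ℕ) : ℝ≥0∞) := by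
  have h1 : ∀ t ∈ Finset.range Hz, ∑ w : X n, ((fun p : PMF (X n × Bool) =>
        p.bind (stepK vary sel ω))^[t]
        (init.bind (fun x => PMF.pure (x, decide (x = ω.1))))) (w, false)
      = ∑' c, (Eseq init (stepPMF vary sel) Hz) c *
          (if (Rf ω c.1 c.2 t).2 = false then 1 else 0) := by
    intro t ht
    rw [Finset.mem_range] at ht
    rw [← Eseq_law init vary sel ω t]
    obtain ⟨j, rfl⟩ := Nat.exists_eq_add_of_le ht.le
    rw [← Eseq_stable init (stepPMF vary sel) ω t j]
    exact sum_map_false _ _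
  rw [Finset.sum_congr rfl h1, ← Summable.tsum_finsetSum (fun _ _ => ENNReal.summable)]
  apply tsum_congr
  intro c
  rw [← Finset.mul_sum]
  congr 1
  unfold cnt
  rw [Finset.card_filter]
  push_cast
  apply Finset.sum_congr rfl
  intro t _
  have := (Rf_flag ω c t).1
  by_cases h : (Rf ω c.1 c.2 t).2 = false
  · rw [if_pos h, if_pos (this.1 h)]
  · rw [if_neg h, if_neg (fun h' => h (this.2 h'))]

theorem rand_main (init : PMF (X n)) (vary : (Fin n → Bool) → ℕ → PMF (Fin n → Bool))
    (sel : (Fin n → Bool) → ℕ → (Fin n → Bool) → ℕ → PMF Bool) (hn : 2 ^ 15 ≤ n) :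
    ∃ ω : Om n, ENNReal.ofReal ((1 / 2 ^ 29 : ℝ) * n ^ 2) ≤
      ∑' t : ℕ, ∑ w : X n, ((fun p : PMF (X n × Bool) => p.bind (stepK vary sel ω))^[t]
        (init.bind (fun x => PMF.pure (x, decide (x = ω.1))))) (w, false) := by
  classical
  obtain ⟨w, hw⟩ : ∃ w, w = n / 2 ^ 14 := ⟨_, rfl⟩
  have hw2 : 2 ≤ w := by omega
  have hwn : 2 ^ 14 * w ≤ n := by omega
  have hwn' : n < 2 ^ 14 * (w + 1) := by omega
  set Hz := n ^ 2 + (w - 1) with hHz
  let F : Om n → ℝ≥0∞ := fun ω => ∑ t ∈ Finset.range Hz, ∑ w : X n, ((fun p : PMF (X n × Bool) =>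
        p.bind (stepK vary sel ω))^[t]
        (init.bind (fun x => PMF.pure (x, decide (x = ω.1))))) (w, false)
  have hsum : ∑ _ω : Om n, ENNReal.ofReal ((1 / 2 ^ 29 : ℝ) * n ^ 2) ≤ ∑ ω : Om n, F ω := by
    rw [Finset.sum_const, Finset.card_univ, nsmul_eq_mul]
    have h1 : ∑ ω : Om n, F ω = ∑' c, (Eseq init (stepPMF vary sel) Hz) c *
        ((∑ ω : Om n, cnt (toDAlg c) Hz ω : ℕ) : ℝ≥0∞) := by
      have h2 : ∀ ω : Om n, F ω = ∑' c, (Eseq init (stepPMF vary sel) Hz) c *
          ((cnt (toDAlg c) Hz ω : ℕ) : ℝ≥0∞) := fun ω => time_eq init vary sel ω Hz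
      rw [Finset.sum_congr rfl (fun ω _ => h2 ω),
        ← Summable.tsum_finsetSum (fun _ _ => ENNReal.summable)]
      apply tsum_congr
      intro c
      rw [← Finset.mul_sum]
      push_cast
      rfl
    rw [h1]
    have h3 : ∀ c : X n × (ℕ → Gt n × Kt n),
        ((Fintype.card (Om n) : ℕ) : ℝ≥0∞) * ENNReal.ofReal ((1 / 2 ^ 29 : ℝ) * n ^ 2) ≤
        ((∑ ω : Om n, cnt (toDAlg c) Hz ω : ℕ) : ℝ≥0∞) := by
      intro c
      have h4 := det_main (toDAlg c) hw2 hwn hwn'
      rw [← ENNReal.ofReal_natCast, ← ENNReal.ofReal_mul (Nat.cast_nonneg _),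
        ← ENNReal.ofReal_natCast (n := ∑ ω : Om n, cnt (toDAlg c) Hz ω)]
      apply ENNReal.ofReal_le_ofReal
      calc _ = (1 / 2 ^ 29 : ℝ) * n ^ 2 * (Fintype.card (Om n)) := by ring
        _ ≤ _ := h4
    calc _ = ∑' c, (Eseq init (stepPMF vary sel) Hz) c *
          (((Fintype.card (Om n) : ℕ) : ℝ≥0∞) * ENNReal.ofReal ((1 / 2 ^ 29 : ℝ) * n ^ 2)) := by
            rw [ENNReal.tsum_mul_right, PMF.tsum_coe, one_mul]
      _ ≤ _ := ENNReal.tsum_le_tsum (fun c => mul_le_mul_right (h3 c) _)
  have hne : (Finset.univ : Finset (Om n)).Nonempty := ⟨(fun _ => true, 1), Finset.mem_univ _⟩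
  by_contra hcon
  push Not at hcon
  have hlt : ∀ ω ∈ (Finset.univ : Finset (Om n)), F ω <
      ENNReal.ofReal ((1 / 2 ^ 29 : ℝ) * n ^ 2) := fun ω _ =>
    lt_of_le_of_lt (ENNReal.sum_le_tsum _) (hcon ω)
  exact absurd hsum (not_le.mpr (ENNReal.sum_lt_sum_of_nonempty hne hlt))

end Pool.Agent.H683R2.LO
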