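import Pool.Agent.H683R2.RFCount

/-!
# Counting the large eigenvalues, continued
-/

namespace Pool.Agent.H683R2.RF

open Matrix Complex Finset

variable {ι σ : Type*} [Fintype ι] [Fintype σ] [DecidableEq ι] [DecidableEq σ]

lemma fej_diag {E : Matrix σ σ ℂ} {f : σ → ℂ} (hE : E * Eᴴ = 1) (hE2 : Eᴴ * E = 1) (K : ℕ) :
    fej (E * diagonal f * Eᴴ) K = ∑ j, ‖∑ k ∈ range K, f j ^ k‖ ^ 2 := by
  have h1 : ∀ k, (E * diagonal f * Eᴴ) ^ k = E * diagonal (fun j => f j ^ k) * Eᴴ := by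
    intro k
    induction k with
    | zero => simp [hE]
    | succ k ih =>
      rw [pow_succ, ih, diag_conj_mul hE2]
      simp only [pow_succ]
  have h2 : ∑ k ∈ range K, (E * diagonal f * Eᴴ) ^ k =
      E * diagonal (fun j => ∑ k ∈ range K, f j ^ k) * Eᴴ := by
    simp only [h1]
    rw [← Finset.sum_mul, ← Finset.mul_sum]
    congr 2
    ext a b
    rw [Matrix.sum_apply]
    by_cases h : a = b
    · subst h
      simp
    · simp [h]
  have h3 : ((fej (E * diagonal f * Eᴴ) K : ℝ) : ℂ) =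
      ((∑ j, ‖∑ k ∈ range K, f j ^ k‖ ^ 2 : ℝ) : ℂ) := by
    unfold fej
    rw [← trace_hs, h2]
    set g : σ → ℂ := fun j => ∑ k ∈ range K, f j ^ k with hg
    have h4 : (E * diagonal g * Eᴴ)ᴴ = E * diagonal (star g) * Eᴴ := by
      rw [conjTranspose_mul, conjTranspose_mul, conjTranspose_conjTranspose,
        diagonal_conjTranspose, Matrix.mul_assoc]
    rw [h4, diag_conj_mul hE2, Matrix.mul_assoc, trace_mul_comm, Matrix.mul_assoc, hE2,
      Matrix.mul_one, trace_diagonal]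
    push_cast
    refine Finset.sum_congr rfl fun j _ => ?_
    rw [← Complex.conj_mul']
    rfl
  exact_mod_cast h3

lemma geom_lower {K : ℕ} {z : ℂ} (hz : ‖z‖ = 1) (h : ‖z - 1‖ * K ≤ 1) :
    (K : ℝ) / 2 ≤ ‖∑ k ∈ range K, z ^ k‖ := by
  have h1 : ∀ k : ℕ, ‖z ^ k - 1‖ ≤ k * ‖z - 1‖ := by
    intro k
    induction k with
    | zero => simp
    | succ k ih =>
      have : z ^ (k + 1) - 1 = z * (z ^ k - 1) + (z - 1) := by ring
      rw [this]
      refine (norm_add_le _ _).trans ?_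
      rw [norm_mul, hz, one_mul]
      push_cast
      linarith
  have h2 : ‖∑ k ∈ range K, (z ^ k - 1)‖ ≤ K / 2 := by
    refine (norm_sum_le _ _).trans ((Finset.sum_le_sum fun k _ => h1 k).trans ?_)
    rw [← Finset.sum_mul]
    have h3 : (∑ k ∈ range K, (k : ℝ)) * 2 = K * (K - 1) := by
      have := Finset.sum_range_id_mul_two K
      rcases K with _ | K
      · simp
      · rw [Nat.add_sub_cancel] at this
        have h4 : (((∑ i ∈ range (K + 1), i) * 2 : ℕ) : ℝ) = (((K + 1) * K : ℕ) : ℝ) := by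
          rw [this]
        push_cast at h4 ⊢
        rw [h4]; ring
    have h5 : (0 : ℝ) ≤ K := Nat.cast_nonneg K
    have h6 : 0 ≤ ‖z - 1‖ := norm_nonneg _
    nlinarith [mul_nonneg h5 h6]
  have h3 : ∑ k ∈ range K, z ^ k = K + ∑ k ∈ range K, (z ^ k - 1) := by
    rw [Finset.sum_sub_distrib]
    simp
  rw [h3]
  have h4 : ‖(K : ℂ)‖ - ‖∑ k ∈ range K, (z ^ k - 1)‖ ≤ ‖(K : ℂ) + ∑ k ∈ range K, (z ^ k - 1)‖ := by
    have := norm_sub_norm_le (K : ℂ) (-(∑ k ∈ range K, (z ^ k - 1)))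
    rwa [norm_neg, sub_neg_eq_add] at this
  rw [Complex.norm_natCast] at h4
  linarith

/-- The number of terms used at scale `i`. -/
noncomputable def KK (e : ℝ) (i : ℕ) : ℕ := max 1 ⌊1 / (2 * (2 ^ i * e))⌋₊

lemma KK_pos (e : ℝ) (i : ℕ) : 1 ≤ KK e i := le_max_left _ _

lemma ind_le {e : ℝ} (he : 0 < e) (i : ℕ) {c : ℝ} (hc : 1 / (2 ^ i * e) ≤ |c|) :
    1 ≤ 16 * (2 ^ i * e) * (‖∑ k ∈ range (KK e i), om c ^ k‖ ^ 2 / KK e i) := by
  set θ := 2 ^ i * e with hθ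
  have hθ0 : 0 < θ := by positivity
  by_cases h : θ ≤ 1 / 2
  · have h1 : 1 ≤ 1 / (2 * θ) := by
      rw [le_div_iff₀ (by positivity)]; linarith
    have h2 : 1 ≤ ⌊1 / (2 * θ)⌋₊ := by
      rw [Nat.one_le_floor_iff]; exact h1
    have h3 : KK e i = ⌊1 / (2 * θ)⌋₊ := max_eq_right h2
    have h4 : (KK e i : ℝ) ≤ 1 / (2 * θ) := by
      rw [h3]; exact Nat.floor_le (by positivity)
    have h5 : 1 / (4 * θ) ≤ KK e i := by
      have h6 : 1 / (2 * θ) < KK e i + 1 := by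
        rw [h3]; exact Nat.lt_floor_add_one _
      have h7 : (1 : ℝ) ≤ KK e i := by exact_mod_cast KK_pos e i
      have h8 : 1 / (4 * θ) = (1 / (2 * θ)) / 2 := by
        field_simp; norm_num
      rw [h8]; linarith
    have h9 : (KK e i : ℝ) / 2 ≤ ‖∑ k ∈ range (KK e i), om c ^ k‖ := by
      apply geom_lower (norm_om c)
      have h10 := norm_om_sub c
      have h11 : 2 * (KK e i : ℝ) ≤ |c| := by
        refine le_trans ?_ hc
        rw [le_div_iff₀ hθ0]
        rw [le_div_iff₀ (by positivity)] at h4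
        linarith
      have h12 : 0 ≤ ‖om c - 1‖ := norm_nonneg _
      nlinarith
    have h13 : (0 : ℝ) < KK e i := by
      have : (1 : ℝ) ≤ KK e i := by exact_mod_cast KK_pos e i
      linarith
    have h14 : (KK e i : ℝ) / 4 ≤ ‖∑ k ∈ range (KK e i), om c ^ k‖ ^ 2 / KK e i := by
      rw [le_div_iff₀ h13]
      nlinarith
    have h15 : 1 / (16 * θ) ≤ ‖∑ k ∈ range (KK e i), om c ^ k‖ ^ 2 / KK e i := by
      refine le_trans ?_ h14
      have : 1 / (16 * θ) = 1 / (4 * θ) / 4 := by field_simp; norm_num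
      rw [this]; linarith
    rw [div_le_iff₀ (by positivity)] at h15
    linarith
  · rw [not_le] at h
    have h1 : 1 / (2 * θ) < 1 := by
      rw [div_lt_one (by positivity)]; linarith
    have h2 : ⌊1 / (2 * θ)⌋₊ = 0 := Nat.floor_eq_zero.2 h1
    have h3 : KK e i = 1 := by
      unfold KK
      rw [← hθ, h2]; rfl
    rw [h3]
    simp
    linarith

lemma wt_le {e : ℝ} (he : 0 < e) (I : ℕ) (c : ℝ) :
    wt e (2 ^ I) c ≤
      32 * e * ∑ i ∈ range (I + 1), ‖∑ k ∈ range (KK e i), om c ^ k‖ ^ 2 / KK e i := by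
  have hnn : ∀ i, 0 ≤ ‖∑ k ∈ range (KK e i), om c ^ k‖ ^ 2 / KK e i := fun i => by positivity
  unfold wt
  split_ifs with h
  · classical
    have hex : ∃ i, 1 / (2 ^ i * e) ≤ |c| := ⟨I, h⟩
    set i0 := Nat.find hex with hi0
    have h1 : 1 / (2 ^ i0 * e) ≤ |c| := Nat.find_spec hex
    have h2 : i0 ≤ I := Nat.find_min' hex h
    have h3 : min 1 (e * |c|) * 2 ^ i0 ≤ 2 := by
      rcases Nat.eq_zero_or_pos i0 with h0 | h0
      · rw [h0, pow_zero, mul_one]
        exact (min_le_left _ _).trans (by norm_num)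
      · obtain ⟨k, hk⟩ := Nat.exists_eq_succ_of_ne_zero h0.ne'
        have h4 : ¬ 1 / (2 ^ k * e) ≤ |c| := Nat.find_min hex (by omega)
        rw [not_le, lt_div_iff₀ (by positivity)] at h4
        rw [hk, Nat.succ_eq_add_one, pow_succ]
        have h5 : min 1 (e * |c|) ≤ e * |c| := min_le_right _ _
        have h6 : (0 : ℝ) < 2 ^ k := by positivity
        nlinarith
    have h4 := ind_le he i0 h1
    have h5 : 32 * e * (‖∑ k ∈ range (KK e i0), om c ^ k‖ ^ 2 / KK e i0) ≤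
        32 * e * ∑ i ∈ range (I + 1), ‖∑ k ∈ range (KK e i), om c ^ k‖ ^ 2 / KK e i := by
      apply mul_le_mul_of_nonneg_left _ (by positivity)
      exact Finset.single_le_sum (f := fun i => ‖∑ k ∈ range (KK e i), om c ^ k‖ ^ 2 / KK e i)
        (fun i _ => hnn i) (Finset.mem_range.2 (by omega))
    refine le_trans ?_ h5
    have h6 : (0 : ℝ) < 2 ^ i0 := by positivity
    set F := ‖∑ k ∈ range (KK e i0), om c ^ k‖ ^ 2 / KK e i0 with hF
    have h7 : min 1 (e * |c|) * 2 ^ i0 ≤ (32 * e * F) * 2 ^ i0 := by nlinarith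
    exact le_of_mul_le_mul_right h7 h6
  · exact mul_nonneg (by positivity) (Finset.sum_nonneg fun i _ => hnn i)

/-- **Choice of the loop factor.** -/
theorem exists_w {B : Matrix ι σ ℂ} {C : Matrix σ ι ℂ} {D : Matrix σ σ ℂ} (hL : Loss B C D)
    (hD : ∀ j, 0 < j → trace (D ^ j) = 0) (e : ℝ) (I : ℕ) :
    ∃ w : ℂ, ‖w‖ = 1 ∧ w.re ≤ 0 ∧
      ∑ i ∈ range (I + 1), fej (Dw B C D w) (KK e i) / KK e i ≤ 2 * (I + 1) * Fintype.card σ := by
  set Q : ℕ := ∑ i ∈ range (I + 1), KK e i with hQ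
  have hKQ : ∀ i ∈ range (I + 1), KK e i ≤ Q := fun i hi =>
    Finset.single_le_sum (f := fun i => KK e i) (fun i _ => Nat.zero_le _) hi
  have hQ0 : Q ≠ 0 := by
    have := hKQ 0 (by simp)
    have := KK_pos e 0
    omega
  set ζ : ℂ := Complex.exp (2 * Real.pi * Complex.I / Q) with hζ
  have hζp : IsPrimitiveRoot ζ Q := Complex.isPrimitiveRoot_exp Q hQ0
  have hζ1 : ‖ζ‖ = 1 := hζp.norm'_eq_one hQ0
  set Ψ : ℂ → ℝ := fun w => ∑ i ∈ range (I + 1), fej (Dw B C D w) (KK e i) / KK e i with hΨ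
  have hΨ0 : ∀ w, 0 ≤ Ψ w := fun w => Finset.sum_nonneg fun i _ =>
    div_nonneg (fej_nonneg _ _) (Nat.cast_nonneg _)
  have havg : ∀ u : ℂ, ‖u‖ = 1 → ∑ t ∈ range Q, Ψ (u * ζ ^ t) =
      Q * ((I + 1) * Fintype.card σ) := by
    intro u hu
    rw [hΨ]
    simp only
    rw [Finset.sum_comm]
    have h1 : ∀ i ∈ range (I + 1), ∑ t ∈ range Q,
        fej (Dw B C D (u * ζ ^ t)) (KK e i) / KK e i = Q * Fintype.card σ := by
      intro i hi
      rw [← Finset.sum_div, fej_avg hL hD hζp hζ1 hu (hKQ i hi)]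
      have : (0 : ℝ) < KK e i := by exact_mod_cast KK_pos e i
      field_simp
    rw [Finset.sum_congr rfl h1]
    simp
    ring
  have hsum : ∑ t ∈ range Q, (Ψ (1 * ζ ^ t) + Ψ (-1 * ζ ^ t)) ≤
      ∑ _t ∈ range Q, 2 * (I + 1) * (Fintype.card σ : ℝ) := by
    rw [Finset.sum_add_distrib, havg 1 (by simp), havg (-1) (by simp)]
    simp
    ring_nf
    rfl
  obtain ⟨t, -, ht⟩ := Finset.exists_le_of_sum_le (by simpa using hQ0) hsum
  have hn : ‖(1 * ζ ^ t : ℂ)‖ = 1 := by simp [hζ1]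
  by_cases h : (1 * ζ ^ t : ℂ).re ≤ 0
  · exact ⟨1 * ζ ^ t, hn, h, by have := hΨ0 (-1 * ζ ^ t); linarith⟩
  · refine ⟨-1 * ζ ^ t, by simp [hζ1], ?_, by have := hΨ0 (1 * ζ ^ t); linarith⟩
    rw [not_le] at h
    have : (-1 * ζ ^ t : ℂ) = -(1 * ζ ^ t) := by ring
    rw [this, Complex.neg_re]
    linarith

end Pool.Agent.H683R2.RF
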