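import Pool.Agent.H683R2.RFReal

/-!
# Short paths of a circuit are almost orthogonal to a flat matrix
-/

namespace Pool.Agent.H683R2.RF

open Matrix Complex Finset

variable {ι : Type*} [Fintype ι] [DecidableEq ι]

/-- The part of a circuit coming from the paths with `ν` delays. -/
noncomputable def coef : List (Gate ι) → ℕ → Matrix ι ι ℂ
  | [], ν => if ν = 0 then 1 else 0
  | g :: gs, 0 => g.A * coef gs 0
  | g :: gs, ν + 1 => g.A * coef gs (ν + 1) + g.R * g.E * coef gs ν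

lemma coef_large (gs : List (Gate ι)) (ν : ℕ) (h : gs.length < ν) : coef gs ν = 0 := by
  induction gs generalizing ν with
  | nil =>
    rw [coef, if_neg]
    rw [List.length_nil] at h
    omega
  | cons g gs ih =>
    rw [List.length_cons] at h
    obtain ⟨k, rfl⟩ := Nat.exists_eq_succ_of_ne_zero (n := ν) (by omega)
    rw [Nat.succ_eq_add_one, coef, ih (k + 1) (by omega), ih k (by omega)]
    simp

lemma circ_eq_sum (gs : List (Gate ι)) (z : ℂ) (M : ℕ) (h : gs.length < M) :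
    circ gs z = ∑ ν ∈ range M, z ^ ν • coef gs ν := by
  induction gs generalizing M with
  | nil =>
    rw [circ, Finset.sum_eq_single 0]
    · simp [coef]
    · intro ν _ hν
      simp [coef, hν]
    · intro h0
      rw [List.length_nil] at h
      exact absurd (Finset.mem_range.2 h) h0
  | cons g gs ih =>
    rw [List.length_cons] at h
    obtain ⟨k, rfl⟩ := Nat.exists_eq_succ_of_ne_zero (n := M) (by omega)
    rw [circ, Gate.T, Matrix.add_mul, Nat.succ_eq_add_one, Finset.sum_range_succ']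
    simp only [coef, smul_add, Finset.sum_add_distrib]
    have e1 : g.A * circ gs z = ∑ ν ∈ range k, z ^ (ν + 1) • (g.A * coef gs (ν + 1)) +
        z ^ 0 • (g.A * coef gs 0) := by
      rw [ih (k + 1) (by omega), Finset.sum_range_succ', Matrix.mul_add, Finset.mul_sum]
      simp only [Matrix.mul_smul]
    have e2 : z • (g.B * g.C) * circ gs z =
        ∑ ν ∈ range k, z ^ (ν + 1) • (g.R * g.E * coef gs ν) := by
      rw [ih k (by omega), Finset.mul_sum, Gate.BC]
      refine Finset.sum_congr rfl fun ν _ => ?_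
      rw [Matrix.smul_mul, Matrix.mul_smul, smul_smul, pow_succ']
    rw [e1, e2]
    abel

/-- The `ℓ¹` norm. -/
noncomputable def l1 (u : ι → ℂ) : ℝ := ∑ i, ‖u i‖

omit [DecidableEq ι] in
lemma l1_nonneg (u : ι → ℂ) : 0 ≤ l1 u := Finset.sum_nonneg fun _ _ => norm_nonneg _

omit [DecidableEq ι] in
lemma l1_add (u v : ι → ℂ) : l1 (u + v) ≤ l1 u + l1 v := by
  unfold l1
  rw [← Finset.sum_add_distrib]
  exact Finset.sum_le_sum fun i _ => norm_add_le _ _

omit [DecidableEq ι] in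
lemma nsq_le_l1 (u : ι → ℂ) : nsq u ≤ l1 u ^ 2 := by
  unfold nsq l1
  exact Finset.sum_sq_le_sq_sum_of_nonneg fun i _ => norm_nonneg _

lemma E_mulVec (g : Gate ι) (v : ι → ℂ) :
    g.E *ᵥ v = fun k => if k = g.a ∨ k = g.b then v k else 0 := by
  ext k
  rw [Gate.E, mulVec_diagonal]
  split_ifs <;> simp

lemma A_mulVec (g : Gate ι) (v : ι → ℂ) :
    g.A *ᵥ v = fun k => if k = g.a ∨ k = g.b then 0 else v k := by
  ext k
  rw [Gate.A, sub_mulVec, one_mulVec, E_mulVec, Pi.sub_apply]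
  split_ifs <;> simp

lemma l1_split (g : Gate ι) (v : ι → ℂ) : l1 (g.A *ᵥ v) + l1 (g.E *ᵥ v) = l1 v := by
  unfold l1
  rw [← Finset.sum_add_distrib, E_mulVec, A_mulVec]
  refine Finset.sum_congr rfl fun k _ => ?_
  simp only
  split_ifs <;> simp

lemma l1_two (g : Gate ι) (u : ι → ℂ) (hu : ∀ k, ¬ (k = g.a ∨ k = g.b) → u k = 0) :
    l1 u ^ 2 ≤ 2 * nsq u := by
  have h1 : ∀ f : ι → ℝ, (∀ k, ¬ (k = g.a ∨ k = g.b) → f k = 0) → ∑ k, f k = f g.a + f g.b := by
    intro f hf
    have h2 : ∑ k ∈ ({g.a, g.b} : Finset ι), f k = ∑ k, f k := by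
      apply Finset.sum_subset (Finset.subset_univ _)
      intro k _ hk
      apply hf
      simpa using hk
    rw [← h2, Finset.sum_pair g.hab]
  unfold l1 nsq
  rw [h1 (fun k => ‖u k‖) (fun k hk => by simp [hu k hk]),
    h1 (fun k => ‖u k‖ ^ 2) (fun k hk => by simp [hu k hk])]
  nlinarith [sq_nonneg (‖u g.a‖ - ‖u g.b‖)]

lemma l1_gate (g : Gate ι) (v : ι → ℂ) :
    l1 ((g.R * g.E) *ᵥ v) ≤ Real.sqrt 2 * l1 (g.E *ᵥ v) := by
  have h3 : g.R * g.E = g.E * g.R := by
    have h4 : g.E = 1 - g.A := by rw [Gate.A]; abel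
    rw [h4, Matrix.mul_sub, Matrix.sub_mul, g.R_A, g.A_R, Matrix.mul_one, Matrix.one_mul]
  have h1 : l1 ((g.R * g.E) *ᵥ v) ^ 2 ≤ 2 * nsq ((g.R * g.E) *ᵥ v) := by
    apply l1_two g
    intro k hk
    rw [h3, ← mulVec_mulVec, E_mulVec]
    simp only
    rw [if_neg hk]
  have h2 : nsq ((g.R * g.E) *ᵥ v) = nsq (g.E *ᵥ v) := by
    rw [← mulVec_mulVec]
    exact nsq_of_iso g.h2 _
  rw [h2] at h1
  have h5 := nsq_le_l1 (g.E *ᵥ v)
  have h6 : l1 ((g.R * g.E) *ᵥ v) ^ 2 ≤ (Real.sqrt 2 * l1 (g.E *ᵥ v)) ^ 2 := by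
    rw [mul_pow, Real.sq_sqrt (by norm_num)]
    linarith
  exact (pow_le_pow_iff_left₀ (l1_nonneg _) (mul_nonneg (Real.sqrt_nonneg _) (l1_nonneg _))
    two_ne_zero).1 h6

omit [DecidableEq ι] in
lemma col_mul' (M N : Matrix ι ι ℂ) (j : ι) : (M * N).col j = M *ᵥ N.col j := by
  ext i; rfl

/-- The Kraft-type inequality for path weights. -/
lemma kraft (gs : List (Gate ι)) (j : ι) (L : ℕ) :
    ∑ ν ∈ range L, (Real.sqrt 2)⁻¹ ^ ν * l1 ((coef gs ν).col j) ≤ 1 := by
  have hq : 0 < Real.sqrt 2 := Real.sqrt_pos.2 (by norm_num)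
  set q := (Real.sqrt 2)⁻¹ with hqd
  have hq0 : 0 < q := inv_pos.2 hq
  have hqq : q * Real.sqrt 2 = 1 := inv_mul_cancel₀ hq.ne'
  induction gs generalizing L with
  | nil =>
    rcases L with _ | L
    · simp
    · rw [Finset.sum_range_succ']
      have h1 : ∀ ν ∈ range L, q ^ (ν + 1) * l1 ((coef ([] : List (Gate ι)) (ν + 1)).col j) = 0 := by
        intro ν _
        simp [coef, l1]
      rw [Finset.sum_eq_zero h1, zero_add, pow_zero, one_mul]
      apply le_of_eq
      have h2 : (coef ([] : List (Gate ι)) 0).col j = Pi.single j 1 := by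
        ext i
        simp [coef, Matrix.one_apply, Pi.single_apply]
      rw [h2]
      unfold l1
      rw [Finset.sum_eq_single j]
      · simp
      · intro i _ hi
        simp [Pi.single_eq_of_ne hi]
      · simp
  | cons g gs ih =>
    rcases L with _ | L
    · simp
    · refine le_trans ?_ (ih (L + 1))
      have h0 : ∀ ν, l1 ((coef gs ν).col j) =
          l1 (g.A *ᵥ (coef gs ν).col j) + l1 (g.E *ᵥ (coef gs ν).col j) :=
        fun ν => (l1_split g _).symm
      have h1 : ∀ ν, l1 ((coef (g :: gs) (ν + 1)).col j) ≤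
          l1 (g.A *ᵥ (coef gs (ν + 1)).col j) + Real.sqrt 2 * l1 (g.E *ᵥ (coef gs ν).col j) := by
        intro ν
        have e1 : (coef (g :: gs) (ν + 1)).col j =
            g.A *ᵥ (coef gs (ν + 1)).col j + (g.R * g.E) *ᵥ (coef gs ν).col j := by
          rw [coef, ← col_mul', ← col_mul']
          rfl
        rw [e1]
        exact (l1_add _ _).trans (by gcongr; exact l1_gate g _)
      calc ∑ ν ∈ range (L + 1), q ^ ν * l1 ((coef (g :: gs) ν).col j)
          = ∑ ν ∈ range L, q ^ (ν + 1) * l1 ((coef (g :: gs) (ν + 1)).col j)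
            + l1 (g.A *ᵥ (coef gs 0).col j) := by
            rw [Finset.sum_range_succ', pow_zero, one_mul]
            rfl
        _ ≤ ∑ ν ∈ range L, (q ^ (ν + 1) * l1 (g.A *ᵥ (coef gs (ν + 1)).col j)
              + q ^ ν * l1 (g.E *ᵥ (coef gs ν).col j)) + l1 (g.A *ᵥ (coef gs 0).col j) := by
            gcongr with ν _
            have := mul_le_mul_of_nonneg_left (h1 ν) (pow_nonneg hq0.le (ν + 1))
            refine this.trans (le_of_eq ?_)
            rw [mul_add, pow_succ]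
            linear_combination q ^ ν * l1 (g.E *ᵥ (coef gs ν).col j) * hqq
        _ = ∑ ν ∈ range (L + 1), q ^ ν * l1 (g.A *ᵥ (coef gs ν).col j)
              + ∑ ν ∈ range L, q ^ ν * l1 (g.E *ᵥ (coef gs ν).col j) := by
            rw [Finset.sum_add_distrib, Finset.sum_range_succ', pow_zero, one_mul]
            ring
        _ ≤ ∑ ν ∈ range (L + 1), q ^ ν * l1 (g.A *ᵥ (coef gs ν).col j)
              + ∑ ν ∈ range (L + 1), q ^ ν * l1 (g.E *ᵥ (coef gs ν).col j) := by
            rw [Finset.sum_range_succ (fun ν => q ^ ν * l1 (g.E *ᵥ (coef gs ν).col j)) L]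
            have := mul_nonneg (pow_nonneg hq0.le L) (l1_nonneg (g.E *ᵥ (coef gs L).col j))
            linarith
        _ = _ := by
            rw [← Finset.sum_add_distrib]
            refine Finset.sum_congr rfl fun ν _ => ?_
            rw [h0 ν]; ring

/-- Short paths are almost orthogonal to a flat matrix. -/
lemma low_bound (gs : List (Gate ι)) (L : ℕ) {Γ : Matrix ι ι ℂ} {δ : ℝ}
    (hδ : ∀ i j, ‖Γ i j‖ ≤ δ) (hδ0 : 0 ≤ δ) :
    ∑ ν ∈ range L, ‖trace (coef gs ν * Γ)‖ ≤ Fintype.card ι * (δ * Real.sqrt 2 ^ L) := by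
  have hq : 0 < Real.sqrt 2 := Real.sqrt_pos.2 (by norm_num)
  have hq1 : 1 ≤ Real.sqrt 2 := Real.one_le_sqrt.2 (by norm_num)
  have h1 : ∀ M : Matrix ι ι ℂ, ‖trace (M * Γ)‖ ≤ δ * ∑ j, l1 (M.col j) := by
    intro M
    rw [trace_mul_comm]
    unfold trace
    rw [Finset.mul_sum]
    have h2 : ‖∑ j, diag (Γ * M) j‖ ≤ ∑ j, δ * l1 (M.col j) := by
      refine (norm_sum_le _ _).trans (Finset.sum_le_sum fun j _ => ?_)
      rw [diag_apply, Matrix.mul_apply]
      refine (norm_sum_le _ _).trans ?_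
      unfold l1
      rw [Finset.mul_sum]
      refine Finset.sum_le_sum fun k _ => ?_
      rw [norm_mul]
      exact mul_le_mul_of_nonneg_right (hδ j k) (norm_nonneg _)
    exact h2
  calc ∑ ν ∈ range L, ‖trace (coef gs ν * Γ)‖
      ≤ ∑ ν ∈ range L, δ * ∑ j, l1 ((coef gs ν).col j) := Finset.sum_le_sum fun ν _ => h1 _
    _ = δ * ∑ j, ∑ ν ∈ range L, l1 ((coef gs ν).col j) := by
        rw [← Finset.mul_sum, Finset.sum_comm]
    _ ≤ δ * ∑ _j : ι, Real.sqrt 2 ^ L := by
        gcongr with j _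
        have h3 : ∀ ν ∈ range L, l1 ((coef gs ν).col j) ≤
            Real.sqrt 2 ^ L * ((Real.sqrt 2)⁻¹ ^ ν * l1 ((coef gs ν).col j)) := by
          intro ν hν
          have h4 : 1 ≤ Real.sqrt 2 ^ L * (Real.sqrt 2)⁻¹ ^ ν := by
            rw [inv_pow, ← div_eq_mul_inv, one_le_div (by positivity)]
            exact pow_le_pow_right₀ hq1 (Finset.mem_range.1 hν).le
          rw [← mul_assoc]
          exact le_mul_of_one_le_left (l1_nonneg _) h4
        refine (Finset.sum_le_sum h3).trans ?_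
        rw [← Finset.mul_sum]
        have h5 := kraft gs j L
        have h6 : 0 ≤ Real.sqrt 2 ^ L := by positivity
        nlinarith
    _ = _ := by
        simp
        ring


lemma T_contr (g : Gate ι) {z : ℂ} (hz : ‖z‖ ≤ 1) : Contr (g.T z) := by
  have h1 : g.T z = g.R * (g.A + z • g.E) := by
    rw [Gate.T, Gate.BC, Matrix.mul_add, g.R_A, Matrix.mul_smul]
  rw [h1]
  refine (contr_of_iso g.h2).mul ?_
  intro u
  rw [add_mulVec, smul_mulVec, E_mulVec, A_mulVec]
  unfold nsq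
  refine Finset.sum_le_sum fun k _ => ?_
  simp only [Pi.add_apply, Pi.smul_apply, smul_eq_mul]
  split_ifs
  · rw [zero_add, norm_mul]
    have : ‖z‖ * ‖u k‖ ≤ 1 * ‖u k‖ := by gcongr
    rw [one_mul] at this
    gcongr
  · simp

lemma circ_contr (gs : List (Gate ι)) {z : ℂ} (hz : ‖z‖ ≤ 1) : Contr (circ gs z) := by
  induction gs with
  | nil => exact contr_one
  | cons g gs ih => exact (T_contr g hz).mul ih

/-- **Circuits with damping are almost orthogonal to a flat contraction.** -/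
theorem eta_bound (gs : List (Gate ι)) (L : ℕ) {Γ : Matrix ι ι ℂ} {δ : ℝ}
    (hδ : ∀ i j, ‖Γ i j‖ ≤ δ) (hδ0 : 0 ≤ δ) (hΓ : Contr Γ) {r : ℝ} (hr : 0 ≤ r) (hr1 : r ≤ 1) :
    ‖trace (circ gs r * Γ)‖ ≤ Fintype.card ι *
      (δ * Real.sqrt 2 ^ L + r ^ L * (1 + δ * Real.sqrt 2 ^ L)) := by
  set N : ℝ := (Fintype.card ι : ℝ) with hN
  set ε := δ * Real.sqrt 2 ^ L with hε
  set a : ℕ → ℂ := fun ν => trace (coef gs ν * Γ) with ha
  set M := gs.length + 1 with hM
  have hf : ∀ z : ℂ, trace (circ gs z * Γ) =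
      ∑ ν ∈ range L, z ^ ν * a ν + z ^ L * ∑ k ∈ range M, z ^ k * a (L + k) := by
    intro z
    rw [circ_eq_sum gs z (L + M) (by omega), Finset.sum_mul, trace_sum]
    have e1 : ∀ ν, trace (z ^ ν • coef gs ν * Γ) = z ^ ν * a ν := by
      intro ν
      rw [Matrix.smul_mul, trace_smul, smul_eq_mul]
    simp only [e1]
    rw [Finset.sum_range_add, Finset.mul_sum]
    congr 1
    refine Finset.sum_congr rfl fun k _ => ?_
    rw [pow_add]; ring
  have hlow : ∀ z : ℂ, ‖z‖ ≤ 1 → ‖∑ ν ∈ range L, z ^ ν * a ν‖ ≤ N * ε := by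
    intro z hz
    refine (norm_sum_le _ _).trans (le_trans (Finset.sum_le_sum fun ν _ => ?_)
      (low_bound gs L hδ hδ0))
    rw [norm_mul, norm_pow]
    exact mul_le_of_le_one_left (norm_nonneg _) (pow_le_one₀ (norm_nonneg _) hz)
  have hhigh : ∀ z : ℂ, ‖z‖ = 1 → ‖∑ k ∈ range M, z ^ k * a (L + k)‖ ≤ N * (1 + ε) := by
    intro z hz
    have e1 : z ^ L * ∑ k ∈ range M, z ^ k * a (L + k) =
        trace (circ gs z * Γ) - ∑ ν ∈ range L, z ^ ν * a ν := by
      rw [hf z]; ring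
    have e2 : ‖∑ k ∈ range M, z ^ k * a (L + k)‖ =
        ‖z ^ L * ∑ k ∈ range M, z ^ k * a (L + k)‖ := by
      rw [norm_mul, norm_pow, hz, one_pow, one_mul]
    rw [e2, e1]
    refine (norm_sub_le _ _).trans ?_
    have h1 := ((circ_contr gs hz.le).mul hΓ).norm_trace_le
    have h2 := hlow z hz.le
    rw [mul_add, mul_one]
    exact add_le_add h1 h2
  have hmax : ‖∑ k ∈ range M, (r : ℂ) ^ k * a (L + k)‖ ≤ N * (1 + ε) := by
    have hd : DiffContOnCl ℂ (fun z : ℂ => ∑ k ∈ range M, z ^ k * a (L + k))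
        (Metric.ball 0 1) := by
      apply Differentiable.diffContOnCl
      fun_prop
    refine Complex.norm_le_of_forall_mem_frontier_norm_le Metric.isBounded_ball hd ?_ ?_
    · intro z hz
      rw [frontier_ball 0 one_ne_zero, mem_sphere_zero_iff_norm] at hz
      exact hhigh z hz
    · rw [closure_ball 0 one_ne_zero, mem_closedBall_zero_iff, Complex.norm_real,
        Real.norm_of_nonneg hr]
      exact hr1
  rw [hf r]
  refine (norm_add_le _ _).trans ?_
  rw [norm_mul, norm_pow, Complex.norm_real, Real.norm_of_nonneg hr]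
  have h1 := hlow r (by rw [Complex.norm_real, Real.norm_of_nonneg hr]; exact hr1)
  have h2 := mul_le_mul_of_nonneg_left hmax (pow_nonneg hr L)
  calc _ ≤ N * ε + r ^ L * (N * (1 + ε)) := add_le_add h1 h2
    _ = _ := by ring

end Pool.Agent.H683R2.RF
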