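import Pool.Agent.H683R2.RFBase

/-!
# The resolvent and its correlation with `Γ`
-/

namespace Pool.Agent.H683R2.RF

open Matrix Complex Finset

variable {ι : Type*} [Fintype ι] [DecidableEq ι]

lemma Contr.pow {U : Matrix ι ι ℂ} (h : Contr U) (k : ℕ) : Contr (U ^ k) := by
  induction k with
  | zero => rw [pow_zero]; exact contr_one
  | succ k ih => rw [pow_succ]; exact ih.mul h

lemma Contr.norm_trace_mul_le {M W : Matrix ι ι ℂ} (h : Contr M) :
    ‖trace (M * W)‖ ≤ ∑ i, Real.sqrt (nsq (W.col i)) := by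
  unfold trace
  refine (norm_sum_le _ _).trans (Finset.sum_le_sum fun i _ => ?_)
  have h1 : diag (M * W) i = star (Pi.single i (1 : ℂ)) ⬝ᵥ (M *ᵥ W.col i) := by
    rw [diag_apply, entry_eq (M * W) i i, ← mulVec_mulVec]
    congr 2
    ext k
    simp
  rw [h1]
  have h2 := h.bilin (Pi.single i (1 : ℂ)) (W.col i)
  rw [nsq_single, Real.sqrt_one, one_mul] at h2
  exact h2

lemma exists_res {U : Matrix ι ι ℂ} (hU : Contr U) {ρ : ℂ} (hρ : ‖ρ‖ < 1) :
    ∃ V, (1 - ρ • U) * V = 1 := by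
  have hinj : Function.Injective (1 - ρ • U).mulVec := by
    have h0 : ∀ u, (1 - ρ • U) *ᵥ u = 0 → u = 0 := by
      intro u hu
      rw [sub_mulVec, one_mulVec, smul_mulVec, sub_eq_zero] at hu
      have h1 : nsq u = ‖ρ‖ ^ 2 * nsq (U *ᵥ u) := by
        conv_lhs => rw [hu]
        unfold nsq
        rw [Finset.mul_sum]
        refine Finset.sum_congr rfl fun i _ => ?_
        rw [Pi.smul_apply, smul_eq_mul, norm_mul, mul_pow]
      have h2 := hU u
      have h3 : ‖ρ‖ ^ 2 < 1 := by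
        have := norm_nonneg ρ
        nlinarith
      have h4 : nsq u ≤ 0 := by
        have h5 := nsq_nonneg u
        have h6 : ‖ρ‖ ^ 2 * nsq (U *ᵥ u) ≤ ‖ρ‖ ^ 2 * nsq u := by gcongr
        nlinarith
      have h5 : nsq u = 0 := le_antisymm h4 (nsq_nonneg u)
      unfold nsq at h5
      rw [Finset.sum_eq_zero_iff_of_nonneg (fun i _ => by positivity)] at h5
      ext i
      have := h5 i (Finset.mem_univ i)
      simpa using this
    intro u v huv
    have := h0 (u - v) (by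
      rw [mulVec_sub]
      exact sub_eq_zero.2 huv)
    exact sub_eq_zero.1 this
  have hunit : IsUnit (1 - ρ • U) := Matrix.mulVec_injective_iff_isUnit.1 hinj
  obtain ⟨u, hu⟩ := hunit
  refine ⟨((u⁻¹ : (Matrix ι ι ℂ)ˣ) : Matrix ι ι ℂ), ?_⟩
  rw [← hu, Units.mul_inv]

/-- The resolvent `Z`. -/
theorem exists_Z {U K Γ : Matrix ι ι ℂ} (hU : Contr U) {w : ℂ} (hw : ‖w‖ = 1) {lam t0 η : ℝ}
    (hlam : 0 < lam) (hη : 0 ≤ η) (htr : trace Γ = 0)
    (hk : ∀ k : ℕ, ‖trace (U ^ (k + 1) * Γ)‖ ≤ Fintype.card ι * η)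
    (hK : K * (1 - w • U) = 1 + w • U) :
    ∃ Z, (K + ((lam : ℂ) + t0 * I) • 1) * Z = (lam : ℂ) • 1 ∧
      ‖trace (Z * Γ)‖ ≤ Fintype.card ι * η := by
  set c0 : ℂ := (lam : ℂ) + t0 * I with hc0
  set N : ℝ := (Fintype.card ι : ℝ) with hN
  have hN0 : 0 ≤ N := Nat.cast_nonneg _
  have hp : ‖c0 + 1‖ ^ 2 = (lam + 1) ^ 2 + t0 ^ 2 := by
    rw [← Complex.normSq_eq_norm_sq, hc0, Complex.normSq_apply]
    simp
    ring
  have hm : ‖c0 - 1‖ ^ 2 = (lam - 1) ^ 2 + t0 ^ 2 := by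
    rw [← Complex.normSq_eq_norm_sq, hc0, Complex.normSq_apply]
    simp
    ring
  have hp0 : 0 < ‖c0 + 1‖ := by
    have : 0 < ‖c0 + 1‖ ^ 2 := by rw [hp]; positivity
    exact lt_of_le_of_ne (norm_nonneg _) (fun h => by rw [← h] at this; simp at this)
  have hne : c0 + 1 ≠ 0 := norm_pos_iff.1 hp0
  set ρ : ℂ := (c0 - 1) / (c0 + 1) * w with hρd
  have hρn : ‖ρ‖ = ‖c0 - 1‖ / ‖c0 + 1‖ := by rw [hρd, norm_mul, norm_div, hw, mul_one]
  have hρ2 : 1 - ‖ρ‖ ^ 2 = 4 * lam / ‖c0 + 1‖ ^ 2 := by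
    rw [hρn, div_pow, eq_div_iff (by positivity), sub_mul, div_mul_cancel₀ _ (by positivity),
      hp, hm]
    ring
  have hρ1 : ‖ρ‖ < 1 := by
    have h1 : 0 < 1 - ‖ρ‖ ^ 2 := by rw [hρ2]; positivity
    have h2 := norm_nonneg ρ
    nlinarith
  obtain ⟨V, hV⟩ := exists_res hU hρ1
  have hV1 : V = 1 + ρ • (U * V) := by
    rw [Matrix.sub_mul, Matrix.one_mul, Matrix.smul_mul] at hV
    rw [← hV]; abel
  have hρc : (c0 + 1) * ρ = (c0 - 1) * w := by
    rw [hρd, ← mul_assoc, mul_div_cancel₀ _ hne]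
  refine ⟨((lam : ℂ) / (c0 + 1)) • ((1 - w • U) * V), ?_, ?_⟩
  · rw [Matrix.mul_smul, ← Matrix.mul_assoc, Matrix.add_mul, hK, Matrix.smul_mul, Matrix.one_mul]
    have h1 : 1 + w • U + c0 • (1 - w • U) = (c0 + 1) • (1 - ρ • U) := by
      rw [smul_sub, smul_sub, smul_smul, smul_smul, hρc]
      module
    rw [h1, Matrix.smul_mul, hV, smul_smul, div_mul_cancel₀ _ hne]
  · have h1 : (1 - w • U) * V = 1 + (ρ - w) • (U * V) := by
      rw [Matrix.sub_mul, Matrix.one_mul, Matrix.smul_mul]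
      have h2 : V - w • (U * V) = 1 + ρ • (U * V) - w • (U * V) := by rw [← hV1]
      rw [h2]
      module
    have hser : ∀ K : ℕ, trace (U * V * Γ) =
        ∑ k ∈ range K, ρ ^ k * trace (U ^ (k + 1) * Γ) +
          ρ ^ K * trace (U ^ (K + 1) * (V * Γ)) := by
      intro K
      induction K with
      | zero => simp [Matrix.mul_assoc]
      | succ K ih =>
        rw [ih, Finset.sum_range_succ]
        have h2 : U ^ (K + 1) * (V * Γ) =
            U ^ (K + 1) * Γ + ρ • (U ^ (K + 1 + 1) * (V * Γ)) := by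
          conv_lhs => rw [hV1]
          rw [Matrix.add_mul, Matrix.one_mul, Matrix.mul_add, Matrix.smul_mul, Matrix.mul_smul,
            pow_succ U (K + 1)]
          simp only [Matrix.mul_assoc]
        rw [h2, trace_add, trace_smul, smul_eq_mul, pow_succ]
        ring
    set Cst : ℝ := ∑ i, Real.sqrt (nsq ((V * Γ).col i)) with hCst
    have hbd : ∀ K : ℕ, ‖trace (U * V * Γ)‖ ≤ N * η / (1 - ‖ρ‖) + ‖ρ‖ ^ K * Cst := by
      intro K
      rw [hser K]
      refine (norm_add_le _ _).trans (add_le_add ?_ ?_)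
      · refine (norm_sum_le _ _).trans ?_
        have h2 : ∀ k ∈ range K, ‖ρ ^ k * trace (U ^ (k + 1) * Γ)‖ ≤ ‖ρ‖ ^ k * (N * η) := by
          intro k _
          rw [norm_mul, norm_pow]
          exact mul_le_mul_of_nonneg_left (hk k) (by positivity)
        refine (Finset.sum_le_sum h2).trans ?_
        rw [← Finset.sum_mul, div_eq_mul_inv, mul_comm]
        apply mul_le_mul_of_nonneg_left _ (by positivity)
        rw [← tsum_geometric_of_lt_one (norm_nonneg _) hρ1]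
        exact (summable_geometric_of_lt_one (norm_nonneg _) hρ1).sum_le_tsum _
          (fun k _ => by positivity)
      · rw [norm_mul, norm_pow]
        exact mul_le_mul_of_nonneg_left (hU.pow (K + 1)).norm_trace_mul_le (by positivity)
    have hlim : ‖trace (U * V * Γ)‖ ≤ N * η / (1 - ‖ρ‖) := by
      have h2 : Filter.Tendsto (fun K : ℕ => N * η / (1 - ‖ρ‖) + ‖ρ‖ ^ K * Cst) Filter.atTop
          (nhds (N * η / (1 - ‖ρ‖) + 0 * Cst)) :=
        ((tendsto_pow_atTop_nhds_zero_of_lt_one (norm_nonneg _) hρ1).mul_const _).const_add _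
      rw [zero_mul, add_zero] at h2
      exact ge_of_tendsto' h2 hbd
    have hρw : ‖ρ - w‖ = 2 / ‖c0 + 1‖ := by
      have h2 : ρ - w = (-2 / (c0 + 1)) * w := by
        rw [hρd]
        field_simp
        ring
      rw [h2, norm_mul, norm_div, hw]
      simp
    rw [Matrix.smul_mul, trace_smul, smul_eq_mul, h1, Matrix.add_mul, Matrix.one_mul, trace_add,
      htr, zero_add, Matrix.smul_mul, trace_smul, smul_eq_mul, norm_mul, norm_mul, norm_div, hρw,
      Complex.norm_real, Real.norm_of_nonneg hlam.le]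
    have h3 : 2 * lam / ‖c0 + 1‖ ^ 2 ≤ 1 - ‖ρ‖ := by
      have h4 : 2 * lam / ‖c0 + 1‖ ^ 2 = (1 - ‖ρ‖ ^ 2) / 2 := by
        rw [hρ2]; ring
      rw [h4]
      have := norm_nonneg ρ
      nlinarith
    have h5 : 0 < 1 - ‖ρ‖ := by linarith
    calc lam / ‖c0 + 1‖ * (2 / ‖c0 + 1‖ * ‖trace (U * V * Γ)‖)
        = (2 * lam / ‖c0 + 1‖ ^ 2) * ‖trace (U * V * Γ)‖ := by
          field_simp
      _ ≤ (1 - ‖ρ‖) * (N * η / (1 - ‖ρ‖)) := by
          apply mul_le_mul h3 hlim (norm_nonneg _) h5.le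
      _ = N * η := by field_simp

end Pool.Agent.H683R2.RF
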