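import Pool.Agent.H683R2.RFCore2
import Pool.Agent.H683R2.RFCount2
import Pool.Agent.H683R2.RFPath
import Pool.Agent.H683R2.RFZ

/-!
# Assembly: the inequality for a circuit computing the rotated matrix
-/

namespace Pool.Agent.H683R2.RF

open Matrix Complex Finset

variable {ι : Type*} [Fintype ι] [DecidableEq ι]

omit [DecidableEq ι] in
lemma trace_hs' {σ : Type*} [Fintype σ] (Y : Matrix ι σ ℂ) :
    trace (Y * Yᴴ) = ((∑ j, nsq (Y.col j) : ℝ) : ℂ) := by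
  rw [trace_mul_comm]
  unfold trace
  push_cast
  refine Finset.sum_congr rfl fun j _ => ?_
  rw [diag_apply, mul_apply', ← star_dot_self]
  rfl

/-- Data of the resolvent at radius one. -/
lemma res_one {Γ : Matrix ι ι ℂ} (hΓ : Γᴴ = Γ) (hΓ2 : Γ * Γ = 1) {c s : ℝ} (hcs : c ^ 2 + s ^ 2 = 1)
    (hc : 19 / 20 ≤ c) (hs : 0 ≤ s) (hs1 : s ≤ 1 / 5) {w : ℂ} (hw : ‖w‖ = 1) (hw0 : w.re ≤ 0) :
    ∃ (t0 t1 : ℝ) (M : Matrix ι ι ℂ), M * (1 - w • ((c : ℂ) • 1 + ((s : ℂ) * I) • Γ)) = 1 ∧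
      (-I) • ((2 : ℂ) • M - 1) = -((t0 : ℂ) • 1 + (t1 : ℂ) • Γ) ∧ Contr M ∧
      s / 2 ≤ t1 ∧ t1 ≤ 20 / 19 * s := by
  set p := c - w.re with hp
  have hp0 : 19 / 20 ≤ p := by linarith
  have hre : |w.re| ≤ 1 := hw ▸ Complex.abs_re_le_norm w
  have him : |w.im| ≤ 1 := hw ▸ Complex.abs_im_le_norm w
  have hc1 : c ≤ 1 := by nlinarith
  have hp2 : p ≤ 2 := by
    have := (abs_le.1 hre).1
    linarith
  have hpp : 0 < p := by linarith
  have hws : w.re ^ 2 + w.im ^ 2 = 1 := by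
    have h := Complex.normSq_eq_norm_sq w
    rw [hw, Complex.normSq_apply] at h
    linarith
  set t0 := -w.im / p with ht0
  set t1 := s / p with ht1
  have e0 : t0 * p = -w.im := by rw [ht0]; field_simp
  have e1 : t1 * p = s := by rw [ht1]; field_simp
  have ht0b : t0 ^ 2 ≤ 1.11 := by
    rw [ht0, div_pow, div_le_iff₀ (by positivity)]
    have : w.im ^ 2 ≤ 1 := by nlinarith [sq_nonneg w.re]
    nlinarith
  have ht1b : t1 ≤ 20 / 19 * s := by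
    rw [ht1, div_le_iff₀ hpp]
    nlinarith
  have ht1a : s / 2 ≤ t1 := by
    rw [ht1]
    gcongr
  have ht10 : 0 ≤ t1 := by positivity
  set M : Matrix ι ι ℂ := (1 / 2 : ℂ) • ((1 - t0 * I) • 1 - ((t1 : ℂ) * I) • Γ) with hM
  have hww : (w.re : ℂ) + w.im * I = w := Complex.re_add_im w
  refine ⟨t0, t1, M, ?_, ?_, ?_, ht1a, ht1b⟩
  · -- the two coefficient identities
    have hpc : (p : ℂ) ≠ 0 := by exact_mod_cast hpp.ne'
    have E0 : (t0 : ℂ) * p = -w.im := by exact_mod_cast e0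
    have E1 : (t1 : ℂ) * p = s := by exact_mod_cast e1
    have EP : (p : ℂ) = c - w.re := by rw [hp]; push_cast; ring
    have EC : (c : ℂ) ^ 2 + (s : ℂ) ^ 2 = 1 := by exact_mod_cast hcs
    have EW : (w.re : ℂ) ^ 2 + (w.im : ℂ) ^ 2 = 1 := by exact_mod_cast hws
    have hA : (1 - (t0 : ℂ) * I) * (1 - w * c) - t1 * w * s = 2 := by
      apply mul_left_cancel₀ hpc
      have h1 : (p : ℂ) * ((1 - t0 * I) * (1 - w * c) - t1 * w * s) =
          (p - (t0 * p) * I) * (1 - w * c) - (t1 * p) * w * s := by ring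
      rw [h1, E0, E1, EP]
      linear_combination (-(w.re : ℂ) - w.im * I) * EC + c * EW +
        (-(w.im : ℂ) ^ 2 * c) * Complex.I_mul_I +
        (c * (c - w.re + w.im * I) + (s : ℂ) ^ 2) * hww
    have hB : w * s * (1 - (t0 : ℂ) * I) + t1 * (1 - w * c) = 0 := by
      apply mul_left_cancel₀ hpc
      have h1 : (p : ℂ) * (w * s * (1 - (t0 : ℂ) * I) + t1 * (1 - w * c)) =
          w * s * (p - (t0 * p) * I) + (t1 * p) * (1 - w * c) := by ring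
      rw [h1, E0, E1, EP]
      linear_combination (-s : ℂ) * EW + ((s : ℂ) * w.im ^ 2) * Complex.I_mul_I +
        (s * (w.re - w.im * I) : ℂ) * hww
    have hprod : M * (1 - w • ((c : ℂ) • 1 + ((s : ℂ) * I) • Γ)) =
        ((1 / 2 : ℂ) * ((1 - t0 * I) * (1 - w * c) + (t1 * w * s) * (I * I))) • 1 -
        ((1 / 2 : ℂ) * I * (w * s * (1 - (t0 : ℂ) * I) + t1 * (1 - w * c))) • Γ := by
      have h1 : (1 : Matrix ι ι ℂ) - w • ((c : ℂ) • 1 + ((s : ℂ) * I) • Γ) =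
          (1 - w * c) • 1 - (w * s * I) • Γ := by module
      rw [h1, hM, Matrix.smul_mul, Matrix.sub_mul, Matrix.mul_sub, Matrix.mul_sub,
        Matrix.smul_mul, Matrix.smul_mul, Matrix.smul_mul, Matrix.smul_mul, Matrix.mul_smul,
        Matrix.mul_smul, Matrix.mul_smul, Matrix.mul_smul, hΓ2, Matrix.mul_one, Matrix.mul_one,
        Matrix.one_mul]
      module
    rw [hprod, hB, Complex.I_mul_I]
    have : (1 - (t0 : ℂ) * I) * (1 - w * c) + t1 * w * s * -1 = 2 := by rw [← hA]; ring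
    rw [this]
    simp
  · rw [hM, smul_smul]
    have h1 : (2 : ℂ) * (1 / 2) = 1 := by norm_num
    rw [h1, one_smul]
    have h2 : (-I) • ((1 - (t0 : ℂ) * I) • (1 : Matrix ι ι ℂ) - ((t1 : ℂ) * I) • Γ - 1) =
        ((I * I) * t0) • 1 + ((I * I) * t1) • Γ := by module
    rw [h2, Complex.I_mul_I]
    module
  · intro u
    have hΓc : nsq (Γ *ᵥ u) = nsq u := nsq_of_iso (by rw [hΓ, hΓ2]) u
    have h1 : ∀ i, ‖(M *ᵥ u) i‖ ^ 2 ≤ 3 / 8 * (1 + t0 ^ 2) * ‖u i‖ ^ 2 +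
        3 / 4 * t1 ^ 2 * ‖(Γ *ᵥ u) i‖ ^ 2 := by
      intro i
      have h2 : (M *ᵥ u) i = (1 / 2 : ℂ) * ((1 - t0 * I) * u i - (t1 * I) * (Γ *ᵥ u) i) := by
        rw [hM, smul_mulVec, sub_mulVec, smul_mulVec, smul_mulVec, one_mulVec]
        rfl
      rw [h2, norm_mul, mul_pow]
      have h3 : ‖(1 - t0 * I) * u i - (t1 * I) * (Γ *ᵥ u) i‖ ≤
          ‖(1 - t0 * I : ℂ)‖ * ‖u i‖ + t1 * ‖(Γ *ᵥ u) i‖ := by
        refine (norm_sub_le _ _).trans ?_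
        rw [norm_mul, norm_mul, norm_mul, norm_I, Complex.norm_real, Real.norm_of_nonneg ht10,
          mul_one]
      have h4 : ‖(1 - t0 * I : ℂ)‖ ^ 2 = 1 + t0 ^ 2 := by
        rw [← Complex.normSq_eq_norm_sq, Complex.normSq_apply]
        simp
        ring
      have h5 : ‖(1 / 2 : ℂ)‖ ^ 2 = 1 / 4 := by norm_num
      rw [h5]
      set x := ‖(1 - t0 * I : ℂ)‖ * ‖u i‖ with hx
      set y := t1 * ‖(Γ *ᵥ u) i‖ with hy
      have h6 : ‖(1 - t0 * I) * u i - (t1 * I) * (Γ *ᵥ u) i‖ ^ 2 ≤ (x + y) ^ 2 := by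
        gcongr
      have h7 : (x + y) ^ 2 ≤ 3 / 2 * x ^ 2 + 3 * y ^ 2 := by
        nlinarith [sq_nonneg (x - 2 * y)]
      have h8 : x ^ 2 = (1 + t0 ^ 2) * ‖u i‖ ^ 2 := by rw [hx, mul_pow, h4]
      have h9 : y ^ 2 = t1 ^ 2 * ‖(Γ *ᵥ u) i‖ ^ 2 := by rw [hy, mul_pow]
      rw [h8, h9] at h7
      linarith
    have h2 : nsq (M *ᵥ u) ≤ 3 / 8 * (1 + t0 ^ 2) * nsq u + 3 / 4 * t1 ^ 2 * nsq (Γ *ᵥ u) := by
      unfold nsq
      rw [Finset.mul_sum, Finset.mul_sum, ← Finset.sum_add_distrib]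
      exact Finset.sum_le_sum fun i _ => h1 i
    rw [hΓc] at h2
    have h3 : t1 ^ 2 ≤ (20 / 19 * s) ^ 2 := by gcongr
    have h4 : (20 / 19 * s) ^ 2 ≤ 1 / 20 := by nlinarith
    have h5 := nsq_nonneg u
    nlinarith

end Pool.Agent.H683R2.RF
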