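import Mathlib

/-!
# Elementary facts on complex matrices (squared norms, contractions, diagonalisation)
-/

namespace Pool.Agent.H683R2.RF

open Matrix Complex

variable {ι σ : Type*} [Fintype ι] [Fintype σ]

/-- The squared Euclidean norm of a vector. -/
noncomputable def nsq (u : ι → ℂ) : ℝ := ∑ i, ‖u i‖ ^ 2

lemma nsq_nonneg (u : ι → ℂ) : 0 ≤ nsq u := Finset.sum_nonneg fun _ _ => by positivity

lemma star_dot_self (u : ι → ℂ) : star u ⬝ᵥ u = (nsq u : ℂ) := by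
  unfold nsq dotProduct
  push_cast
  refine Finset.sum_congr rfl fun i _ => ?_
  rw [Pi.star_apply, ← Complex.conj_mul']
  rfl

lemma cauchy (u v : ι → ℂ) : ‖star u ⬝ᵥ v‖ ^ 2 ≤ nsq u * nsq v := by
  have h1 : ‖star u ⬝ᵥ v‖ ≤ ∑ i, ‖u i‖ * ‖v i‖ := by
    unfold dotProduct
    refine (norm_sum_le _ _).trans (le_of_eq (Finset.sum_congr rfl fun i _ => ?_))
    rw [norm_mul, Pi.star_apply, norm_star]
  have h2 := Finset.sum_mul_sq_le_sq_mul_sq Finset.univ (fun i => ‖u i‖) (fun i => ‖v i‖)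
  calc ‖star u ⬝ᵥ v‖ ^ 2 ≤ (∑ i, ‖u i‖ * ‖v i‖) ^ 2 := by
        gcongr
    _ ≤ _ := h2

lemma cauchy' (u v : ι → ℂ) : ‖star u ⬝ᵥ v‖ ≤ Real.sqrt (nsq u) * Real.sqrt (nsq v) := by
  rw [← Real.sqrt_mul (nsq_nonneg u)]
  exact Real.le_sqrt_of_sq_le (cauchy u v)

/-- Contractions. -/
def Contr (M : Matrix ι σ ℂ) : Prop := ∀ u, nsq (M *ᵥ u) ≤ nsq u

lemma Contr.mul {τ : Type*} [Fintype τ] {M : Matrix ι σ ℂ} {N : Matrix σ τ ℂ} (hM : Contr M)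
    (hN : Contr N) : Contr (M * N) := by
  intro u
  rw [← mulVec_mulVec]
  exact (hM _).trans (hN _)

lemma contr_one [DecidableEq ι] : Contr (1 : Matrix ι ι ℂ) := by
  intro u
  rw [one_mulVec]

lemma nsq_mulVec (M : Matrix ι σ ℂ) (u : σ → ℂ) :
    (nsq (M *ᵥ u) : ℂ) = star u ⬝ᵥ ((Mᴴ * M) *ᵥ u) := by
  rw [← star_dot_self, star_mulVec, ← mulVec_mulVec, dotProduct_mulVec, dotProduct_mulVec,
    dotProduct_mulVec]

lemma nsq_of_iso [DecidableEq σ] {M : Matrix ι σ ℂ} (h : Mᴴ * M = 1) (u : σ → ℂ) :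
    nsq (M *ᵥ u) = nsq u := by
  have h1 := nsq_mulVec M u
  rw [h, one_mulVec, star_dot_self] at h1
  exact_mod_cast h1

lemma contr_of_iso [DecidableEq σ] {M : Matrix ι σ ℂ} (h : Mᴴ * M = 1) : Contr M :=
  fun u => (nsq_of_iso h u).le

lemma Contr.conjTranspose {M : Matrix ι σ ℂ} (h : Contr M) : Contr Mᴴ := by
  intro u
  have h1 := nsq_mulVec Mᴴ u
  rw [conjTranspose_conjTranspose, ← mulVec_mulVec] at h1
  have h2 := cauchy' u (M *ᵥ (Mᴴ *ᵥ u))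
  rw [← h1, Complex.norm_real, Real.norm_of_nonneg (nsq_nonneg _)] at h2
  have h3 : Real.sqrt (nsq (M *ᵥ (Mᴴ *ᵥ u))) ≤ Real.sqrt (nsq (Mᴴ *ᵥ u)) :=
    Real.sqrt_le_sqrt (h _)
  set a := Real.sqrt (nsq (Mᴴ *ᵥ u)) with ha
  set b := Real.sqrt (nsq u) with hb
  have ha2 : nsq (Mᴴ *ᵥ u) = a ^ 2 := (Real.sq_sqrt (nsq_nonneg _)).symm
  have hb2 : nsq u = b ^ 2 := (Real.sq_sqrt (nsq_nonneg _)).symm
  have ha0 : 0 ≤ a := Real.sqrt_nonneg _
  have hb0 : 0 ≤ b := Real.sqrt_nonneg _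
  rw [ha2] at h2 ⊢
  rw [hb2]
  have h4 : a ^ 2 ≤ b * a := h2.trans (mul_le_mul_of_nonneg_left h3 hb0)
  have h5 : a ≤ b := by
    rcases ha0.eq_or_lt with h | h
    · rw [← h]; exact hb0
    · nlinarith
  gcongr

lemma Contr.bilin {M : Matrix ι σ ℂ} (h : Contr M) (u : ι → ℂ) (v : σ → ℂ) :
    ‖star u ⬝ᵥ (M *ᵥ v)‖ ≤ Real.sqrt (nsq u) * Real.sqrt (nsq v) :=
  (cauchy' _ _).trans (mul_le_mul_of_nonneg_left (Real.sqrt_le_sqrt (h v)) (Real.sqrt_nonneg _))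

lemma Contr.quad {M : Matrix ι ι ℂ} (h : Contr M) (u : ι → ℂ) :
    ‖star u ⬝ᵥ (M *ᵥ u)‖ ≤ nsq u := by
  have := h.bilin u u
  rwa [Real.mul_self_sqrt (nsq_nonneg _)] at this

lemma nsq_single [DecidableEq ι] (i : ι) : nsq (Pi.single i (1 : ℂ)) = 1 := by
  unfold nsq
  rw [Finset.sum_eq_single i]
  · simp
  · intro j _ hj
    simp [Pi.single_eq_of_ne hj]
  · simp

lemma entry_eq [DecidableEq ι] [DecidableEq σ] (M : Matrix ι σ ℂ) (i : ι) (j : σ) :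
    M i j = star (Pi.single i (1 : ℂ)) ⬝ᵥ (M *ᵥ Pi.single j 1) := by
  simp

lemma Contr.norm_trace_le [DecidableEq ι] {M : Matrix ι ι ℂ} (h : Contr M) :
    ‖trace M‖ ≤ Fintype.card ι := by
  unfold trace
  refine (norm_sum_le _ _).trans ?_
  have : ∀ i ∈ (Finset.univ : Finset ι), ‖diag M i‖ ≤ 1 := by
    intro i _
    rw [diag_apply, entry_eq M i i]
    refine (h.quad _).trans ?_
    rw [nsq_single]
  refine (Finset.sum_le_sum this).trans ?_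
  simp

/-- The trace of `B diag(f) Bᴴ M` as a sum over the columns of `B`. -/
lemma trace_BfB [DecidableEq σ] (B : Matrix ι σ ℂ) (f : σ → ℂ) (M : Matrix ι ι ℂ) :
    trace (B * diagonal f * Bᴴ * M) =
      ∑ j, f j * (star (B.col j) ⬝ᵥ (M *ᵥ B.col j)) := by
  rw [Matrix.mul_assoc, trace_mul_comm, ← Matrix.mul_assoc]
  unfold trace
  refine Finset.sum_congr rfl fun j _ => ?_
  rw [diag_apply, mul_diagonal, mul_comm]
  congr 1
  rw [Matrix.mul_assoc, mul_apply']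
  rfl

/-- The quadratic form of `B diag(f) Bᴴ`. -/
lemma quad_BfB [DecidableEq σ] (B : Matrix ι σ ℂ) (f : σ → ℂ) (u : ι → ℂ) :
    star u ⬝ᵥ ((B * diagonal f * Bᴴ) *ᵥ u) =
      ∑ j, f j * ((‖star (B.col j) ⬝ᵥ u‖ ^ 2 : ℝ) : ℂ) := by
  rw [Matrix.mul_assoc, ← mulVec_mulVec, ← mulVec_mulVec, dotProduct_mulVec]
  have h1 : star u ᵥ* B = star (Bᴴ *ᵥ u) := by
    rw [star_mulVec, conjTranspose_conjTranspose]
  rw [h1]
  unfold dotProduct
  refine Finset.sum_congr rfl fun j _ => ?_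
  have h2 : (Bᴴ *ᵥ u) j = ∑ i, star (B.col j) i * u i := rfl
  rw [mulVec_diagonal, Pi.star_apply, h2]
  push_cast
  rw [← Complex.conj_mul', ← starRingEnd_apply]
  ring

lemma exists_diag [DecidableEq ι] {A : Matrix ι ι ℂ} (hA : Aᴴ = A) :
    ∃ (V : Matrix ι ι ℂ) (ev : ι → ℝ), V * Vᴴ = 1 ∧ Vᴴ * V = 1 ∧
      A = V * diagonal (fun i => (ev i : ℂ)) * Vᴴ ∧
      A.rank = Fintype.card {i // ev i ≠ 0} := by
  have hA' : A.IsHermitian := hA
  refine ⟨hA'.eigenvectorUnitary, hA'.eigenvalues, ?_, ?_, ?_, hA'.rank_eq_card_non_zero_eigs⟩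
  · exact Unitary.coe_mul_star_self _
  · exact Unitary.coe_star_mul_self _
  · have := hA'.spectral_theorem
    rw [Unitary.conjStarAlgAut_apply] at this
    exact this

end Pool.Agent.H683R2.RF
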