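import Pool.Agent.H683R2.RFBase

/-!
# The core inequality
-/

namespace Pool.Agent.H683R2.RF

open Matrix Complex

variable {ι σ : Type*} [Fintype ι] [Fintype σ]

/-- The function `(e + i c) / (1 + i e c)`. -/
noncomputable def kk (e c : ℝ) : ℂ := (e + c * I) / (1 + e * c * I)

/-- Its real part. -/
noncomputable def pp (e c : ℝ) : ℝ := e * (1 + c ^ 2) / (1 + e ^ 2 * c ^ 2)

lemma den_ne (e c : ℝ) : (1 + e * c * I : ℂ) ≠ 0 := by
  intro h
  have := congrArg Complex.re h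
  simp at this

lemma den_pos (e c : ℝ) : 0 < 1 + e ^ 2 * c ^ 2 := by positivity

lemma kk_eq (e c : ℝ) : kk e c = (pp e c : ℂ) + ((c - e * c * pp e c : ℝ) : ℂ) * I := by
  unfold kk pp
  rw [div_eq_iff (den_ne e c)]
  have h := (den_pos e c).ne'
  have h' : (1 + (e : ℂ) ^ 2 * (c : ℂ) ^ 2) ≠ 0 := by exact_mod_cast h
  push_cast
  field_simp
  ring_nf
  simp only [Complex.I_sq]
  ring

lemma pp_nonneg {e : ℝ} (he : 0 < e) (c : ℝ) : 0 ≤ pp e c := by
  unfold pp; positivity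

lemma pp_le {e : ℝ} (he : 0 < e) (c : ℝ) : pp e c ≤ e * (1 + c ^ 2) := by
  unfold pp
  rw [div_le_iff₀ (den_pos e c)]
  have : 0 ≤ e * (1 + c ^ 2) * (e ^ 2 * c ^ 2) := by positivity
  nlinarith

lemma norm_kk_sub {e : ℝ} (he : 0 < e) (c : ℝ) : ‖kk e c - c * I‖ ≤ e * (1 + c ^ 2) := by
  have h1 : kk e c - c * I = (e * (1 + c ^ 2) : ℝ) / (1 + e * c * I) := by
    unfold kk
    rw [eq_div_iff (den_ne e c), sub_mul, div_mul_cancel₀ _ (den_ne e c)]
    push_cast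
    ring_nf
    simp only [Complex.I_sq]
    ring
  rw [h1, norm_div, Complex.norm_real, Real.norm_of_nonneg (by positivity)]
  apply div_le_self (by positivity)
  have h2 : (1 : ℝ) ≤ |(1 + e * c * I : ℂ).re| := by simp
  exact h2.trans (Complex.abs_re_le_norm _)

/-- The weight of an eigenvalue in the core inequality. -/
noncomputable def wt (e x c : ℝ) : ℝ := if 1 / (x * e) ≤ |c| then min 1 (e * |c|) else 0

section

variable [DecidableEq ι] [DecidableEq σ]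
  (B : Matrix ι σ ℂ) (c : σ → ℝ) (Γ Z : Matrix ι ι ℂ) (e lam t0 t1 : ℝ)

/-- The two identities. -/
lemma two_ids (hΓ : Γᴴ = Γ)
    (hJ : B * diagonal (fun j => (c j : ℂ)) * Bᴴ = -((t0 : ℂ) • 1 + (t1 : ℂ) • Γ))
    (hZ : (B * diagonal (fun j => kk e (c j)) * Bᴴ + ((lam : ℂ) + t0 * I) • 1) * Z
      = (lam : ℂ) • 1) :
    (Zᴴ * B) * diagonal (fun j => (pp e (c j) : ℂ)) * (Zᴴ * B)ᴴ + (lam : ℂ) • (Zᴴ * Z)
        = (lam / 2 : ℂ) • (Z + Zᴴ) ∧
    (t1 : ℂ) • (Zᴴ * Γ * Z) +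
        (Zᴴ * B) * diagonal (fun j => ((e * c j * pp e (c j) : ℝ) : ℂ)) * (Zᴴ * B)ᴴ
        = (-(I * lam) / 2 : ℂ) • (Z - Zᴴ) := by
  set P : Matrix ι ι ℂ := B * diagonal (fun j => (pp e (c j) : ℂ)) * Bᴴ with hP
  set Q : Matrix ι ι ℂ := B * diagonal (fun j => ((e * c j * pp e (c j) : ℝ) : ℂ)) * Bᴴ with hQ
  have hPh : Pᴴ = P := by
    rw [hP, conjTranspose_mul, conjTranspose_mul, conjTranspose_conjTranspose,
      diagonal_conjTranspose, Matrix.mul_assoc]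
    congr 3
    ext j
    simp
  have hQh : Qᴴ = Q := by
    rw [hQ, conjTranspose_mul, conjTranspose_mul, conjTranspose_conjTranspose,
      diagonal_conjTranspose, Matrix.mul_assoc]
    congr 3
    ext j
    simp
  have hdiag : (diagonal (fun j => kk e (c j)) : Matrix σ σ ℂ) =
      diagonal (fun j => (pp e (c j) : ℂ)) + I • diagonal (fun j => (c j : ℂ))
        - I • diagonal (fun j => ((e * c j * pp e (c j) : ℝ) : ℂ)) := by
    ext a b
    by_cases h : a = b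
    · subst h
      simp only [diagonal_apply_eq, Matrix.add_apply, Matrix.sub_apply, Matrix.smul_apply, smul_eq_mul]
      rw [kk_eq]
      push_cast
      ring
    · simp [h]
  have hK : B * diagonal (fun j => kk e (c j)) * Bᴴ =
      P - I • ((t0 : ℂ) • 1 + (t1 : ℂ) • Γ) - I • Q := by
    rw [hdiag, Matrix.mul_sub, Matrix.mul_add, Matrix.sub_mul, Matrix.add_mul,
      Matrix.mul_smul, Matrix.mul_smul, Matrix.smul_mul, Matrix.smul_mul, hJ, ← hP, ← hQ]
    rw [smul_neg, ← sub_eq_add_neg]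
  set HR : Matrix ι ι ℂ := P + (lam : ℂ) • 1 with hHR
  set HI : Matrix ι ι ℂ := (t1 : ℂ) • Γ + Q with hHI
  have hHRh : HRᴴ = HR := by
    rw [hHR, conjTranspose_add, conjTranspose_smul, hPh, conjTranspose_one]
    simp
  have hHIh : HIᴴ = HI := by
    rw [hHI, conjTranspose_add, conjTranspose_smul, hQh, hΓ]
    simp
  have hX : B * diagonal (fun j => kk e (c j)) * Bᴴ + ((lam : ℂ) + t0 * I) • 1
      = HR - I • HI := by
    rw [hK, hHR, hHI]
    ext a b
    simp only [Matrix.add_apply, Matrix.sub_apply, Matrix.smul_apply, smul_eq_mul]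
    ring
  rw [hX] at hZ
  have e1 : Zᴴ * (HR - I • HI) * Z = (lam : ℂ) • Zᴴ := by
    rw [Matrix.mul_assoc, hZ]
    simp
  have e2 : Zᴴ * (HR + I • HI) * Z = (lam : ℂ) • Z := by
    have h := congrArg conjTranspose hZ
    rw [conjTranspose_mul, conjTranspose_sub, conjTranspose_smul, hHRh, hHIh] at h
    have h3 : (HR - star I • HI) = HR + I • HI := by
      rw [show star I = -I from Complex.conj_I, neg_smul, sub_neg_eq_add]
    rw [h3] at h
    rw [h, conjTranspose_smul, conjTranspose_one]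
    simp
  rw [Matrix.mul_sub, Matrix.sub_mul, Matrix.mul_smul, Matrix.smul_mul] at e1
  rw [Matrix.mul_add, Matrix.add_mul, Matrix.mul_smul, Matrix.smul_mul] at e2
  have g1 : Zᴴ * HR * Z = (lam / 2 : ℂ) • (Z + Zᴴ) := by
    have : (2 : ℂ) • (Zᴴ * HR * Z) = (lam : ℂ) • (Z + Zᴴ) := by
      rw [smul_add, ← e1, ← e2]
      module
    calc Zᴴ * HR * Z = (1 / 2 : ℂ) • ((2 : ℂ) • (Zᴴ * HR * Z)) := by
          rw [smul_smul]; norm_num
      _ = _ := by rw [this, smul_smul]; ring_nf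
  have g2 : Zᴴ * HI * Z = (-(I * lam) / 2 : ℂ) • (Z - Zᴴ) := by
    have : (2 * I : ℂ) • (Zᴴ * HI * Z) = (lam : ℂ) • (Z - Zᴴ) := by
      rw [smul_sub, ← e1, ← e2]
      module
    calc Zᴴ * HI * Z = (-I / 2 : ℂ) • ((2 * I : ℂ) • (Zᴴ * HI * Z)) := by
          rw [smul_smul]
          have : (-I / 2 * (2 * I) : ℂ) = 1 := by
            ring_nf
            simp
          rw [this, one_smul]
      _ = _ := by rw [this, smul_smul]; ring_nf
  have hA : (Zᴴ * B)ᴴ = Bᴴ * Z := by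
    rw [conjTranspose_mul, conjTranspose_conjTranspose]
  constructor
  · rw [← g1, hHR, Matrix.mul_add, Matrix.add_mul, hA, hP]
    simp only [Matrix.mul_assoc, Matrix.mul_smul, Matrix.smul_mul, Matrix.one_mul]
  · rw [← g2, hHI, Matrix.mul_add, Matrix.add_mul, hA, hQ]
    simp only [Matrix.mul_assoc, Matrix.mul_smul, Matrix.smul_mul]


/-- Consequences of the first identity: `Z` is a contraction and the quadratic form bound. -/
lemma form_bound (he : 0 < e) (hlam : 0 < lam)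
    (h1 : (Zᴴ * B) * diagonal (fun j => (pp e (c j) : ℂ)) * (Zᴴ * B)ᴴ + (lam : ℂ) • (Zᴴ * Z)
        = (lam / 2 : ℂ) • (Z + Zᴴ)) (u : ι → ℂ) :
    nsq (Z *ᵥ u) ≤ nsq u ∧
    ∑ j, pp e (c j) * ‖star ((Zᴴ * B).col j) ⬝ᵥ u‖ ^ 2 ≤ lam / 4 * nsq u := by
  set A := Zᴴ * B with hA
  set S := ∑ j, pp e (c j) * ‖star (A.col j) ⬝ᵥ u‖ ^ 2 with hS
  have hS0 : 0 ≤ S := Finset.sum_nonneg fun j _ => mul_nonneg (pp_nonneg he _) (by positivity)
  have h2 := congrArg (fun M : Matrix ι ι ℂ => (star u ⬝ᵥ (M *ᵥ u)).re) h1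
  simp only [add_mulVec, smul_mulVec, dotProduct_add, dotProduct_smul, quad_BfB,
    ← nsq_mulVec] at h2
  have h3 : star u ⬝ᵥ Zᴴ *ᵥ u = star (star u ⬝ᵥ Z *ᵥ u) := by
    rw [star_dotProduct, star_mulVec, dotProduct_comm, conjTranspose_conjTranspose,
      dotProduct_comm u, ← dotProduct_mulVec]
  have h4 : (∑ j, (pp e (c j) : ℂ) * ((‖star (A.col j) ⬝ᵥ u‖ ^ 2 : ℝ) : ℂ)) = (S : ℂ) := by
    rw [hS]; push_cast; rfl
  rw [h4, h3] at h2
  set q := star u ⬝ᵥ Z *ᵥ u with hq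
  have h5 : S + lam * nsq (Z *ᵥ u) = lam * q.re := by
    have h6 : ((lam / 2 : ℂ) • (q + star q)).re = lam * q.re := by
      have : (lam / 2 : ℂ) • (q + star q) = ((lam * q.re : ℝ) : ℂ) := by
        rw [smul_eq_mul, show star q = (starRingEnd ℂ) q from rfl, Complex.add_conj]
        push_cast; ring
      rw [this, Complex.ofReal_re]
    rw [h6] at h2
    rw [← h2]
    simp
  have h7 : q.re ≤ Real.sqrt (nsq u) * Real.sqrt (nsq (Z *ᵥ u)) :=
    (Complex.re_le_norm _).trans (cauchy' _ _)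
  set x := Real.sqrt (nsq u) with hx
  set y := Real.sqrt (nsq (Z *ᵥ u)) with hy
  have hx2 : nsq u = x ^ 2 := (Real.sq_sqrt (nsq_nonneg _)).symm
  have hy2 : nsq (Z *ᵥ u) = y ^ 2 := (Real.sq_sqrt (nsq_nonneg _)).symm
  have hx0 : 0 ≤ x := Real.sqrt_nonneg _
  have hy0 : 0 ≤ y := Real.sqrt_nonneg _
  rw [hy2] at h5
  rw [hx2, hy2]
  have h8 : lam * q.re ≤ lam * (x * y) := mul_le_mul_of_nonneg_left h7 hlam.le
  constructor
  · have h9 : lam * y ^ 2 ≤ lam * (x * y) := by linarith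
    have h10 : y ^ 2 ≤ x * y := le_of_mul_le_mul_left h9 hlam
    have h11 : y ≤ x := by
      rcases hy0.eq_or_lt with h | h
      · rw [← h]; exact hx0
      · nlinarith
    gcongr
  · have h12 : S ≤ lam * (x * y - y ^ 2) := by nlinarith
    refine h12.trans ?_
    have : x * y - y ^ 2 ≤ x ^ 2 / 4 := by nlinarith [sq_nonneg (x - 2 * y)]
    nlinarith

/-- Each column: `p_j ‖a_j‖² ≤ λ/4`. -/
lemma col_bound (he : 0 < e) (hlam : 0 < lam)
    (h1 : (Zᴴ * B) * diagonal (fun j => (pp e (c j) : ℂ)) * (Zᴴ * B)ᴴ + (lam : ℂ) • (Zᴴ * Z)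
        = (lam / 2 : ℂ) • (Z + Zᴴ)) (j : σ) :
    pp e (c j) * nsq ((Zᴴ * B).col j) ≤ lam / 4 := by
  set s := nsq ((Zᴴ * B).col j) with hs
  have hs0 : 0 ≤ s := nsq_nonneg _
  rcases hs0.eq_or_lt with h | h
  · rw [← h, mul_zero]; positivity
  have h2 := (form_bound B c Z e lam he hlam h1 ((Zᴴ * B).col j)).2
  have h3 : pp e (c j) * ‖star ((Zᴴ * B).col j) ⬝ᵥ (Zᴴ * B).col j‖ ^ 2 ≤ lam / 4 * s := by
    refine le_trans ?_ h2
    exact Finset.single_le_sum
      (f := fun j' => pp e (c j') * ‖star ((Zᴴ * B).col j') ⬝ᵥ (Zᴴ * B).col j‖ ^ 2)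
      (fun j' _ => mul_nonneg (pp_nonneg he _) (by positivity)) (Finset.mem_univ j)
  rw [star_dot_self, Complex.norm_real, Real.norm_of_nonneg hs0] at h3
  have h4 : (pp e (c j) * s) * s ≤ (lam / 4) * s := by
    nlinarith
  exact le_of_mul_le_mul_right h4 h

end

end Pool.Agent.H683R2.RF
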