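import Pool.Agent.H683R2.RFCore

/-!
# The core inequality, continued
-/

namespace Pool.Agent.H683R2.RF

open Matrix Complex

variable {ι σ : Type*} [Fintype ι] [Fintype σ] [DecidableEq ι] [DecidableEq σ]

omit [DecidableEq ι] in
lemma nsq_col (V : Matrix ι σ ℂ) (h : Vᴴ * V = 1) (j : σ) : nsq (V.col j) = 1 := by
  have h1 : V.col j = V *ᵥ Pi.single j 1 := by simp
  rw [h1, nsq_of_iso h, nsq_single]

lemma rank_trick {A0 Γ : Matrix ι ι ℂ} (hA0 : A0ᴴ = A0) (hΓ : Contr Γ) {C : ℝ}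
    (hC : ∀ u, ‖star u ⬝ᵥ (A0 *ᵥ u)‖ ≤ C * nsq u) :
    ‖trace (A0 * Γ)‖ ≤ A0.rank * C := by
  obtain ⟨V, ev, hV1, hV2, hV3, hr⟩ := exists_diag hA0
  have hev : ∀ i, |ev i| ≤ C := by
    intro i
    have h1 := hC (V.col i)
    rw [nsq_col V hV2, mul_one] at h1
    have h2 : star (V.col i) ⬝ᵥ (A0 *ᵥ V.col i) = (ev i : ℂ) := by
      have h3 : star (V.col i) ⬝ᵥ (A0 *ᵥ V.col i) = (Vᴴ * A0 * V) i i := by
        rw [Matrix.mul_assoc, mul_apply']
        rfl
      rw [h3, hV3]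
      have h4 : Vᴴ * (V * diagonal (fun i => (ev i : ℂ)) * Vᴴ) * V =
          (Vᴴ * V) * diagonal (fun i => (ev i : ℂ)) * (Vᴴ * V) := by
        simp only [Matrix.mul_assoc]
      rw [h4, hV2]
      simp
    rw [h2, Complex.norm_real] at h1
    exact h1
  have h5 : trace (A0 * Γ) = ∑ i, (ev i : ℂ) * (star (V.col i) ⬝ᵥ (Γ *ᵥ V.col i)) := by
    conv_lhs => rw [hV3]
    rw [trace_BfB]
  rw [h5]
  refine (norm_sum_le _ _).trans ?_
  have h6 : ∀ i ∈ (Finset.univ : Finset ι),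
      ‖(ev i : ℂ) * (star (V.col i) ⬝ᵥ (Γ *ᵥ V.col i))‖ ≤ if ev i ≠ 0 then C else 0 := by
    intro i _
    rw [norm_mul, Complex.norm_real, Real.norm_eq_abs]
    have h7 := hΓ.quad (V.col i)
    rw [nsq_col V hV2] at h7
    split_ifs with h
    · calc |ev i| * _ ≤ |ev i| * 1 := by gcongr
        _ ≤ C := by rw [mul_one]; exact hev i
    · rw [not_not] at h
      rw [h]; simp
  refine (Finset.sum_le_sum h6).trans ?_
  rw [← Finset.sum_filter, Finset.sum_const, nsmul_eq_mul, hr, Fintype.card_subtype]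

omit [Fintype ι] [DecidableEq ι] in
lemma BfB_herm (A : Matrix ι σ ℂ) (f : σ → ℂ) (hf : star f = f) :
    (A * diagonal f * Aᴴ)ᴴ = A * diagonal f * Aᴴ := by
  rw [conjTranspose_mul, conjTranspose_mul, conjTranspose_conjTranspose,
    diagonal_conjTranspose, Matrix.mul_assoc, hf]

omit [DecidableEq ι] in
lemma rank_BfB (A : Matrix ι σ ℂ) (f : σ → ℂ) (s : Finset σ) (hs : ∀ j, j ∉ s → f j = 0) :
    (A * diagonal f * Aᴴ).rank ≤ s.card := by
  refine (rank_mul_le_left _ _).trans ((rank_mul_le_right _ _).trans ?_)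
  rw [rank_diagonal, Fintype.card_subtype]
  apply Finset.card_le_card
  intro j hj
  rw [Finset.mem_filter] at hj
  by_contra h
  exact hj.2 (hs j h)

lemma trace_Y_bound {B : Matrix ι σ ℂ} {c : σ → ℝ} {Γ Z : Matrix ι ι ℂ} {e lam t0 t1 H1 : ℝ}
    (he : 0 < e) (hlam : 0 < lam) (ht1 : 0 ≤ t1) (hΓc : Contr Γ) (hZc : Contr Z)
    (hJ : B * diagonal (fun j => (c j : ℂ)) * Bᴴ = -((t0 : ℂ) • 1 + (t1 : ℂ) • Γ))
    (hZ : (B * diagonal (fun j => kk e (c j)) * Bᴴ + ((lam : ℂ) + t0 * I) • 1) * Z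
      = (lam : ℂ) • 1)
    (hH : ∑ j, e * (1 + c j ^ 2) * nsq (B.col j) ≤ H1)
    (hl : 8 * (H1 + t1 * Fintype.card ι) ≤ lam * Fintype.card ι)
    (M : Matrix ι ι ℂ) (hM : Contr M) :
    ‖trace ((1 - Z) * M)‖ ≤ Fintype.card ι / 8 := by
  have h1 : (lam : ℂ) • (1 - Z) =
      (B * diagonal (fun j => kk e (c j) - c j * I) * Bᴴ - (I * t1) • Γ) * Z := by
    have h2 : B * diagonal (fun j => kk e (c j) - c j * I) * Bᴴ =
        B * diagonal (fun j => kk e (c j)) * Bᴴ
          - I • (B * diagonal (fun j => (c j : ℂ)) * Bᴴ) := by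
      have h3 : (diagonal (fun j => kk e (c j) - c j * I) : Matrix σ σ ℂ) =
          diagonal (fun j => kk e (c j)) - I • diagonal (fun j => (c j : ℂ)) := by
        ext a b
        by_cases h : a = b
        · subst h
          simp [mul_comm]
        · simp [h]
      rw [h3, Matrix.mul_sub, Matrix.sub_mul, Matrix.mul_smul, Matrix.smul_mul]
    rw [smul_sub, ← hZ, h2, hJ]
    rw [Matrix.add_mul, Matrix.sub_mul, Matrix.sub_mul]
    simp only [Matrix.smul_mul, Matrix.neg_mul, Matrix.add_mul, Matrix.one_mul]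
    module
  have h4 : (lam : ℂ) * trace ((1 - Z) * M) =
      ∑ j, (kk e (c j) - c j * I) * (star (B.col j) ⬝ᵥ ((Z * M) *ᵥ B.col j))
        - I * t1 * trace (Γ * (Z * M)) := by
    rw [← smul_eq_mul, ← trace_smul, ← Matrix.smul_mul, h1, Matrix.mul_assoc, Matrix.sub_mul,
      trace_sub, trace_BfB, Matrix.smul_mul, trace_smul, smul_eq_mul]
  have hZM := hZc.mul hM
  have h5 : ‖(lam : ℂ) * trace ((1 - Z) * M)‖ ≤ H1 + t1 * Fintype.card ι := by
    rw [h4]
    refine (norm_sub_le _ _).trans (add_le_add ?_ ?_)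
    · refine (norm_sum_le _ _).trans (le_trans (Finset.sum_le_sum fun j _ => ?_) hH)
      rw [norm_mul]
      exact mul_le_mul (norm_kk_sub he _) (hZM.quad _) (norm_nonneg _) (by positivity)
    · rw [norm_mul, norm_mul, norm_I, one_mul, Complex.norm_real, Real.norm_of_nonneg ht1]
      exact mul_le_mul_of_nonneg_left (hΓc.mul hZM).norm_trace_le ht1
  rw [norm_mul, Complex.norm_real, Real.norm_of_nonneg hlam.le] at h5
  have h6 : lam * (8 * ‖trace ((1 - Z) * M)‖) ≤ lam * Fintype.card ι := by linarith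
  have h7 := le_of_mul_le_mul_left h6 hlam
  linarith


set_option maxHeartbeats 4000000 in
/-- **The core inequality.** -/
theorem core {B : Matrix ι σ ℂ} {c : σ → ℝ} {Γ Z : Matrix ι ι ℂ} {e lam x t0 t1 H1 : ℝ}
    (he : 0 < e) (hlam : 0 < lam) (hx : 1 ≤ x) (ht1 : 0 ≤ t1)
    (hΓ : Γᴴ = Γ) (hΓ2 : Γ * Γ = 1)
    (hJ : B * diagonal (fun j => (c j : ℂ)) * Bᴴ = -((t0 : ℂ) • 1 + (t1 : ℂ) • Γ))
    (hZ : (B * diagonal (fun j => kk e (c j)) * Bᴴ + ((lam : ℂ) + t0 * I) • 1) * Z
      = (lam : ℂ) • 1)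
    (hH : ∑ j, e * (1 + c j ^ 2) * nsq (B.col j) ≤ H1)
    (hl : 8 * (H1 + t1 * Fintype.card ι) ≤ lam * Fintype.card ι) :
    3 / 4 * t1 * Fintype.card ι ≤ lam * ‖trace (Z * Γ)‖ + H1 / x
      + (5 / 4 * lam + t1) * ∑ j, wt e x (c j) := by
  obtain ⟨id1, id2⟩ := two_ids B c Γ Z e lam t0 t1 hΓ hJ hZ
  have hfb := form_bound B c Z e lam he hlam id1
  have hcb := col_bound B c Z e lam he hlam id1
  have hZc : Contr Z := fun u => (hfb u).1
  have hΓc : Contr Γ := contr_of_iso (by rw [hΓ, hΓ2])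
  set N : ℝ := (Fintype.card ι : ℝ) with hN
  set A := Zᴴ * B with hA
  -- the squared norms of the columns of `A` are at most those of `B`
  have hAB : ∀ j, nsq (A.col j) ≤ nsq (B.col j) := by
    intro j
    have h1 : A.col j = Zᴴ *ᵥ B.col j := by
      ext i; rfl
    rw [h1]
    exact hZc.conjTranspose _
  -- the main term
  have hmain : 3 / 4 * N ≤ (trace (Zᴴ * Γ * Z * Γ)).re := by
    have hY := fun M hM => trace_Y_bound he hlam ht1 hΓc hZc hJ hZ hH hl M hM
    have h1 : trace (Zᴴ * Γ * Z * Γ) =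
        N - trace ((1 - Z) * 1) - star (trace ((1 - Z) * (Γ * Z * Γ)ᴴ)) := by
      have h2 : star (trace ((1 - Z) * (Γ * Z * Γ)ᴴ)) = trace ((Γ * Z * Γ) * (1 - Zᴴ)) := by
        rw [← trace_conjTranspose, conjTranspose_mul, conjTranspose_conjTranspose,
          conjTranspose_sub, conjTranspose_one]
      rw [h2, Matrix.mul_sub, trace_sub, Matrix.mul_one, Matrix.mul_one, trace_sub, trace_one]
      have h3 : trace (Γ * Z * Γ * Zᴴ) = trace (Zᴴ * Γ * Z * Γ) := by
        rw [trace_mul_comm]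
        simp only [Matrix.mul_assoc]
      have h4 : trace (Γ * Z * Γ) = trace Z := by
        rw [trace_mul_comm, ← Matrix.mul_assoc, hΓ2, Matrix.one_mul]
      rw [h3, h4, hN]
      push_cast
      ring
    have h5 := hY 1 contr_one
    have h6 := hY (Γ * Z * Γ)ᴴ ((hΓc.mul hZc).mul hΓc).conjTranspose
    have h7 := Complex.re_le_norm (trace ((1 - Z) * 1))
    have h8 := Complex.re_le_norm (star (trace ((1 - Z) * (Γ * Z * Γ)ᴴ)))
    rw [norm_star] at h8
    rw [h1]
    simp only [Complex.sub_re, Complex.ofReal_re]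
    linarith
  -- the trace identity
  set κ : σ → ℝ := fun j => e * c j * pp e (c j) with hκ
  set qf : σ → ℂ := fun j => star (A.col j) ⬝ᵥ (Γ *ᵥ A.col j) with hqf
  have htr : (t1 : ℂ) * trace (Zᴴ * Γ * Z * Γ) + ∑ j, (κ j : ℂ) * qf j
      = ((lam * (trace (Z * Γ)).im : ℝ) : ℂ) := by
    have h1 := congrArg (fun M : Matrix ι ι ℂ => trace (M * Γ)) id2
    simp only [Matrix.add_mul, trace_add, Matrix.smul_mul, trace_smul, smul_eq_mul,
      Matrix.sub_mul, trace_sub, trace_BfB] at h1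
    rw [h1]
    have h2 : trace (Zᴴ * Γ) = star (trace (Z * Γ)) := by
      rw [← trace_conjTranspose, conjTranspose_mul, hΓ, trace_mul_comm]
    rw [h2]
    have h3 : trace (Z * Γ) - star (trace (Z * Γ)) = 2 * (trace (Z * Γ)).im * I := by
      rw [show star (trace (Z * Γ)) = (starRingEnd ℂ) (trace (Z * Γ)) from rfl, Complex.sub_conj]
      push_cast; ring
    rw [h3]
    push_cast
    ring_nf
    simp only [Complex.I_sq]
    ring
  have hqf1 : ∀ j, ‖qf j‖ ≤ nsq (A.col j) := fun j => hΓc.quad _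
  -- splitting
  set sin : Finset σ := Finset.univ.filter (fun j => 1 < e * |c j|) with hsin
  set A0 : Matrix ι ι ℂ :=
    A * diagonal (fun j => if 1 < e * |c j| then (κ j : ℂ) else 0) * Aᴴ with hA0
  have hA0h : A0ᴴ = A0 := by
    apply BfB_herm
    ext j
    rw [Pi.star_apply]
    split_ifs <;> simp
  have hrank : A0.rank ≤ sin.card := by
    apply rank_BfB
    intro j hj
    rw [hsin, Finset.mem_filter, not_and] at hj
    rw [if_neg (hj (Finset.mem_univ j))]
  have hA0form : ∀ u, ‖star u ⬝ᵥ (A0 *ᵥ u)‖ ≤ (5 / 4 * lam + t1) * nsq u := by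
    intro u
    have h1 : A0 = A * diagonal (fun j => (κ j : ℂ)) * Aᴴ
        - A * diagonal (fun j => if 1 < e * |c j| then 0 else (κ j : ℂ)) * Aᴴ := by
      rw [hA0, ← Matrix.sub_mul, ← Matrix.mul_sub]
      congr 2
      rw [diagonal_sub]
      congr 1
      ext j
      split_ifs <;> simp
    have h2 : A * diagonal (fun j => (κ j : ℂ)) * Aᴴ =
        (-(I * lam) / 2 : ℂ) • (Z - Zᴴ) - (t1 : ℂ) • (Zᴴ * Γ * Z) := by
      rw [← id2]; abel
    rw [h1, h2, sub_mulVec, sub_mulVec, dotProduct_sub, dotProduct_sub, smul_mulVec,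
      dotProduct_smul, smul_mulVec, dotProduct_smul, sub_mulVec, dotProduct_sub, quad_BfB]
    have h3 : ‖(-(I * lam) / 2 : ℂ) • (star u ⬝ᵥ Z *ᵥ u - star u ⬝ᵥ Zᴴ *ᵥ u)‖ ≤ lam * nsq u := by
      rw [smul_eq_mul, norm_mul]
      have h4 : ‖(-(I * lam) / 2 : ℂ)‖ = lam / 2 := by
        rw [norm_div, norm_neg, norm_mul, norm_I, one_mul, Complex.norm_real,
          Real.norm_of_nonneg hlam.le]
        simp
      have h5 : ‖star u ⬝ᵥ Z *ᵥ u - star u ⬝ᵥ Zᴴ *ᵥ u‖ ≤ 2 * nsq u := by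
        refine (norm_sub_le _ _).trans ?_
        have := hZc.quad u
        have := hZc.conjTranspose.quad u
        linarith
      rw [h4]
      calc lam / 2 * _ ≤ lam / 2 * (2 * nsq u) := by gcongr
        _ = _ := by ring
    have h6 : ‖(t1 : ℂ) • (star u ⬝ᵥ (Zᴴ * Γ * Z) *ᵥ u)‖ ≤ t1 * nsq u := by
      rw [smul_eq_mul, norm_mul, Complex.norm_real, Real.norm_of_nonneg ht1]
      exact mul_le_mul_of_nonneg_left
        (((hZc.conjTranspose.mul hΓc).mul hZc).quad u) ht1
    have h7 : ‖∑ j, (if 1 < e * |c j| then 0 else (κ j : ℂ)) *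
        ((‖star (A.col j) ⬝ᵥ u‖ ^ 2 : ℝ) : ℂ)‖ ≤ lam / 4 * nsq u := by
      refine (norm_sum_le _ _).trans (le_trans (Finset.sum_le_sum fun j _ => ?_) (hfb u).2)
      rw [norm_mul, Complex.norm_real, Real.norm_of_nonneg (by positivity)]
      refine mul_le_mul_of_nonneg_right ?_ (by positivity)
      split_ifs with h
      · simpa using pp_nonneg he (c j)
      · rw [Complex.norm_real, Real.norm_eq_abs, hκ]
        simp only [abs_mul, abs_of_pos he, abs_of_nonneg (pp_nonneg he (c j))]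
        calc e * |c j| * pp e (c j) ≤ 1 * pp e (c j) :=
              mul_le_mul_of_nonneg_right (not_lt.1 h) (pp_nonneg he _)
          _ = _ := one_mul _
    refine (norm_sub_le _ _).trans ?_
    have h8 := norm_sub_le ((-(I * lam) / 2 : ℂ) • (star u ⬝ᵥ Z *ᵥ u - star u ⬝ᵥ Zᴴ *ᵥ u))
      ((t1 : ℂ) • (star u ⬝ᵥ (Zᴴ * Γ * Z) *ᵥ u))
    linarith
  have hinner : ‖∑ j, (if 1 < e * |c j| then (κ j : ℂ) else 0) * qf j‖
      ≤ sin.card * (5 / 4 * lam + t1) := by
    have h1 := rank_trick hA0h hΓc hA0form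
    rw [hA0, trace_BfB] at h1
    refine h1.trans ?_
    have : ((A * diagonal (fun j => if 1 < e * |c j| then (κ j : ℂ) else 0) * Aᴴ).rank : ℝ)
        ≤ sin.card := by exact_mod_cast hrank
    exact mul_le_mul_of_nonneg_right this (by positivity)
  have houter : ‖∑ j, (if 1 < e * |c j| then 0 else (κ j : ℂ)) * qf j‖
      ≤ H1 / x + lam / 4 * ∑ j ∈ sinᶜ, wt e x (c j) := by
    have hwt : ∑ j ∈ sinᶜ, wt e x (c j) = ∑ j, if 1 < e * |c j| then 0 else wt e x (c j) := by
      rw [← Finset.sum_filter_add_sum_filter_not Finset.univ (fun j => 1 < e * |c j|)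
        (fun j => if 1 < e * |c j| then (0 : ℝ) else wt e x (c j))]
      rw [Finset.sum_congr rfl (g := fun _ => (0 : ℝ))
        (fun j hj => if_pos (Finset.mem_filter.1 hj).2), Finset.sum_const_zero, zero_add]
      have : sinᶜ = Finset.univ.filter (fun j => ¬ 1 < e * |c j|) := by
        rw [hsin, Finset.compl_filter]
      rw [this]
      exact Finset.sum_congr rfl fun j hj => (if_neg (Finset.mem_filter.1 hj).2).symm
    have hH' : ∑ j, (1 / x) * (e * (1 + c j ^ 2) * nsq (B.col j)) ≤ H1 / x := by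
      rw [← Finset.mul_sum]
      calc (1 / x) * _ ≤ (1 / x) * H1 := mul_le_mul_of_nonneg_left hH (by positivity)
        _ = H1 / x := by ring
    rw [hwt, Finset.mul_sum]
    refine le_trans ?_ (add_le_add_left hH' _)
    rw [← Finset.sum_add_distrib]
    refine (norm_sum_le _ _).trans (Finset.sum_le_sum fun j _ => ?_)
    rw [norm_mul]
    have hx0 : 0 < x := by linarith
    have h0 : 0 ≤ e * (1 + c j ^ 2) * nsq (B.col j) :=
      mul_nonneg (by positivity) (nsq_nonneg _)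
    by_cases h : 1 < e * |c j|
    · rw [if_pos h, if_pos h, norm_zero, zero_mul, mul_zero, add_zero]
      positivity
    rw [if_neg h, if_neg h]
    have hκ' : ‖(κ j : ℂ)‖ = e * |c j| * pp e (c j) := by
      rw [Complex.norm_real, Real.norm_eq_abs, hκ]
      simp only [abs_mul, abs_of_pos he, abs_of_nonneg (pp_nonneg he (c j))]
    rw [hκ']
    have h1 : e * |c j| * pp e (c j) * ‖qf j‖ ≤ e * |c j| * (pp e (c j) * nsq (A.col j)) := by
      rw [mul_assoc (e * |c j|)]
      exact mul_le_mul_of_nonneg_left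
        (mul_le_mul_of_nonneg_left (hqf1 j) (pp_nonneg he _)) (by positivity)
    refine h1.trans ?_
    unfold wt
    split_ifs with h2
    · rw [min_eq_right (not_lt.1 h)]
      have h3 := mul_le_mul_of_nonneg_left (hcb j) (show 0 ≤ e * |c j| by positivity)
      have h4 : 0 ≤ 1 / x * (e * (1 + c j ^ 2) * nsq (B.col j)) := by positivity
      nlinarith
    · rw [mul_zero, add_zero]
      have h3 : e * |c j| ≤ 1 / x := by
        rw [not_le, lt_div_iff₀ (by positivity)] at h2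
        rw [le_div_iff₀ hx0]
        nlinarith
      have h4 : pp e (c j) * nsq (A.col j) ≤ e * (1 + c j ^ 2) * nsq (B.col j) :=
        mul_le_mul (pp_le he _) (hAB j) (nsq_nonneg _) (by positivity)
      exact mul_le_mul h3 h4 (mul_nonneg (pp_nonneg he _) (nsq_nonneg _)) (by positivity)
  have hsum : ∑ j, (κ j : ℂ) * qf j =
      ∑ j, (if 1 < e * |c j| then (κ j : ℂ) else 0) * qf j
      + ∑ j, (if 1 < e * |c j| then 0 else (κ j : ℂ)) * qf j := by
    rw [← Finset.sum_add_distrib]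
    refine Finset.sum_congr rfl fun j _ => ?_
    split_ifs <;> ring
  have hcard : (sin.card : ℝ) = ∑ j ∈ sin, wt e x (c j) := by
    rw [Finset.card_eq_sum_ones]
    push_cast
    refine Finset.sum_congr rfl fun j hj => ?_
    rw [hsin, Finset.mem_filter] at hj
    have h1 := hj.2
    unfold wt
    rw [if_pos, min_eq_left h1.le]
    rw [div_le_iff₀ (by positivity)]
    have h2 : 0 ≤ |c j| := abs_nonneg _
    nlinarith [mul_nonneg (mul_nonneg h2 he.le) (sub_nonneg.2 hx)]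
  have htot : ‖∑ j, (κ j : ℂ) * qf j‖ ≤ H1 / x + (5 / 4 * lam + t1) * ∑ j, wt e x (c j) := by
    rw [hsum, ← Finset.sum_add_sum_compl sin (fun j => wt e x (c j))]
    refine (norm_add_le _ _).trans ?_
    rw [hcard] at hinner
    have h1 : 0 ≤ ∑ j ∈ sinᶜ, wt e x (c j) := by
      refine Finset.sum_nonneg fun j _ => ?_
      unfold wt
      split_ifs
      · exact le_min zero_le_one (by positivity)
      · exact le_rfl
    nlinarith [mul_nonneg hlam.le h1, mul_nonneg ht1 h1]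
  have hre := congrArg Complex.re htr
  rw [Complex.add_re, Complex.re_ofReal_mul, Complex.ofReal_re] at hre
  have h1 := (abs_le.1 (Complex.abs_re_le_norm (∑ j, (κ j : ℂ) * qf j))).1
  have h2 : lam * (trace (Z * Γ)).im ≤ lam * ‖trace (Z * Γ)‖ :=
    mul_le_mul_of_nonneg_left ((le_abs_self _).trans (Complex.abs_im_le_norm _)) hlam.le
  have h3 := mul_le_mul_of_nonneg_left hmain ht1
  nlinarith

end Pool.Agent.H683R2.RF
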