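import Pool.Agent.H683R2.RFLoop

/-!
# Counting the large eigenvalues, by averaging over the loop factor
-/

namespace Pool.Agent.H683R2.RF

open Matrix Complex Finset

variable {ι σ : Type*} [Fintype ι] [Fintype σ] [DecidableEq ι] [DecidableEq σ]

/-- The Fejer sum of a matrix (squared Hilbert-Schmidt norm of `∑_{k<K} W^k`). -/
noncomputable def fej (W : Matrix σ σ ℂ) (K : ℕ) : ℝ :=
  ∑ j, nsq ((∑ k ∈ range K, W ^ k).col j)

lemma fej_nonneg (W : Matrix σ σ ℂ) (K : ℕ) : 0 ≤ fej W K :=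
  Finset.sum_nonneg fun _ _ => nsq_nonneg _

omit [DecidableEq σ] in
lemma trace_hs (M : Matrix σ σ ℂ) : trace (Mᴴ * M) = ((∑ j, nsq (M.col j) : ℝ) : ℂ) := by
  unfold trace
  push_cast
  refine Finset.sum_congr rfl fun j _ => ?_
  rw [diag_apply, mul_apply', ← star_dot_self]
  rfl

lemma fej_eq (W : Matrix σ σ ℂ) (K : ℕ) (hW : Wᴴ * W = 1) :
    (fej W K : ℂ) = ∑ k ∈ range K, ∑ l ∈ range K,
      (if k ≤ l then trace (W ^ (l - k)) else star (trace (W ^ (k - l)))) := by
  unfold fej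
  rw [← trace_hs, conjTranspose_sum, Finset.sum_mul, trace_sum]
  refine Finset.sum_congr rfl fun k _ => ?_
  rw [Finset.mul_sum, trace_sum]
  refine Finset.sum_congr rfl fun l _ => ?_
  have hk : ∀ k : ℕ, (W ^ k)ᴴ * W ^ k = 1 := by
    intro k
    induction k with
    | zero => simp
    | succ k ih =>
      rw [pow_succ, conjTranspose_mul, Matrix.mul_assoc, ← Matrix.mul_assoc (W ^ k)ᴴ, ih,
        Matrix.one_mul, hW]
  split_ifs with h
  · obtain ⟨m, rfl⟩ := Nat.exists_eq_add_of_le h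
    rw [pow_add, ← Matrix.mul_assoc, hk, Matrix.one_mul]
    congr 2
    omega
  · obtain ⟨m, rfl⟩ := Nat.exists_eq_add_of_le (not_le.1 h).le
    rw [← trace_conjTranspose, pow_add, conjTranspose_mul, Matrix.mul_assoc, hk, Matrix.mul_one]
    congr 3
    omega

omit [DecidableEq σ] in
lemma pow_expand [DecidableEq σ] (D N : Matrix σ σ ℂ) (j : ℕ) :
    ∃ P : ℕ → Matrix σ σ ℂ, P 0 = D ^ j ∧ (∀ s, j < s → P s = 0) ∧
      ∀ w : ℂ, (D + w • N) ^ j = ∑ s ∈ range (j + 1), w ^ s • P s := by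
  induction j with
  | zero =>
    refine ⟨fun s => if s = 0 then 1 else 0, by simp, ?_, ?_⟩
    · intro s hs
      simp [hs.ne']
    · intro w
      simp
  | succ j ih =>
    obtain ⟨P, hP0, hP1, hP2⟩ := ih
    refine ⟨fun s => P s * D + (if s = 0 then 0 else P (s - 1) * N), ?_, ?_, ?_⟩
    · simp [hP0, pow_succ]
    · intro s hs
      have h0 : s ≠ 0 := by omega
      simp only [h0, if_false]
      rw [hP1 s (by omega), hP1 (s - 1) (by omega)]
      simp
    · intro w
      rw [pow_succ, hP2 w, Matrix.mul_add, Matrix.mul_smul]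
      simp only [smul_add, Finset.sum_add_distrib]
      congr 1
      · rw [Finset.sum_range_succ _ (j + 1), hP1 (j + 1) (by omega), Matrix.zero_mul, smul_zero,
          add_zero, Finset.sum_mul]
        simp only [Matrix.smul_mul]
      · rw [Finset.sum_range_succ' _ (j + 1)]
        simp only [Nat.succ_ne_zero, if_false, Nat.add_sub_cancel, if_true, smul_zero, add_zero]
        rw [Finset.sum_mul, Finset.smul_sum]
        refine Finset.sum_congr rfl fun s _ => ?_
        rw [Matrix.smul_mul, smul_smul, pow_succ']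

lemma root_sum {Q : ℕ} {ζ : ℂ} (hζ : IsPrimitiveRoot ζ Q) {s : ℕ} (hs : 0 < s) (hsQ : s < Q) :
    ∑ t ∈ range Q, (ζ ^ t) ^ s = 0 := by
  have h1 : ζ ^ s ≠ 1 := hζ.pow_ne_one_of_pos_of_lt hs.ne' hsQ
  have h2 : ∀ t ∈ range Q, (ζ ^ t) ^ s = (ζ ^ s) ^ t := fun t _ => by
    rw [← pow_mul, ← pow_mul, mul_comm]
  rw [Finset.sum_congr rfl h2, geom_sum_eq h1, ← pow_mul, mul_comm, pow_mul, hζ.pow_eq_one]
  simp

lemma trace_avg {D N : Matrix σ σ ℂ} {Q : ℕ} {ζ : ℂ} (hζ : IsPrimitiveRoot ζ Q) (u : ℂ) {j : ℕ}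
    (hj : j < Q) :
    ∑ t ∈ range Q, trace ((D + (u * ζ ^ t) • N) ^ j) = Q * trace (D ^ j) := by
  obtain ⟨P, hP0, -, hP2⟩ := pow_expand D N j
  simp only [hP2, trace_sum, trace_smul, smul_eq_mul]
  rw [Finset.sum_comm, Finset.sum_eq_single_of_mem 0 (by simp)]
  · simp [hP0]
  · intro s hs hs0
    have h1 : ∀ t ∈ range Q, (u * ζ ^ t) ^ s * trace (P s) =
        (u ^ s * trace (P s)) * (ζ ^ t) ^ s := fun t _ => by rw [mul_pow]; ring
    rw [Finset.sum_congr rfl h1, ← Finset.mul_sum, root_sum hζ (Nat.pos_of_ne_zero hs0)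
      (by rw [Finset.mem_range] at hs; omega), mul_zero]

lemma fej_avg {B : Matrix ι σ ℂ} {C : Matrix σ ι ℂ} {D : Matrix σ σ ℂ} (hL : Loss B C D)
    (hD : ∀ j, 0 < j → trace (D ^ j) = 0) {Q : ℕ} {ζ : ℂ} (hζ : IsPrimitiveRoot ζ Q)
    (hζ1 : ‖ζ‖ = 1) {u : ℂ} (hu : ‖u‖ = 1) {K : ℕ} (hK : K ≤ Q) :
    ∑ t ∈ range Q, fej (Dw B C D (u * ζ ^ t)) K = Q * K * Fintype.card σ := by
  have h1 : ((∑ t ∈ range Q, fej (Dw B C D (u * ζ ^ t)) K : ℝ) : ℂ) =
      (Q * K * Fintype.card σ : ℂ) := by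
    push_cast
    have h2 : ∀ t ∈ range Q, (fej (Dw B C D (u * ζ ^ t)) K : ℂ) =
        ∑ k ∈ range K, ∑ l ∈ range K, (if k ≤ l then trace (Dw B C D (u * ζ ^ t) ^ (l - k))
          else star (trace (Dw B C D (u * ζ ^ t) ^ (k - l)))) := by
      intro t _
      apply fej_eq
      apply Dw_iso _ hL.hCC hL.hCD hL.hBD
      rw [show star (u * ζ ^ t) = (starRingEnd ℂ) (u * ζ ^ t) from rfl, Complex.conj_mul']
      simp [hu, hζ1]
    rw [Finset.sum_congr rfl h2, Finset.sum_comm]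
    have h3 : ∀ k ∈ range K, ∑ t ∈ range Q, ∑ l ∈ range K,
        (if k ≤ l then trace (Dw B C D (u * ζ ^ t) ^ (l - k))
          else star (trace (Dw B C D (u * ζ ^ t) ^ (k - l)))) = Q * Fintype.card σ := by
      intro k hk
      rw [Finset.sum_comm, Finset.sum_eq_single_of_mem k hk]
      · simp
      · intro l hl hlk
        rw [Finset.mem_range] at hk hl
        by_cases h : k ≤ l
        · simp only [h, if_true]
          have := trace_avg (D := D) (N := C * B) hζ u (j := l - k) (by omega)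
          unfold Dw
          rw [this, hD _ (by omega), mul_zero]
        · simp only [h, if_false]
          have := trace_avg (D := D) (N := C * B) hζ u (j := k - l) (by omega)
          unfold Dw
          rw [← star_sum, this, hD _ (by omega), mul_zero, star_zero]
    rw [Finset.sum_congr rfl h3]
    simp
    ring
  exact_mod_cast h1

end Pool.Agent.H683R2.RF
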