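import Pool.Agent.H683R2.RFAsm

/-!
# The inequality for a circuit computing the rotated matrix
-/

namespace Pool.Agent.H683R2.RF

open Matrix Complex Finset

variable {ι : Type} [Fintype ι] [DecidableEq ι]

/-- If the circuit computes a matrix without fixed coordinate vectors, every wire is touched. -/
lemma circ_zero_eq (gs : List (Gate ι)) (h : ∀ k, circ gs 1 *ᵥ Pi.single k 1 ≠ Pi.single k 1) :
    circ gs 0 = 0 := by
  obtain ⟨f, hf, hf2⟩ := circ_zero gs
  rw [hf]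
  ext i j
  rw [diagonal_apply]
  split_ifs with hij
  · rcases hf2 i with h0 | h0
    · rw [h0]; rfl
    · exact absurd (h0 1) (h i)
  · rfl

/-- The matrix `cos α + i sin α Γ`. -/
noncomputable def XX (Γ : Matrix ι ι ℂ) (α : ℝ) : Matrix ι ι ℂ :=
  (Real.cos α : ℂ) • 1 + ((Real.sin α : ℂ) * I) • Γ

lemma XX_no_fix {Γ : Matrix ι ι ℂ} (hΓ : Γᴴ = Γ) {α : ℝ} (hc : Real.cos α < 1) (k : ι) :
    XX Γ α *ᵥ Pi.single k 1 ≠ Pi.single k 1 := by
  intro h
  have h1 := congrFun h k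
  rw [mulVec_single_one, Pi.single_eq_same] at h1
  have h2 : (Γ k k).im = 0 := by
    have h3 := congrFun (congrFun hΓ k) k
    rw [conjTranspose_apply] at h3
    have h4 := congrArg Complex.im h3
    simp at h4
    linarith
  have h3 : (XX Γ α) k k = (Real.cos α : ℂ) + (Real.sin α : ℂ) * I * Γ k k := by
    unfold XX
    simp
  have h4 := congrArg Complex.re h1
  rw [col_apply, h3] at h4
  rw [Complex.add_re, Complex.ofReal_re, Complex.one_re, mul_assoc, Complex.re_ofReal_mul,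
    Complex.mul_re, Complex.I_re, Complex.I_im, h2] at h4
  simp at h4
  linarith

/-- The lossless system attached to a circuit with all wires touched. -/
lemma exists_loss (gs : List (Gate ι)) (h0 : circ gs 0 = 0) :
    ∃ (σ : Type) (_ : Fintype σ) (_ : DecidableEq σ) (B : Matrix ι σ ℂ) (C : Matrix σ ι ℂ)
      (D : Matrix σ σ ℂ) (Q : ℂ → Matrix σ σ ℂ), Fintype.card σ = 2 * gs.length ∧ Loss B C D ∧
      (∀ z : ℂ, (1 - z • D) * Q z = 1) ∧ (∀ z : ℂ, circ gs z = z • (B * Q z * C)) ∧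
      trace ((B * Q 1) * (B * Q 1)ᴴ) = Fintype.card σ ∧ (∀ j, 0 < j → trace (D ^ j) = 0) := by
  obtain ⟨σ, i1, i2, A, B, C, D, Q, hcard, h⟩ := realize gs
  have hA : A = 0 := by
    have := h.tf 0
    rw [zero_smul, add_zero, h0] at this
    exact this.symm
  subst hA
  refine ⟨σ, i1, i2, B, C, D, Q, hcard, ⟨?_, ?_, h.i3, ?_, ?_⟩, h.q, ?_, h.tr, h.nil⟩
  · simpa using h.i1
  · simpa using h.i2
  · simpa using h.i4
  · simpa using h.i5
  · intro z
    simpa using h.tf z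

/-- Every wire touched: at least `card ι / 2` gates. -/
lemma card_le_two_mul (gs : List (Gate ι)) (h0 : circ gs 0 = 0) :
    (Fintype.card ι : ℝ) ≤ 2 * gs.length := by
  obtain ⟨σ, i1, i2, B, C, D, Q, hcard, hL, -⟩ := exists_loss gs h0
  have h1 : ((∑ j, nsq (B.col j) : ℝ) : ℂ) = (Fintype.card ι : ℂ) := by
    rw [← trace_hs', hL.hBB, trace_one]
  have h2 : ∑ j, nsq (B.col j) = (Fintype.card ι : ℝ) := by exact_mod_cast h1
  have h3 : ∀ j, nsq (B.col j) + nsq (D.col j) = 1 := by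
    intro j
    have h4 := congrFun (congrFun hL.hBD j) j
    rw [Matrix.add_apply, Matrix.one_apply_eq] at h4
    have h5 : (Bᴴ * B) j j = (nsq (B.col j) : ℂ) := by
      rw [mul_apply', ← star_dot_self]; rfl
    have h6 : (Dᴴ * D) j j = (nsq (D.col j) : ℂ) := by
      rw [mul_apply', ← star_dot_self]; rfl
    rw [h5, h6] at h4
    exact_mod_cast h4
  have h4 : ∑ j, nsq (B.col j) ≤ ∑ _j : σ, (1 : ℝ) := by
    refine Finset.sum_le_sum fun j _ => ?_
    have := nsq_nonneg (D.col j)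
    linarith [h3 j]
  rw [h2] at h4
  simp only [Finset.sum_const, Finset.card_univ, nsmul_eq_mul, mul_one] at h4
  rw [hcard] at h4
  push_cast at h4
  exact h4

set_option maxHeartbeats 1000000 in
/-- **The main inequality.** -/
theorem main_ineq (gs : List (Gate ι)) {Γ : Matrix ι ι ℂ} (hΓ : Γᴴ = Γ) (hΓ2 : Γ * Γ = 1)
    (htr : trace Γ = 0) {δ : ℝ} (hδ0 : 0 ≤ δ) (hδ : ∀ i j, ‖Γ i j‖ ≤ δ) {α : ℝ}
    (hc : 19 / 20 ≤ Real.cos α) (hs1 : Real.sin α ≤ 1 / 5)
    (hs0 : 0 < Real.sin α) (hcirc : circ gs 1 = XX Γ α) {r : ℝ} (hr : 0 ≤ r) (hr1 : r < 1)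
    (L J : ℕ) {e η : ℝ} (he : e = (1 - r) / (1 + r))
    (hη : η = δ * Real.sqrt 2 ^ L + r ^ L * (1 + δ * Real.sqrt 2 ^ L)) :
    ∃ t1 : ℝ, Real.sin α / 2 ≤ t1 ∧ t1 ≤ 20 / 19 * Real.sin α ∧
      ∀ lam : ℝ, 0 < lam → 8 * (8 * e * gs.length + t1 * Fintype.card ι) ≤
        lam * Fintype.card ι →
      3 / 4 * t1 * Fintype.card ι ≤ lam * (Fintype.card ι * η) + 8 * e * gs.length / 2 ^ J
        + (5 / 4 * lam + t1) * (128 * (J + 1) * e * gs.length) := by
  have hcos1 : Real.cos α < 1 := by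
    have h1 := Real.sin_sq_add_cos_sq α
    have h2 : 0 < Real.sin α ^ 2 := by positivity
    nlinarith
  have h0 : circ gs 0 = 0 := circ_zero_eq gs (by
    rw [hcirc]
    exact XX_no_fix hΓ hcos1)
  obtain ⟨σ, i1, i2, B, C, D, Q, hcard, hL, hQ, htf, htrQ, hnil⟩ := exists_loss gs h0
  have he0 : 0 < e := by rw [he]; apply div_pos <;> linarith
  obtain ⟨w, hw, hw0, hw1⟩ := exists_w hL hnil e J
  have hww : star w * w = 1 := by
    have : star w * w = ((‖w‖ ^ 2 : ℝ) : ℂ) := by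
      rw [← starRingEnd_apply, Complex.conj_mul']
      push_cast; rfl
    rw [this, hw]; simp
  have hcs : Real.cos α ^ 2 + Real.sin α ^ 2 = 1 := by
    rw [add_comm]; exact Real.sin_sq_add_cos_sq α
  obtain ⟨t0, t1, M, hM, hMJ, hMc, ht1a, ht1b⟩ := res_one hΓ hΓ2 hcs hc hs0.le hs1 hw hw0
  have hX1 : B * Q 1 * C = XX Γ α := by
    have := htf 1
    rw [one_smul, hcirc] at this
    exact this.symm
  have hM' : M * (1 - w • (B * Q 1 * C)) = 1 := by rw [hX1]; exact hM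
  obtain ⟨E, c, hE1, hE2, hWd, hJ, hK, hsum⟩ := herglotz hL hww Q hQ hM'
  refine ⟨t1, ht1a, ht1b, ?_⟩
  intro lam hlam hl
  have hK' := hK r hr hr1
  rw [← htf r] at hK'
  have hη0 : 0 ≤ η := by rw [hη]; positivity
  have hΓc : Contr Γ := contr_of_iso (by rw [hΓ, hΓ2])
  have hUc : Contr (circ gs r) := circ_contr gs (by
    rw [Complex.norm_real, Real.norm_of_nonneg hr]; exact hr1.le)
  have hk : ∀ k : ℕ, ‖trace (circ gs r ^ (k + 1) * Γ)‖ ≤ Fintype.card ι * η := by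
    intro k
    rw [← circ_pow, hη]
    exact eta_bound _ L hδ hδ0 hΓc hr hr1.le
  obtain ⟨Z, hZ, hZt⟩ := exists_Z (t0 := t0) hUc hw hlam hη0 htr hk hK'
  rw [hMJ] at hJ
  have hd : (Fintype.card σ : ℝ) = 2 * gs.length := by
    rw [hcard]; push_cast; ring
  -- the energy bound
  have hH : ∑ j, e * (1 + c j ^ 2) * nsq ((B * E).col j) ≤ 8 * e * gs.length := by
    have h1 : (∑ j, (1 + c j ^ 2) * nsq ((B * E).col j) : ℝ) =
        4 * ∑ j, nsq ((M * (B * Q 1)).col j) := by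
      rw [trace_hs'] at hsum
      exact_mod_cast hsum
    have h2 : ∑ j, nsq ((B * Q 1).col j) = (Fintype.card σ : ℝ) := by
      rw [trace_hs'] at htrQ
      exact_mod_cast htrQ
    have h3 : ∑ j, nsq ((M * (B * Q 1)).col j) ≤ ∑ j, nsq ((B * Q 1).col j) := by
      refine Finset.sum_le_sum fun j _ => ?_
      have h4 : (M * (B * Q 1)).col j = M *ᵥ (B * Q 1).col j := by
        ext i; rfl
      rw [h4]
      exact hMc _
    have h4 : ∑ j, e * (1 + c j ^ 2) * nsq ((B * E).col j) =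
        e * ∑ j, (1 + c j ^ 2) * nsq ((B * E).col j) := by
      rw [Finset.mul_sum]
      refine Finset.sum_congr rfl fun j _ => by ring
    rw [h4, h1]
    have h5 : ∑ j, nsq ((M * (B * Q 1)).col j) ≤ 2 * gs.length := by
      rw [← hd, ← h2]; exact h3
    nlinarith
  -- the weights
  have hW : ∑ j, wt e (2 ^ J) (c j) ≤ 128 * (J + 1) * e * gs.length := by
    have h1 : ∑ j, wt e (2 ^ J) (c j) ≤ ∑ j, 32 * e * ∑ i ∈ range (J + 1),
        ‖∑ k ∈ range (KK e i), om (c j) ^ k‖ ^ 2 / KK e i :=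
      Finset.sum_le_sum fun j _ => wt_le he0 J (c j)
    refine h1.trans ?_
    rw [← Finset.mul_sum, Finset.sum_comm]
    have h2 : ∀ i ∈ range (J + 1), ∑ j, ‖∑ k ∈ range (KK e i), om (c j) ^ k‖ ^ 2 / KK e i =
        fej (Dw B C D w) (KK e i) / KK e i := by
      intro i _
      rw [← Finset.sum_div, hWd, fej_diag hE1 hE2]
    rw [Finset.sum_congr rfl h2]
    have h3 := mul_le_mul_of_nonneg_left hw1 (show 0 ≤ 32 * e by positivity)
    rw [hd] at h3
    refine h3.trans (le_of_eq ?_)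
    ring
  have hx : (1 : ℝ) ≤ 2 ^ J := one_le_pow₀ (by norm_num)
  have hcore := core (B := B * E) (c := c) (Γ := Γ) (Z := Z) (x := 2 ^ J)
    (H1 := 8 * e * gs.length) he0 hlam hx
    (by linarith) hΓ hΓ2 hJ (by rw [he]; exact hZ) hH hl
  refine hcore.trans ?_
  have h1 : lam * ‖trace (Z * Γ)‖ ≤ lam * (Fintype.card ι * η) :=
    mul_le_mul_of_nonneg_left hZt hlam.le
  have h2 : (5 / 4 * lam + t1) * ∑ j, wt e (2 ^ J) (c j) ≤
      (5 / 4 * lam + t1) * (128 * (J + 1) * e * gs.length) :=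
    mul_le_mul_of_nonneg_left hW (by linarith)
  linarith

end Pool.Agent.H683R2.RF
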