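import Pool.Agent.H683R2.RFBase
import Pool.Agent.H683R2.RFCore

/-!
# Closing the loop: the Herglotz representation
-/

namespace Pool.Agent.H683R2.RF

open Matrix Complex

variable {ι σ : Type*} [Fintype ι] [Fintype σ] [DecidableEq ι] [DecidableEq σ]

/-- The closed loop operator. -/
def Dw (B : Matrix ι σ ℂ) (C : Matrix σ ι ℂ) (D : Matrix σ σ ℂ) (w : ℂ) : Matrix σ σ ℂ :=
  D + w • (C * B)

variable {B : Matrix ι σ ℂ} {C : Matrix σ ι ℂ} {D : Matrix σ σ ℂ} {w : ℂ}

omit [DecidableEq σ] in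
lemma Dw_mul (hBB : B * Bᴴ = 1) (hDB : D * Bᴴ = 0) : Dw B C D w * Bᴴ = w • C := by
  unfold Dw
  rw [Matrix.add_mul, hDB, zero_add, Matrix.smul_mul, Matrix.mul_assoc, hBB, Matrix.mul_one]

lemma Dw_iso (hw : star w * w = 1) (hCC : Cᴴ * C = 1) (hCD : Cᴴ * D = 0)
    (hBD : Bᴴ * B + Dᴴ * D = 1) : (Dw B C D w)ᴴ * Dw B C D w = 1 := by
  unfold Dw
  have hDC : Dᴴ * C = 0 := by
    have := congrArg conjTranspose hCD
    rwa [conjTranspose_mul, conjTranspose_conjTranspose, conjTranspose_zero] at this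
  rw [conjTranspose_add, conjTranspose_smul, conjTranspose_mul, Matrix.add_mul, Matrix.mul_add,
    Matrix.mul_add, Matrix.smul_mul, Matrix.smul_mul, Matrix.mul_smul, Matrix.mul_smul,
    Matrix.mul_assoc Bᴴ, hCD, ← Matrix.mul_assoc Dᴴ, hDC, Matrix.mul_assoc Bᴴ,
    ← Matrix.mul_assoc Cᴴ, hCC]
  simp only [Matrix.zero_mul, Matrix.mul_zero, smul_zero, add_zero, zero_add, Matrix.one_mul,
    smul_smul, hw, one_smul]
  rw [add_comm]
  exact hBD

/-- The transfer function of the closed loop. -/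
lemma loop_inv {r : ℂ} {P Q : Matrix σ σ ℂ} (hBB : B * Bᴴ = 1) (hDB : D * Bᴴ = 0)
    (hP : P * (1 - r • Dw B C D w) = 1) (hQ : (1 - r • D) * Q = 1) :
    (B * P * Bᴴ) * (1 - w • (r • (B * Q * C))) = 1 ∧
    B * P = (B * P * Bᴴ) * (B * Q) := by
  set Y := B * P with hY
  have h1 : P = 1 + r • (P * Dw B C D w) := by
    rw [Matrix.mul_sub, Matrix.mul_one, Matrix.mul_smul] at hP
    rw [← hP]; abel
  have h2 : Y * Bᴴ = 1 + (r * w) • (Y * C) := by
    conv_lhs => rw [hY, h1]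
    rw [Matrix.mul_add, Matrix.add_mul, Matrix.mul_one, hBB, Matrix.mul_smul, Matrix.smul_mul,
      Matrix.mul_assoc, Matrix.mul_assoc, Dw_mul hBB hDB, Matrix.mul_smul, Matrix.mul_smul,
      smul_smul, ← Matrix.mul_assoc, ← hY]
  have h3 : Y * (1 - r • D) = (Y * Bᴴ) * B := by
    have h4 : Y * (1 - r • Dw B C D w) = B := by
      rw [hY, Matrix.mul_assoc, hP, Matrix.mul_one]
    have h4' : Y * (1 - r • Dw B C D w) = Y * (1 - r • D) - (r * w) • (Y * C * B) := by
      unfold Dw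
      rw [smul_add, ← sub_sub, Matrix.mul_sub Y (1 - r • D), smul_smul, Matrix.mul_smul,
        ← Matrix.mul_assoc Y C B]
    rw [h4', sub_eq_iff_eq_add] at h4
    rw [h2, Matrix.add_mul, Matrix.one_mul, Matrix.smul_mul]
    exact h4
  have h5 : Y = (Y * Bᴴ) * (B * Q) := by
    rw [← Matrix.mul_assoc, ← h3, Matrix.mul_assoc, hQ, Matrix.mul_one]
  refine ⟨?_, h5⟩
  have h6 : (Y * Bᴴ) * (r • (B * Q * C)) = r • (Y * C) := by
    rw [Matrix.mul_smul, ← Matrix.mul_assoc, ← h5]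
  rw [Matrix.mul_sub, Matrix.mul_one, Matrix.mul_smul, h6, h2, smul_smul, mul_comm w r]
  abel


/-- Data of a lossless circuit with all wires touched. -/
structure Loss (B : Matrix ι σ ℂ) (C : Matrix σ ι ℂ) (D : Matrix σ σ ℂ) : Prop where
  hCC : Cᴴ * C = 1
  hCD : Cᴴ * D = 0
  hBD : Bᴴ * B + Dᴴ * D = 1
  hBB : B * Bᴴ = 1
  hDB : D * Bᴴ = 0

/-- The inverse of `1 - D_w`. -/
lemma loop_P (Q1 : Matrix σ σ ℂ) (hQ : (1 - D) * Q1 = 1) {M : Matrix ι ι ℂ}
    (hM : M * (1 - w • (B * Q1 * C)) = 1) :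
    ∃ P : Matrix σ σ ℂ, P * (1 - Dw B C D w) = 1 ∧ (1 - Dw B C D w) * P = 1 := by
  have hQ' : Q1 * (1 - D) = 1 := mul_eq_one_comm.1 hQ
  refine ⟨Q1 + w • (Q1 * C * M * B * Q1), ?_⟩
  have h1 : (Q1 + w • (Q1 * C * M * B * Q1)) * (1 - Dw B C D w) = 1 := by
    unfold Dw
    rw [← sub_sub, Matrix.mul_sub, Matrix.add_mul, hQ', Matrix.smul_mul,
      Matrix.mul_assoc (Q1 * C * M * B), hQ', Matrix.mul_one]
    have h2 : Q1 * C * M * (1 - w • (B * Q1 * C)) * B = Q1 * C * B := by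
      rw [Matrix.mul_assoc (Q1 * C), hM, Matrix.mul_one]
    rw [Matrix.mul_sub, Matrix.sub_mul, Matrix.mul_one, Matrix.mul_smul, Matrix.smul_mul] at h2
    rw [Matrix.add_mul, Matrix.smul_mul, Matrix.mul_smul, Matrix.mul_smul]
    have h3 : Q1 * C * M * B * Q1 * (C * B) = Q1 * C * M * (B * Q1 * C) * B := by
      simp only [Matrix.mul_assoc]
    have h4 : Q1 * C * M * B = Q1 * C * B + w • (Q1 * C * M * (B * Q1 * C) * B) := by
      rw [← h2]; abel
    rw [h3, h4, ← Matrix.mul_assoc Q1]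
    module
  exact ⟨h1, mul_eq_one_comm.1 h1⟩


omit [Fintype ι] [DecidableEq ι] in
lemma diag_conj_mul {V : Matrix σ σ ℂ} (hV : Vᴴ * V = 1) (f g : σ → ℂ) :
    (V * diagonal f * Vᴴ) * (V * diagonal g * Vᴴ) = V * diagonal (fun j => f j * g j) * Vᴴ := by
  have : (V * diagonal f * Vᴴ) * (V * diagonal g * Vᴴ) =
      V * diagonal f * (Vᴴ * V) * diagonal g * Vᴴ := by simp only [Matrix.mul_assoc]
  rw [this, hV, Matrix.mul_one, Matrix.mul_assoc V, diagonal_mul_diagonal]

/-- The eigenvalue of `D_w` attached to the eigenvalue `c` of `J_w`. -/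
noncomputable def om (c : ℝ) : ℂ := (c + I) / (c - I)

lemma cI_ne (c : ℝ) : (c - I : ℂ) ≠ 0 := by
  intro h
  have := congrArg Complex.im h
  simp at this

lemma norm_om (c : ℝ) : ‖om c‖ = 1 := by
  unfold om
  rw [norm_div, div_eq_one_iff_eq (norm_ne_zero_iff.2 (cI_ne c))]
  rw [← Complex.norm_conj]
  simp [sub_eq_add_neg]

lemma norm_om_sub (c : ℝ) : ‖om c - 1‖ * |c| ≤ 2 := by
  have h1 : om c - 1 = 2 * I / (c - I) := by
    unfold om
    rw [div_sub_one (cI_ne c)]
    ring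
  rw [h1, norm_div, norm_mul, norm_I]
  have h2 : |c| ≤ ‖(c - I : ℂ)‖ := by
    have := Complex.abs_re_le_norm (c - I : ℂ)
    simpa using this
  have h3 : 0 < ‖(c - I : ℂ)‖ := norm_pos_iff.2 (cI_ne c)
  rw [div_mul_eq_mul_div, div_le_iff₀ h3]
  simp
  exact h2

/-- `kk e c = 2/(1 - r ω) - 1` when `e = (1-r)/(1+r)`. -/
lemma kk_om {r : ℝ} (hr : 0 ≤ r) (hr1 : r < 1) (c : ℝ) :
    (1 - (r : ℂ) * om c) ≠ 0 ∧ kk ((1 - r) / (1 + r)) c = 2 / (1 - (r : ℂ) * om c) - 1 := by
  have h0 : (1 - (r : ℂ) * om c) ≠ 0 := by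
    intro h
    have h1 : (r : ℂ) * om c = 1 := (sub_eq_zero.1 h).symm
    have h2 := congrArg norm h1
    rw [norm_mul, norm_om, mul_one, Complex.norm_real, Real.norm_of_nonneg hr, norm_one] at h2
    linarith
  refine ⟨h0, ?_⟩
  have h3 : (1 + (r : ℂ)) ≠ 0 := by
    have : (1 + r : ℝ) ≠ 0 := by positivity
    exact_mod_cast this
  unfold kk
  have h4 := den_ne ((1 - r) / (1 + r)) c
  unfold om at h0 ⊢
  have h5 := cI_ne c
  have h6 : (1 - (r : ℂ) * ((c + I) / (c - I))) = ((c - I) - r * (c + I)) / (c - I) := by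
    field_simp
  rw [h6] at h0 ⊢
  have h7 : ((c - I : ℂ) - r * (c + I)) ≠ 0 := by
    intro h
    rw [h, zero_div] at h0
    exact h0 rfl
  have h8 : (2 : ℂ) / (((c - I) - r * (c + I)) / (c - I)) - 1 =
      ((c - I) + r * (c + I)) / ((c - I) - r * (c + I)) := by
    field_simp
    ring
  rw [h8, div_eq_div_iff h4 h7]
  push_cast
  field_simp
  ring_nf
  simp only [Complex.I_sq]
  ring


set_option maxHeartbeats 1000000 in
/-- The Herglotz representation of the closed loop. -/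
theorem herglotz (hL : Loss B C D) (hw : star w * w = 1) (Q : ℂ → Matrix σ σ ℂ)
    (hQ : ∀ z : ℂ, (1 - z • D) * Q z = 1) {M : Matrix ι ι ℂ}
    (hM : M * (1 - w • (B * Q 1 * C)) = 1) :
    ∃ (E : Matrix σ σ ℂ) (c : σ → ℝ), E * Eᴴ = 1 ∧ Eᴴ * E = 1 ∧
      Dw B C D w = E * diagonal (fun j => om (c j)) * Eᴴ ∧
      (B * E) * diagonal (fun j => (c j : ℂ)) * (B * E)ᴴ = (-I) • ((2 : ℂ) • M - 1) ∧
      (∀ r : ℝ, 0 ≤ r → r < 1 →
        ((B * E) * diagonal (fun j => kk ((1 - r) / (1 + r)) (c j)) * (B * E)ᴴ) *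
          (1 - w • ((r : ℂ) • (B * Q r * C))) = 1 + w • ((r : ℂ) • (B * Q r * C))) ∧
      ((∑ j, (1 + c j ^ 2) * nsq ((B * E).col j) : ℝ) : ℂ) =
        4 * trace ((M * (B * Q 1)) * (M * (B * Q 1))ᴴ) := by
  have hQ1 : (1 - D) * Q 1 = 1 := by
    have := hQ 1
    rwa [one_smul] at this
  obtain ⟨P, hP1, hP2⟩ := loop_P (Q 1) hQ1 hM
  set W := Dw B C D w with hW
  have hWW : Wᴴ * W = 1 := Dw_iso hw hL.hCC hL.hCD hL.hBD
  have hPP : P + Pᴴ = 1 := by
    have h1 : (1 - W)ᴴ * (P + Pᴴ) * (1 - W) = (1 - W)ᴴ * 1 * (1 - W) := by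
      have h2 : (1 - W)ᴴ * Pᴴ = 1 := by
        rw [← conjTranspose_mul, hP1, conjTranspose_one]
      rw [Matrix.mul_add, h2, Matrix.add_mul, Matrix.mul_assoc _ P, hP1, Matrix.mul_one,
        Matrix.one_mul, conjTranspose_sub, conjTranspose_one, Matrix.sub_mul,
        Matrix.mul_sub Wᴴ, hWW]
      simp only [Matrix.mul_one, Matrix.one_mul]
      abel
    have h3 : Pᴴ * ((1 - W)ᴴ * (P + Pᴴ) * (1 - W)) * P =
        Pᴴ * ((1 - W)ᴴ * 1 * (1 - W)) * P := by rw [h1]
    have h4 : Pᴴ * (1 - W)ᴴ = 1 := by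
      rw [← conjTranspose_mul, hP2, conjTranspose_one]
    have h5 : ∀ T : Matrix σ σ ℂ, Pᴴ * ((1 - W)ᴴ * T * (1 - W)) * P = T := by
      intro T
      have : Pᴴ * ((1 - W)ᴴ * T * (1 - W)) * P = (Pᴴ * (1 - W)ᴴ) * T * ((1 - W) * P) := by
        simp only [Matrix.mul_assoc]
      rw [this, h4, hP2, Matrix.one_mul, Matrix.mul_one]
    rwa [h5, h5] at h3
  set J : Matrix σ σ ℂ := (-I) • ((2 : ℂ) • P - 1) with hJ
  have hPh : Pᴴ = 1 - P := by rw [← hPP]; abel
  have hJh : Jᴴ = J := by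
    rw [hJ, conjTranspose_smul, conjTranspose_sub, conjTranspose_smul, conjTranspose_one, hPh]
    have : star (-I) = I := by
      rw [star_neg, show star I = -I from Complex.conj_I, neg_neg]
    rw [this, show star (2 : ℂ) = 2 by simp]
    module
  obtain ⟨E, c, hE1, hE2, hE3, -⟩ := exists_diag hJh
  have hPd : P = E * diagonal (fun j => (1 + I * c j) / 2) * Eᴴ := by
    have h1 : P = (1 / 2 : ℂ) • (1 + I • J) := by
      rw [hJ, smul_smul]
      have : I * -I = 1 := by rw [mul_neg, I_mul_I, neg_neg]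
      rw [this]
      module
    have h2 : (diagonal (fun j => (1 + I * c j) / 2) : Matrix σ σ ℂ) =
        (1 / 2 : ℂ) • (1 + I • diagonal (fun j => (c j : ℂ))) := by
      ext a b
      by_cases h : a = b
      · subst h
        simp only [diagonal_apply_eq, Matrix.add_apply, Matrix.smul_apply, smul_eq_mul,
          Matrix.one_apply_eq]
        ring
      · simp [h]
    rw [h2, Matrix.mul_smul, Matrix.smul_mul, Matrix.mul_add, Matrix.add_mul, Matrix.mul_one,
      hE1, Matrix.mul_smul, Matrix.smul_mul, ← hE3]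
    exact h1
  have hne : ∀ t : ℝ, (1 + I * t : ℂ) ≠ 0 := by
    intro t h
    have := congrArg Complex.re h
    simp at this
  have hW1 : 1 - W = E * diagonal (fun j => 2 / (1 + I * c j)) * Eᴴ := by
    have h1 : P * (E * diagonal (fun j => 2 / (1 + I * c j)) * Eᴴ) = 1 := by
      rw [hPd, diag_conj_mul hE2]
      have : (fun j => (1 + I * (c j : ℂ)) / 2 * (2 / (1 + I * c j))) = fun _ => (1 : ℂ) := by
        ext j
        have := hne (c j)
        field_simp
      rw [this, diagonal_one, Matrix.mul_one, hE1]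
    calc 1 - W = (1 - W) * (P * (E * diagonal (fun j => 2 / (1 + I * c j)) * Eᴴ)) := by
          rw [h1, Matrix.mul_one]
      _ = _ := by rw [← Matrix.mul_assoc, hP2, Matrix.one_mul]
  have hWd : W = E * diagonal (fun j => om (c j)) * Eᴴ := by
    have h1 : W = 1 - (1 - W) := by abel
    rw [h1, hW1]
    have h2 : (diagonal (fun j => om (c j)) : Matrix σ σ ℂ) =
        1 - diagonal (fun j => 2 / (1 + I * c j)) := by
      ext a b
      by_cases h : a = b
      · subst h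
        simp only [diagonal_apply_eq, Matrix.sub_apply, Matrix.one_apply_eq]
        unfold om
        have h3 := hne (c a)
        have h4 := cI_ne (c a)
        have h5 : (1 + I * (c a : ℂ)) = I * (c a - I) := by
          rw [mul_sub, I_mul_I]; ring
        rw [h5, div_eq_iff h4, sub_mul, div_mul_eq_mul_div]
        field_simp
        linear_combination 2 * Complex.I_mul_I
      · simp [h]
    rw [h2, Matrix.mul_sub, Matrix.sub_mul, Matrix.mul_one, hE1]
  have hconj : ∀ f : σ → ℂ, (B * E) * diagonal f * (B * E)ᴴ = B * (E * diagonal f * Eᴴ) * Bᴴ := by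
    intro f
    rw [conjTranspose_mul]
    simp only [Matrix.mul_assoc]
  obtain ⟨hM1, hM2⟩ := loop_inv (w := w) (r := 1) (P := P) (Q := Q 1) hL.hBB hL.hDB
    (by rw [one_smul]; exact hP1) (by rw [one_smul]; exact hQ1)
  rw [one_smul] at hM1
  have hMeq : B * P * Bᴴ = M := by
    have h1 : (1 - w • (B * Q 1 * C)) * M = 1 := mul_eq_one_comm.1 hM
    calc B * P * Bᴴ = (B * P * Bᴴ) * ((1 - w • (B * Q 1 * C)) * M) := by
          rw [h1, Matrix.mul_one]
      _ = M := by rw [← Matrix.mul_assoc, hM1, Matrix.one_mul]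
  rw [hMeq] at hM2
  refine ⟨E, c, hE1, hE2, hWd, ?_, ?_, ?_⟩
  · rw [hconj, ← hE3, hJ, Matrix.mul_smul, Matrix.smul_mul, Matrix.mul_sub, Matrix.sub_mul,
      Matrix.mul_one, hL.hBB, Matrix.mul_smul, Matrix.smul_mul, hMeq]
  · intro r hr hr1
    set Pr : Matrix σ σ ℂ := E * diagonal (fun j => 1 / (1 - (r : ℂ) * om (c j))) * Eᴴ with hPr
    have h1 : Pr * (1 - (r : ℂ) • W) = 1 := by
      have h2 : 1 - (r : ℂ) • W = E * diagonal (fun j => 1 - (r : ℂ) * om (c j)) * Eᴴ := by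
        have h3 : (diagonal (fun j => 1 - (r : ℂ) * om (c j)) : Matrix σ σ ℂ) =
            1 - (r : ℂ) • diagonal (fun j => om (c j)) := by
          ext a b
          by_cases h : a = b
          · subst h; simp
          · simp [h]
        rw [h3, Matrix.mul_sub, Matrix.sub_mul, Matrix.mul_one, hE1, Matrix.mul_smul,
          Matrix.smul_mul, ← hWd]
      rw [h2, hPr, diag_conj_mul hE2]
      have : (fun j => 1 / (1 - (r : ℂ) * om (c j)) * (1 - (r : ℂ) * om (c j))) =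
          fun _ => (1 : ℂ) := by
        ext j
        exact one_div_mul_cancel (kk_om hr hr1 (c j)).1
      rw [this, diagonal_one, Matrix.mul_one, hE1]
    obtain ⟨h4, -⟩ := loop_inv (w := w) (r := r) (P := Pr) (Q := Q r) hL.hBB hL.hDB h1 (hQ r)
    have h5 : (B * E) * diagonal (fun j => kk ((1 - r) / (1 + r)) (c j)) * (B * E)ᴴ =
        (2 : ℂ) • (B * Pr * Bᴴ) - 1 := by
      have h6 : (diagonal (fun j => kk ((1 - r) / (1 + r)) (c j)) : Matrix σ σ ℂ) =
          (2 : ℂ) • diagonal (fun j => 1 / (1 - (r : ℂ) * om (c j))) - 1 := by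
        ext a b
        by_cases h : a = b
        · subst h
          simp only [diagonal_apply_eq, Matrix.sub_apply, Matrix.smul_apply, smul_eq_mul,
            Matrix.one_apply_eq]
          rw [(kk_om hr hr1 (c a)).2]
          ring
        · simp [h]
      rw [hconj, h6, Matrix.mul_sub, Matrix.sub_mul, Matrix.mul_one, hE1, Matrix.mul_smul,
        Matrix.smul_mul, ← hPr, Matrix.mul_sub, Matrix.sub_mul, Matrix.mul_one, hL.hBB,
        Matrix.mul_smul, Matrix.smul_mul]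
    rw [h5, Matrix.sub_mul, Matrix.smul_mul, h4, Matrix.one_mul]
    module
  · rw [← hM2]
    have h1 : (B * P) * (B * P)ᴴ = B * (P * (1 - P)) * Bᴴ := by
      rw [conjTranspose_mul, hPh]
      simp only [Matrix.mul_assoc]
    have h2 : P * (1 - P) = E * diagonal (fun j => ((1 + c j ^ 2) / 4 : ℂ)) * Eᴴ := by
      have h3 : 1 - P = E * diagonal (fun j => 1 - (1 + I * c j) / 2) * Eᴴ := by
        have h4 : (diagonal (fun j => 1 - (1 + I * c j) / 2) : Matrix σ σ ℂ) =
            1 - diagonal (fun j => (1 + I * c j) / 2) := by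
          ext a b
          by_cases h : a = b
          · subst h; simp
          · simp [h]
        rw [h4, Matrix.mul_sub, Matrix.sub_mul, Matrix.mul_one, hE1, ← hPd]
      rw [h3]
      conv_lhs => rw [hPd]
      rw [diag_conj_mul hE2]
      congr 3
      ext j
      linear_combination (-(c j : ℂ) ^ 2 / 4) * Complex.I_mul_I
    rw [h1, h2, ← hconj]
    have h5 := trace_BfB (B * E) (fun j => ((1 + c j ^ 2) / 4 : ℂ)) 1
    rw [Matrix.mul_one] at h5
    rw [h5, Finset.mul_sum]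
    push_cast
    refine Finset.sum_congr rfl fun j _ => ?_
    rw [one_mulVec, star_dot_self]
    ring

end Pool.Agent.H683R2.RF
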