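import Pool.Agent.H683R2.RFNum

/-!
# The lower bound for gates
-/

namespace Pool.Agent.H683R2.RF

open Matrix Complex Finset

lemma logs {α : ℝ} (hα : 0 < α) (hα1 : α ≤ 1 / 10 ^ 10) :
    20 ≤ Real.log (1 / α) ∧ Real.log (4000 / α) ≤ 2 * Real.log (1 / α) ∧
    0 < Real.log (4000 / α) ∧ Real.log (1 / α) * α ≤ 1 / 40000 := by
  have h1 : (10 : ℝ) ^ 10 ≤ 1 / α := by
    rw [le_div_iff₀ hα]
    have := mul_le_mul_of_nonneg_left hα1 (show (0 : ℝ) ≤ 10 ^ 10 by norm_num)
    linarith
  have h2 : Real.exp 20 ≤ 10 ^ 10 := by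
    have e1 : Real.exp 20 = Real.exp 1 ^ 20 := by rw [← Real.exp_nat_mul]; norm_num
    rw [e1]
    have e2 := Real.exp_one_lt_d9.le
    have e3 : (0 : ℝ) ≤ Real.exp 1 := (Real.exp_pos 1).le
    refine (pow_le_pow_left₀ e3 e2 20).trans ?_
    norm_num
  have h3 : 20 ≤ Real.log (1 / α) := by
    rw [Real.le_log_iff_exp_le (by positivity)]
    exact h2.trans h1
  have h4 : Real.log (4000 / α) = Real.log 4000 + Real.log (1 / α) := by
    rw [← Real.log_mul (by norm_num) (by positivity)]
    congr 1; ring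
  have h5 : Real.log 4000 ≤ 9 := by
    rw [Real.log_le_iff_le_exp (by norm_num)]
    have e1 : Real.exp 9 = Real.exp 1 ^ 9 := by rw [← Real.exp_nat_mul]; norm_num
    rw [e1]
    have e2 := Real.exp_one_gt_d9.le
    refine le_trans ?_ (pow_le_pow_left₀ (by norm_num) e2 9)
    norm_num
  have h6 : 0 ≤ Real.log 4000 := Real.log_nonneg (by norm_num)
  refine ⟨h3, by linarith, by linarith, ?_⟩
  have hs : 0 < Real.sqrt α := Real.sqrt_pos.2 hα
  have h7 : Real.log (1 / α) ≤ 2 * (1 / Real.sqrt α) := by
    have e1 : (1 / α : ℝ) = (1 / Real.sqrt α) ^ 2 := by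
      rw [div_pow, Real.sq_sqrt hα.le, one_pow]
    rw [e1, Real.log_pow]
    have := Real.log_le_self (show 0 ≤ 1 / Real.sqrt α by positivity)
    push_cast
    linarith
  have h8 : Real.sqrt α ≤ 1 / 10 ^ 5 := by
    rw [Real.sqrt_le_left (by norm_num)]
    refine hα1.trans ?_
    norm_num
  calc Real.log (1 / α) * α ≤ 2 * (1 / Real.sqrt α) * α := by gcongr
    _ = 2 * Real.sqrt α := by
        have : α = Real.sqrt α * Real.sqrt α := (Real.mul_self_sqrt hα.le).symm
        field_simp
        rw [Real.sq_sqrt hα.le]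
    _ ≤ 1 / 40000 := by linarith

/-- The rate. -/
noncomputable def rate (α : ℝ) : ℝ := Real.sqrt α / (1280 * Real.log (1 / α) ^ (3 / 2 : ℝ))

variable {ι : Type} [Fintype ι] [DecidableEq ι]

set_option maxHeartbeats 1000000 in
/-- **Lower bound on the number of gates.** -/
theorem lower {n : ℕ} (hn : 1 ≤ n) (hcard : Fintype.card ι = 2 * n) (gs : List (Gate ι))
    {Γ : Matrix ι ι ℂ} (hΓ : Γᴴ = Γ) (hΓ2 : Γ * Γ = 1) (htr : trace Γ = 0)
    (hδ : ∀ i j, ‖Γ i j‖ ≤ 1 / Real.sqrt n) {α : ℝ} (hα : 0 < α) (hα1 : α ≤ 1 / 10 ^ 10)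
    (hcirc : circ gs 1 = XX Γ α) :
    rate α * n * Real.log n ≤ gs.length := by
  obtain ⟨hl20, hY2, hY0, hlα⟩ := logs hα hα1
  set l := Real.log (1 / α) with hl
  set Y := Real.log (4000 / α) with hY
  have hn0 : (0 : ℝ) < n := by exact_mod_cast hn
  have hn1 : (1 : ℝ) ≤ n := by exact_mod_cast hn
  have hα2 : α ≤ 1 / 1000 := hα1.trans (by norm_num)
  -- trigonometric estimates
  have hsin1 : Real.sin α ≤ α := Real.sin_le hα.le
  have hsin2 : 99 / 100 * α ≤ Real.sin α := by
    have h1 := Real.sin_gt_sub_cube hα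
    have h2 : α ^ 3 ≤ α * (1 / 1000) ^ 2 := by
      have : α ^ 3 = α * α ^ 2 := by ring
      rw [this]
      gcongr
    nlinarith
  have hcos : 19 / 20 ≤ Real.cos α := by
    have := Real.one_sub_sq_div_two_le_cos (x := α)
    nlinarith
  have hsinpos : 0 < Real.sin α := by nlinarith
  have hcos1 : Real.cos α < 1 := by
    have h1 := Real.sin_sq_add_cos_sq α
    have h2 : 0 < Real.sin α ^ 2 := by positivity
    nlinarith
  -- the trivial bound
  have htriv : (n : ℝ) ≤ gs.length := by
    have h1 := card_le_two_mul gs (circ_zero_eq gs (by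
      rw [hcirc]
      exact XX_no_fix hΓ hcos1))
    rw [hcard] at h1
    push_cast at h1
    linarith
  -- the rate
  have hsl : 0 < Real.sqrt l := Real.sqrt_pos.2 (by linarith)
  have hl0 : 0 < l := by linarith
  have hrate : rate α = Real.sqrt α / (1280 * (l * Real.sqrt l)) := by
    unfold rate
    rw [← hl]
    congr 2
    rw [Real.sqrt_eq_rpow, ← Real.rpow_one_add' hl0.le (by norm_num)]
    norm_num
  have hsα : Real.sqrt α ≤ 1 := Real.sqrt_le_one.2 (by linarith)
  have hsα0 : 0 < Real.sqrt α := Real.sqrt_pos.2 hα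
  -- the length parameter
  set L := Nat.log 2 n / 2 with hL
  have hL1 : (2 : ℝ) ^ (2 * L) ≤ n := by
    have h1 : 2 ^ (Nat.log 2 n) ≤ n := Nat.pow_log_le_self 2 (by omega)
    have h2 : 2 ^ (2 * L) ≤ 2 ^ (Nat.log 2 n) := Nat.pow_le_pow_right (by norm_num) (by omega)
    exact_mod_cast h2.trans h1
  have hL2 : Real.log n ≤ (2 * L + 2) * (7 / 10) := by
    have h1 : n < 2 ^ (Nat.log 2 n + 1) := Nat.lt_pow_succ_log_self (by norm_num) n
    have h2 : 2 ^ (Nat.log 2 n + 1) ≤ 2 ^ (2 * L + 2) := Nat.pow_le_pow_right (by norm_num)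
      (by omega)
    have h3 : (n : ℝ) ≤ 2 ^ (2 * L + 2) := by exact_mod_cast (h1.le.trans h2)
    have h4 := Real.log_le_log hn0 h3
    rw [Real.log_pow] at h4
    have h5 := Real.log_two_lt_d9
    push_cast at h4
    have h6 : (0 : ℝ) ≤ 2 * L + 2 := by positivity
    nlinarith
  have hlogn : 0 ≤ Real.log n := Real.log_nonneg hn1
  by_cases hA : 3 * Y ≤ L
  · -- the main case
    have hL0 : (0 : ℝ) < L := by linarith
    have hLlog : Real.log n ≤ 2 * L := by
      have : (60 : ℝ) ≤ L := by
        have h9 : 20 ≤ Y := by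
          have : l ≤ Y := by
            rw [hl, hY]
            apply Real.log_le_log (by positivity)
            gcongr
            norm_num
          linarith
        linarith
      linarith
    set δ : ℝ := 1 / Real.sqrt n with hδd
    have hδ0 : 0 ≤ δ := by positivity
    have hεb : δ * Real.sqrt 2 ^ L ≤ α / 4000 := by
      have h1 : Real.exp (-Y) = α / 4000 := by
        rw [Real.exp_neg, hY, Real.exp_log (by positivity), inv_div]
      rw [← h1]
      have h2 : Real.sqrt 2 ^ L * Real.sqrt 2 ^ L = 2 ^ L := by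
        rw [← mul_pow, Real.mul_self_sqrt (by norm_num)]
      have h3 : Real.sqrt ((2 : ℝ) ^ (2 * L)) = 2 ^ L := by
        rw [mul_comm, pow_mul, Real.sqrt_sq (by positivity)]
      have h4 : (2 : ℝ) ^ L ≤ Real.sqrt n := by
        rw [← h3]; exact Real.sqrt_le_sqrt hL1
      have h5 : δ * Real.sqrt 2 ^ L ≤ 1 / Real.sqrt 2 ^ L := by
        rw [hδd, one_div_mul_eq_div, div_le_div_iff₀ (by positivity) (by positivity), h2, one_mul]
        exact h4
      refine h5.trans ?_
      have h6 : Real.log (1 / Real.sqrt 2 ^ L) ≤ -Y := by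
        rw [Real.log_div (by norm_num) (by positivity), Real.log_one, Real.log_pow,
          Real.log_sqrt (by norm_num)]
        have := Real.log_two_gt_d9
        nlinarith
      rwa [Real.log_le_iff_le_exp (by positivity)] at h6
    set r := Real.exp (-(Y / L)) with hr
    have hr0 : 0 ≤ r := (Real.exp_pos _).le
    have hr1 : r < 1 := by
      rw [hr, Real.exp_lt_one_iff]
      have : 0 < Y / L := by positivity
      linarith
    have hrL : r ^ L = α / 4000 := by
      rw [hr, ← Real.exp_nat_mul]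
      have : (L : ℝ) * -(Y / L) = -Y := by field_simp
      rw [this, Real.exp_neg, hY, Real.exp_log (by positivity), inv_div]
    set J := ⌈l / Real.log 2⌉₊ with hJ
    have hlog2 := Real.log_two_gt_d9
    have hJ1 : 1 / α ≤ 2 ^ J := by
      have h1 : l / Real.log 2 ≤ J := Nat.le_ceil _
      rw [div_le_iff₀ (by linarith)] at h1
      have h2 : Real.log (1 / α) ≤ Real.log (2 ^ J) := by rw [Real.log_pow]; exact h1
      exact (Real.log_le_log_iff (by positivity) (by positivity)).1 h2
    have hJ2 : (J : ℝ) + 1 ≤ 2 * l := by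
      have h1 : (J : ℝ) < l / Real.log 2 + 1 := Nat.ceil_lt_add_one (by positivity)
      have h2 : l / Real.log 2 ≤ 3 / 2 * l := by
        rw [div_le_iff₀ (by linarith)]
        nlinarith
      linarith
    set e := (1 - r) / (1 + r) with he
    have he0 : 0 < e := by rw [he]; apply div_pos <;> linarith
    have heY : e ≤ Y / L := by
      have h1 : 1 - r ≤ Y / L := by
        have := Real.add_one_le_exp (-(Y / L))
        rw [← hr] at this
        linarith
      refine le_trans ?_ h1
      rw [he]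
      apply div_le_self (by linarith) (by linarith)
    set η := δ * Real.sqrt 2 ^ L + r ^ L * (1 + δ * Real.sqrt 2 ^ L) with hη
    have hη0 : 0 ≤ η := by positivity
    have hη1 : η ≤ α / 1000 := by
      rw [hη, hrL]
      nlinarith
    obtain ⟨t1, ht1, ht2, hmain⟩ := main_ineq gs hΓ hΓ2 htr hδ0 hδ hcos (by linarith) hsinpos
      hcirc hr0 hr1 L J he hη
    set m : ℝ := (gs.length : ℝ) with hm
    set h := e * m / n with hh
    have hh0 : 0 ≤ h := by positivity
    have hhn : e * m = h * n := by rw [hh]; field_simp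
    have ht1a : 9 / 20 * α ≤ t1 := by linarith
    have ht1b : t1 ≤ 53 / 50 * α := by linarith
    have hN : (Fintype.card ι : ℝ) = 2 * n := by rw [hcard]; push_cast; ring
    rw [hN] at hmain
    have hmain' := hmain (32 * h + 8 * t1) (by nlinarith) (by
      have : 8 * e * m = 8 * (h * n) := by rw [← hhn]; ring
      rw [this]
      apply le_of_eq; ring)
    -- the key lower bound on `h`
    have hkey : α / 51200 < ((J : ℝ) + 1) * h ^ 2 := by
      by_contra hcon
      push Not at hcon
      have hs := scalar_contra hα hα1 ht1a ht1b hh0 hη0 hη1 hJ1 (by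
        have : (0 : ℝ) ≤ J := Nat.cast_nonneg J
        linarith) (by nlinarith) hcon
      have h1 : 3 / 4 * t1 * (2 * n) ≤
          ((32 * h + 8 * t1) * η + 4 * h / 2 ^ J +
            (40 * h + 11 * t1) * (64 * ((J : ℝ) + 1) * h)) * (2 * n) := by
        refine hmain'.trans (le_of_eq ?_)
        have e1 : 8 * e * m / 2 ^ J = 4 * h / 2 ^ J * (2 * n) := by
          have : 8 * e * m = 8 * (h * n) := by rw [← hhn]; ring
          rw [this]; ring
        have e2 : 128 * ((J : ℝ) + 1) * e * m = 128 * (J + 1) * (h * n) := by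
          rw [← hhn]; ring
        rw [e1, e2]
        ring
      have h2 := mul_lt_mul_of_pos_right hs (show (0 : ℝ) < 2 * n by linarith)
      linarith
    have hkey2 : α ≤ 102400 * l * h ^ 2 := by
      have h1 : ((J : ℝ) + 1) * h ^ 2 ≤ 2 * l * h ^ 2 := by gcongr
      linarith
    have hkey3 : Real.sqrt α ≤ 320 * Real.sqrt l * h := by
      have h1 : Real.sqrt α ≤ Real.sqrt ((320 * Real.sqrt l * h) ^ 2) := by
        apply Real.sqrt_le_sqrt
        rw [mul_pow, mul_pow, Real.sq_sqrt hl0.le]
        linarith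
      rwa [Real.sqrt_sq (by positivity)] at h1
    rw [hrate, div_mul_eq_mul_div, div_mul_eq_mul_div, div_le_iff₀ (by positivity)]
    -- `√α n log n ≤ m · 1280 l √l`
    have h1 : Real.sqrt α * n ≤ 320 * Real.sqrt l * (e * m) := by
      rw [hhn]
      calc Real.sqrt α * n ≤ 320 * Real.sqrt l * h * n := by gcongr
        _ = _ := by ring
    have h2 : e * L ≤ 2 * l := by
      rw [le_div_iff₀ hL0] at heY
      linarith
    calc Real.sqrt α * n * Real.log n ≤ 320 * Real.sqrt l * (e * m) * (2 * L) := by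
          gcongr
      _ = 640 * Real.sqrt l * m * (e * L) := by ring
      _ ≤ 640 * Real.sqrt l * m * (2 * l) := by gcongr
      _ = m * (1280 * (l * Real.sqrt l)) := by ring
  · -- small `n`
    push Not at hA
    have h1 : Real.log n ≤ 20 * l := by nlinarith
    rw [hrate]
    refine le_trans ?_ htriv
    have h2 : Real.sqrt α / (1280 * (l * Real.sqrt l)) * n * Real.log n ≤
        1 / (1280 * (l * 1)) * n * (20 * l) := by
      have h3 : 1 ≤ Real.sqrt l := Real.one_le_sqrt.2 (by linarith)
      gcongr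
    refine h2.trans ?_
    have h3 : 1 / (1280 * (l * 1)) * n * (20 * l) = n * (20 / 1280) := by
      field_simp
    rw [h3]
    linarith

end Pool.Agent.H683R2.RF
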