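import Pool.Agent.H683R2.RFIneq

/-!
# The numerical part
-/

namespace Pool.Agent.H683R2.RF

open Matrix Complex Finset

/-- The scalar inequality behind the contradiction. -/
lemma scalar_contra {α t1 h η x J : ℝ} (hα : 0 < α) (hα1 : α ≤ 1 / 10 ^ 10)
    (ht1 : 9 / 20 * α ≤ t1) (ht2 : t1 ≤ 53 / 50 * α) (hh : 0 ≤ h) (hη0 : 0 ≤ η)
    (hη : η ≤ α / 1000) (hx : 1 / α ≤ x) (hJ : 1 ≤ J) (hJα : J * α ≤ 1 / 20000)
    (hJh : J * h ^ 2 ≤ α / 51200) :
    (32 * h + 8 * t1) * η + 4 * h / x + (40 * h + 11 * t1) * (64 * J * h) < 3 / 4 * t1 := by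
  have h1 : h ^ 2 ≤ α / 51200 := by nlinarith [sq_nonneg h]
  have h2 : h ≤ 1 / 1000 := by
    by_contra hc
    push Not at hc
    nlinarith
  have h3 : (J * h) ^ 2 ≤ (1 / 20000) * (1 / 51200) := by
    have : (J * h) ^ 2 = J * (J * h ^ 2) := by ring
    rw [this]
    have h4 : J * (J * h ^ 2) ≤ J * (α / 51200) := by
      apply mul_le_mul_of_nonneg_left hJh; linarith
    nlinarith
  have h5 : J * h ≤ 1 / 30000 := by
    by_contra hc
    push Not at hc
    nlinarith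
  have hx0 : 0 < x := lt_of_lt_of_le (by positivity) hx
  have h6 : 4 * h / x ≤ 4 * h * α := by
    rw [div_le_iff₀ hx0]
    have : 1 ≤ α * x := by
      rw [div_le_iff₀ hα] at hx
      linarith
    nlinarith
  have h7 : 4 * h * α ≤ 1 / 250 * α := by nlinarith
  have h8 : (32 * h + 8 * t1) * η ≤ 1 / 10 * (α / 1000) := by
    have e1 : 32 * h + 8 * t1 ≤ 1 / 10 := by nlinarith
    have e2 : 0 ≤ 32 * h + 8 * t1 := by nlinarith
    exact mul_le_mul e1 hη hη0 (by norm_num)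
  have h9 : (40 * h + 11 * t1) * (64 * J * h) =
      2560 * (J * h ^ 2) + 704 * t1 * (J * h) := by ring
  have h10 : 704 * t1 * (J * h) ≤ 704 * t1 * (1 / 30000) := by
    apply mul_le_mul_of_nonneg_left h5; linarith
  rw [h9]
  nlinarith

end Pool.Agent.H683R2.RF
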