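import Pool.Agent.H683R2.RFLoop

/-!
# Realising a circuit of two-coordinate unitaries as a lossless system
-/

namespace Pool.Agent.H683R2.RF

open Matrix Complex

variable {ι : Type*} [Fintype ι] [DecidableEq ι]

/-- A gate: a unitary acting on the two coordinates `a ≠ b`. -/
structure Gate (ι : Type*) [Fintype ι] [DecidableEq ι] where
  R : Matrix ι ι ℂ
  a : ι
  b : ι
  hab : a ≠ b
  h1 : R * Rᴴ = 1
  h2 : Rᴴ * R = 1
  off : ∀ k l, ¬ ((k = a ∨ k = b) ∧ (l = a ∨ l = b)) → R k l = (1 : Matrix ι ι ℂ) k l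

namespace Gate

variable (g : Gate ι)

/-- The embedding of the two wires. -/
def emb : Matrix ι Bool ℂ := fun k s => if k = cond s g.a g.b then 1 else 0

/-- The diagonal projection on the two wires. -/
def E : Matrix ι ι ℂ := diagonal fun k => if k = g.a ∨ k = g.b then 1 else 0

lemma emb_iso : g.embᴴ * g.emb = 1 := by
  ext s t
  rw [Matrix.mul_apply]
  simp only [conjTranspose_apply, emb]
  rcases s with _ | _ <;> rcases t with _ | _ <;>
    simp [g.hab, g.hab.symm]

lemma emb_mul : g.emb * g.embᴴ = g.E := by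
  ext k l
  rw [Matrix.mul_apply, Fintype.sum_bool]
  simp only [conjTranspose_apply, emb, E, cond_true, cond_false, diagonal_apply]
  by_cases hka : k = g.a
  · subst hka
    by_cases hl : l = g.a
    · subst hl; simp [g.hab]
    · simp [hl, Ne.symm hl, g.hab]
  · by_cases hkb : k = g.b
    · subst hkb
      by_cases hl : l = g.b
      · subst hl; simp [g.hab.symm]
      · simp [hl, Ne.symm hl, g.hab.symm]
    · simp [hka, hkb]

lemma R_E : g.R * (1 - g.E) = 1 - g.E := by
  ext k l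
  have h : (1 - g.E) = diagonal fun k => if k = g.a ∨ k = g.b then 0 else 1 := by
    ext k l
    by_cases h : k = l
    · subst h
      simp only [E, Matrix.sub_apply, Matrix.one_apply_eq, diagonal_apply_eq]
      split_ifs <;> simp
    · simp [E, h, Matrix.one_apply_ne h]
  rw [h, mul_diagonal, diagonal_apply]
  by_cases hl : l = g.a ∨ l = g.b
  · rw [if_pos hl, mul_zero]
    split_ifs with h3 h4
    · rfl
    · subst h3; exact absurd hl h4
    · rfl
  · rw [if_neg hl, mul_one, g.off k l (fun h => hl h.2), Matrix.one_apply]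
    split_ifs with h3 h4
    · subst h3; exact absurd h4 hl
    · rfl
    · rfl

lemma E_mul_E : g.E * g.E = g.E := by
  rw [E, diagonal_mul_diagonal]
  congr 1
  ext k
  split_ifs <;> simp

lemma E_conj : g.Eᴴ = g.E := by
  rw [E, diagonal_conjTranspose]
  congr 1
  ext k
  rw [Pi.star_apply]
  split_ifs <;> simp

lemma E_emb : g.E * g.emb = g.emb := by
  rw [← emb_mul, Matrix.mul_assoc, emb_iso, Matrix.mul_one]

lemma trace_E : trace g.E = 2 := by
  rw [← emb_mul, trace_mul_comm, emb_iso]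
  simp

/-- The feedthrough of the gate. -/
def A : Matrix ι ι ℂ := 1 - g.E

/-- Output from the two-dimensional state. -/
def B : Matrix ι Bool ℂ := g.R * g.emb

/-- Input to the two-dimensional state. -/
def C : Matrix Bool ι ℂ := g.embᴴ

/-- The gate with delay variable `z`. -/
def T (z : ℂ) : Matrix ι ι ℂ := g.A + z • (g.B * g.C)

lemma A_conj : g.Aᴴ = g.A := by
  rw [A, conjTranspose_sub, conjTranspose_one, E_conj]

lemma A_mul_A : g.A * g.A = g.A := by
  rw [A, Matrix.sub_mul, Matrix.mul_sub, Matrix.mul_sub, E_mul_E]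
  simp

lemma R_A : g.R * g.A = g.A := g.R_E

lemma A_R : g.A * g.R = g.A := by
  have h : g.Rᴴ * g.A = g.A := by
    conv_lhs => rw [← R_A, ← Matrix.mul_assoc, g.h2, Matrix.one_mul]
  have := congrArg conjTranspose h
  rwa [conjTranspose_mul, conjTranspose_conjTranspose, A_conj] at this

lemma A_emb : g.A * g.emb = 0 := by
  rw [A, Matrix.sub_mul, E_emb, Matrix.one_mul, sub_self]

lemma AA_CC : g.Aᴴ * g.A + g.Cᴴ * g.C = 1 := by
  rw [A_conj, A_mul_A, C, conjTranspose_conjTranspose, emb_mul, A]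
  abel

lemma A_B : g.A * g.B = 0 := by
  rw [B, ← Matrix.mul_assoc, A_R, A_emb]

lemma B_B : g.Bᴴ * g.B = 1 := by
  rw [B, conjTranspose_mul, Matrix.mul_assoc, ← Matrix.mul_assoc g.Rᴴ, g.h2, Matrix.one_mul,
    emb_iso]

lemma BB : g.B * g.Bᴴ = g.E := by
  have h : g.R * g.E * g.Rᴴ = g.E := by
    have h3 : g.R * g.E = g.E * g.R := by
      have h4 : g.E = 1 - g.A := by rw [A]; abel
      rw [h4, Matrix.mul_sub, Matrix.sub_mul, R_A, A_R, Matrix.mul_one, Matrix.one_mul]
    rw [h3, Matrix.mul_assoc, g.h1, Matrix.mul_one]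
  rw [B, conjTranspose_mul, Matrix.mul_assoc, ← Matrix.mul_assoc g.emb, emb_mul,
    ← Matrix.mul_assoc, h]

lemma AA_BB : g.A * g.Aᴴ + g.B * g.Bᴴ = 1 := by
  rw [A_conj, A_mul_A, BB, A]
  abel

lemma C_A : g.C * g.A = 0 := by
  have := congrArg conjTranspose g.A_emb
  rw [conjTranspose_mul, A_conj, conjTranspose_zero] at this
  exact this

lemma BC : g.B * g.C = g.R * g.E := by
  rw [B, C, Matrix.mul_assoc, emb_mul]

lemma T_one : g.T 1 = g.R := by
  rw [T, BC, one_smul]
  conv_lhs => rw [← R_A, A]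
  rw [← Matrix.mul_add]
  simp

end Gate

/-- The circuit with delay variable `z` (the head of the list is applied last). -/
def circ : List (Gate ι) → ℂ → Matrix ι ι ℂ
  | [], _ => 1
  | g :: gs, z => g.T z * circ gs z

lemma circ_append (gs hs : List (Gate ι)) (z : ℂ) :
    circ (gs ++ hs) z = circ gs z * circ hs z := by
  induction gs with
  | nil => simp [circ]
  | cons g gs ih => rw [List.cons_append, circ, ih, circ, Matrix.mul_assoc]

lemma circ_pow (gs : List (Gate ι)) (k : ℕ) (z : ℂ) :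
    circ (List.replicate k gs).flatten z = circ gs z ^ k := by
  induction k with
  | zero => simp [circ]
  | succ k ih => rw [List.replicate_succ, List.flatten_cons, circ_append, ih, pow_succ']

lemma circ_one (gs : List (Gate ι)) : circ gs 1 = (gs.map Gate.R).prod := by
  induction gs with
  | nil => simp [circ]
  | cons g gs ih => rw [circ, ih, List.map_cons, List.prod_cons, Gate.T_one]

/-- The feedthrough of a circuit is the projection on the wires not touched. -/
lemma circ_zero (gs : List (Gate ι)) : ∃ f : ι → ℂ, circ gs 0 = diagonal f ∧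
    ∀ k, f k = 0 ∨ ∀ z, circ gs z *ᵥ Pi.single k 1 = Pi.single k 1 := by
  induction gs with
  | nil =>
    refine ⟨fun _ => 1, by simp [circ], fun k => Or.inr fun z => by rw [circ, one_mulVec]⟩
  | cons g gs ih =>
    obtain ⟨f, hf, hf2⟩ := ih
    refine ⟨fun k => (if k = g.a ∨ k = g.b then 0 else 1) * f k, ?_, ?_⟩
    · rw [circ, hf, Gate.T, zero_smul, add_zero, Gate.A, Gate.E, ← diagonal_one,
        diagonal_sub, diagonal_mul_diagonal]
      congr 1
      ext k
      split_ifs <;> simp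
    · intro k
      by_cases hk : k = g.a ∨ k = g.b
      · left; simp [hk]
      · rcases hf2 k with h | h
        · left; simp [h]
        · right
          intro z
          rw [circ, ← mulVec_mulVec, h z, Gate.T, Gate.BC, Matrix.add_mulVec, smul_mulVec,
            ← mulVec_mulVec]
          have h3 : g.E *ᵥ Pi.single k 1 = 0 := by
            rw [Gate.E, diagonal_mulVec_single]
            simp [hk]
          rw [h3, mulVec_zero, smul_zero, add_zero, Gate.A, Matrix.sub_mulVec, h3, one_mulVec,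
            sub_zero]


/-- The properties of a lossless realisation of a circuit. -/
structure Rz {σ : Type} [Fintype σ] [DecidableEq σ] (gs : List (Gate ι)) (A : Matrix ι ι ℂ)
    (B : Matrix ι σ ℂ) (C : Matrix σ ι ℂ) (D : Matrix σ σ ℂ) (Q : ℂ → Matrix σ σ ℂ) : Prop where
  i1 : Aᴴ * A + Cᴴ * C = 1
  i2 : Aᴴ * B + Cᴴ * D = 0
  i3 : Bᴴ * B + Dᴴ * D = 1
  i4 : A * Aᴴ + B * Bᴴ = 1
  i5 : C * Aᴴ + D * Bᴴ = 0
  q : ∀ z : ℂ, (1 - z • D) * Q z = 1
  tf : ∀ z : ℂ, circ gs z = A + z • (B * Q z * C)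
  tr : trace ((B * Q 1) * (B * Q 1)ᴴ) = Fintype.card σ
  nil : ∀ j, 0 < j → trace (D ^ j) = 0

omit [DecidableEq ι] in
lemma fromBlocks_pow' {σ : Type} [Fintype σ] [DecidableEq σ] (D : Matrix σ σ ℂ)
    (X : Matrix Bool σ ℂ) (j : ℕ) :
    (fromBlocks D 0 X (0 : Matrix Bool Bool ℂ)) ^ (j + 1) =
      fromBlocks (D ^ (j + 1)) 0 (X * D ^ j) 0 := by
  induction j with
  | zero => simp
  | succ j ih =>
    rw [pow_succ, ih, fromBlocks_multiply]
    simp [pow_succ, Matrix.mul_assoc]

omit [Fintype ι] [DecidableEq ι] in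
lemma fromCols_add' {σ τ : Type} (X X' : Matrix ι σ ℂ) (Y Y' : Matrix ι τ ℂ) :
    fromCols X Y + fromCols X' Y' = fromCols (X + X') (Y + Y') := by
  ext i (j | j) <;> simp

omit [Fintype ι] [DecidableEq ι] in
lemma fromRows_add' {σ τ : Type} (X X' : Matrix σ ι ℂ) (Y Y' : Matrix τ ι ℂ) :
    fromRows X Y + fromRows X' Y' = fromRows (X + X') (Y + Y') := by
  ext (i | i) j <;> simp

theorem realize (gs : List (Gate ι)) : ∃ (σ : Type) (_ : Fintype σ) (_ : DecidableEq σ)
    (A : Matrix ι ι ℂ) (B : Matrix ι σ ℂ) (C : Matrix σ ι ℂ) (D : Matrix σ σ ℂ)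
    (Q : ℂ → Matrix σ σ ℂ), Fintype.card σ = 2 * gs.length ∧ Rz gs A B C D Q := by
  induction gs with
  | nil =>
    refine ⟨Empty, inferInstance, inferInstance, 1, 0, 0, 0, fun _ => 0, by simp, ?_⟩
    constructor
    · simp
    · ext i j; exact j.elim
    · ext i j; exact j.elim
    · simp
    · ext i j; exact i.elim
    · intro z; ext i j; exact j.elim
    · intro z; simp [circ]
    · simp
    · intro j hj; simp [trace]
  | cons g gs ih =>
    obtain ⟨σ, i1, i2, A, B, C, D, Q, hcard, h⟩ := ih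
    refine ⟨σ ⊕ Bool, inferInstance, inferInstance, g.A * A, fromCols (g.A * B) g.B,
      fromRows C (g.C * A), fromBlocks D 0 (g.C * B) 0,
      fun z => fromBlocks (Q z) 0 (z • (g.C * B * Q z)) 1, ?_, ?_⟩
    · rw [Fintype.card_sum, hcard, Fintype.card_bool, List.length_cons]
      ring
    have hBQ : ∀ z, fromCols (g.A * B) g.B * fromBlocks (Q z) 0 (z • (g.C * B * Q z)) 1 =
        fromCols (g.T z * (B * Q z)) g.B := by
      intro z
      rw [fromCols_mul_fromBlocks]
      congr 1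
      · rw [Gate.T, Matrix.add_mul, Matrix.smul_mul, Matrix.mul_smul]
        simp only [Matrix.mul_assoc]
      · simp
    have gAC := g.AA_CC
    have gAB : g.Aᴴ * g.B = 0 := by rw [g.A_conj, g.A_B]
    have gBA : g.Bᴴ * g.A = 0 := by
      have := congrArg conjTranspose gAB
      rwa [conjTranspose_mul, conjTranspose_conjTranspose, conjTranspose_zero] at this
    have gBB := g.B_B
    have gAB2 := g.AA_BB
    have gCA : g.C * g.Aᴴ = 0 := by rw [g.A_conj, g.C_A]
    -- the key cancellation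
    have key : ∀ {τ υ : Type} [Fintype τ] [Fintype υ] (X : Matrix ι τ ℂ) (Y : Matrix ι υ ℂ),
        Xᴴ * g.Aᴴ * (g.A * Y) + Xᴴ * g.Cᴴ * (g.C * Y) = Xᴴ * Y := by
      intro τ υ _ _ X Y
      have e1 : Xᴴ * g.Aᴴ * (g.A * Y) = Xᴴ * (g.Aᴴ * g.A) * Y := by
        simp only [Matrix.mul_assoc]
      have e2 : Xᴴ * g.Cᴴ * (g.C * Y) = Xᴴ * (g.Cᴴ * g.C) * Y := by
        simp only [Matrix.mul_assoc]
      rw [e1, e2, ← Matrix.add_mul, ← Matrix.mul_add, gAC, Matrix.mul_one]
    have key' : ∀ {υ : Type} [Fintype υ] (X : Matrix ι ι ℂ) (Y : Matrix ι υ ℂ),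
        Xᴴ * g.Aᴴ * (g.A * Y) + Xᴴ * g.Cᴴ * (g.C * Y) = Xᴴ * Y := by
      intro υ _ X Y
      have e1 : Xᴴ * g.Aᴴ * (g.A * Y) = Xᴴ * (g.Aᴴ * g.A) * Y := by
        simp only [Matrix.mul_assoc]
      have e2 : Xᴴ * g.Cᴴ * (g.C * Y) = Xᴴ * (g.Cᴴ * g.C) * Y := by
        simp only [Matrix.mul_assoc]
      rw [e1, e2, ← Matrix.add_mul, ← Matrix.mul_add, gAC, Matrix.mul_one]
    have key'' : ∀ (X Y : Matrix ι ι ℂ),
        Xᴴ * g.Aᴴ * (g.A * Y) + Xᴴ * g.Cᴴ * (g.C * Y) = Xᴴ * Y := by
      intro X Y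
      have e1 : Xᴴ * g.Aᴴ * (g.A * Y) = Xᴴ * (g.Aᴴ * g.A) * Y := by
        simp only [Matrix.mul_assoc]
      have e2 : Xᴴ * g.Cᴴ * (g.C * Y) = Xᴴ * (g.Cᴴ * g.C) * Y := by
        simp only [Matrix.mul_assoc]
      rw [e1, e2, ← Matrix.add_mul, ← Matrix.mul_add, gAC, Matrix.mul_one]
    constructor
    · rw [conjTranspose_mul, conjTranspose_fromRows_eq_fromCols_conjTranspose,
        fromCols_mul_fromRows, conjTranspose_mul, ← h.i1, ← key'' A A]
      abel
    · rw [conjTranspose_mul, conjTranspose_fromRows_eq_fromCols_conjTranspose, mul_fromCols,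
        fromCols_mul_fromBlocks, fromCols_add', conjTranspose_mul]
      have e1 : Aᴴ * g.Aᴴ * (g.A * B) + (Cᴴ * D + Aᴴ * g.Cᴴ * (g.C * B)) = 0 := by
        rw [← h.i2, ← key' A B]
        abel
      have e2 : Aᴴ * g.Aᴴ * g.B + (Cᴴ * (0 : Matrix σ Bool ℂ) + Aᴴ * g.Cᴴ * (0 : Matrix Bool Bool ℂ)) = 0 := by
        rw [Matrix.mul_assoc, gAB]
        simp
      rw [e1, e2, fromCols_zero]
    · rw [conjTranspose_fromCols_eq_fromRows_conjTranspose, fromRows_mul_fromCols,
        fromBlocks_conjTranspose, fromBlocks_multiply, fromBlocks_add, ← fromBlocks_one]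
      congr 1
      · rw [conjTranspose_mul, conjTranspose_mul, ← h.i3, ← key B B]
        abel
      · rw [conjTranspose_mul, Matrix.mul_assoc, gAB]
        simp
      · rw [← Matrix.mul_assoc, gBA]
        simp
      · rw [gBB]
        simp
    · rw [conjTranspose_fromCols_eq_fromRows_conjTranspose, fromCols_mul_fromRows,
        conjTranspose_mul, conjTranspose_mul]
      have e1 : g.A * A * (Aᴴ * g.Aᴴ) + g.A * B * (Bᴴ * g.Aᴴ) = g.A * g.Aᴴ := by
        have e2 : g.A * A * (Aᴴ * g.Aᴴ) + g.A * B * (Bᴴ * g.Aᴴ) =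
            g.A * (A * Aᴴ + B * Bᴴ) * g.Aᴴ := by
          rw [Matrix.mul_add, Matrix.add_mul]
          simp only [Matrix.mul_assoc]
        rw [e2, h.i4, Matrix.mul_one]
      rw [← add_assoc, e1, gAB2]
    · rw [conjTranspose_fromCols_eq_fromRows_conjTranspose, fromRows_mul,
        fromBlocks_mul_fromRows, fromRows_add', conjTranspose_mul, conjTranspose_mul]
      have e1 : C * (Aᴴ * g.Aᴴ) + (D * (Bᴴ * g.Aᴴ) + (0 : Matrix σ Bool ℂ) * g.Bᴴ) = 0 := by
        rw [Matrix.zero_mul, add_zero, ← Matrix.mul_assoc, ← Matrix.mul_assoc, ← Matrix.add_mul,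
          h.i5, Matrix.zero_mul]
      have e2 : g.C * A * (Aᴴ * g.Aᴴ) + (g.C * B * (Bᴴ * g.Aᴴ) + (0 : Matrix Bool Bool ℂ) * g.Bᴴ)
          = 0 := by
        have e3 : g.C * A * (Aᴴ * g.Aᴴ) + g.C * B * (Bᴴ * g.Aᴴ) =
            g.C * (A * Aᴴ + B * Bᴴ) * g.Aᴴ := by
          rw [Matrix.mul_add, Matrix.add_mul]
          simp only [Matrix.mul_assoc]
        rw [Matrix.zero_mul, add_zero, e3, h.i4, Matrix.mul_one, gCA]
      rw [e1, e2, fromRows_zero]
    · intro z
      have e1 : (1 : Matrix (σ ⊕ Bool) (σ ⊕ Bool) ℂ) - z • fromBlocks D 0 (g.C * B) 0 =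
          fromBlocks (1 - z • D) 0 (-(z • (g.C * B))) 1 := by
        rw [← fromBlocks_one, fromBlocks_smul, sub_eq_add_neg, fromBlocks_neg, fromBlocks_add]
        simp [sub_eq_add_neg]
      rw [e1, fromBlocks_multiply, ← fromBlocks_one]
      congr 1
      · rw [h.q z]
        simp
      · simp
      · rw [Matrix.neg_mul, Matrix.smul_mul, Matrix.one_mul, neg_add_cancel]
      · simp
    · intro z
      rw [hBQ z, fromCols_mul_fromRows, circ, h.tf z, Matrix.mul_add]
      rw [Gate.T, Matrix.add_mul, Matrix.add_mul, Matrix.smul_mul, Matrix.smul_mul,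
        Matrix.mul_smul, Matrix.mul_smul, Matrix.add_mul, Matrix.add_mul, Matrix.smul_mul,
        Matrix.smul_mul, smul_add]
      simp only [Matrix.mul_assoc, smul_add]
      abel
    · rw [hBQ 1, conjTranspose_fromCols_eq_fromRows_conjTranspose, fromCols_mul_fromRows,
        trace_add, g.BB, g.trace_E, g.T_one, conjTranspose_mul, Matrix.mul_assoc,
        trace_mul_comm, Matrix.mul_assoc (B * Q 1), Matrix.mul_assoc (B * Q 1)ᴴ, g.h2,
        Matrix.mul_one, h.tr]
      simp
    · intro j hj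
      obtain ⟨k, rfl⟩ := Nat.exists_eq_succ_of_ne_zero hj.ne'
      rw [Nat.succ_eq_add_one, fromBlocks_pow']
      have e1 := h.nil (k + 1) (by omega)
      simp only [trace, Fintype.sum_sum_type, diag_apply, fromBlocks_apply₁₁,
        fromBlocks_apply₂₂] at e1 ⊢
      simp [e1]

end Pool.Agent.H683R2.RF
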